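import Pool.Agent.W_59b51d_u18.Bad

/-!
# The bad side with one generator
-/

namespace Pool.Agent.W_59b51d_v18

open Pool.Agent.W_59b51d_u18
open Pool.Agent.W_59b51d_h18

/-- A safe set none of whose words becomes a word with a side of a relation or a zero word at the
beginning if the letter `true` is put in front of it. -/
structure Safe1 (R : List (Wd × Wd)) (Z : List Wd) (blk : Wd) (L : Set Wd) : Prop where
  safe : Safe R Z blk L
  rel1 : ∀ q ∈ R, ∀ b w : Wd, w ∈ L → true :: w ≠ q.1 ++ b ∧ true :: w ≠ q.2 ++ b
  zer1 : ∀ z ∈ Z, ∀ b w : Wd, w ∈ L → true :: w ≠ z ++ b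

/-- The relator `(x x) ∘ blk = x x`, with `x` the only generator. -/
def rel0 (F : Type) [Field F] (blk : Wd) : Poly F (Fin 1) :=
  [(1, act (FreeMagma.of 0 * FreeMagma.of 0) (ccol blk (FreeMagma.of 0))),
    (-1, FreeMagma.of 0 * FreeMagma.of 0)]

/-- The test polynomials. -/
def wpol0 (F : Type) [Field F] (w : Wd) : Poly F (Fin 1) :=
  [(1, act (FreeMagma.of 0 * FreeMagma.of 0) (ccol w (FreeMagma.of 0)))]

theorem lift_ccol0 {A : Type} [Mul A] (a : Fin 1 → A) (w : Wd) :
    FreeMagma.lift a (act (FreeMagma.of 0 * FreeMagma.of 0) (ccol w (FreeMagma.of 0))) =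
      act (a 0 * a 0) (ccol w (a 0)) := by
  rw [lift_act, ccol, List.map_map]
  rfl

theorem eval_wpol0 {F : Type} [Field F] {A : Type} [NonUnitalNonAssocRing A] [Module F A]
    (a : Fin 1 → A) (w : Wd) : (wpol0 F w).eval a = act (a 0 * a 0) (ccol w (a 0)) := by
  rw [Poly.eval, wpol0, List.map_cons, List.map_nil, List.sum_cons, List.sum_nil, one_smul,
    add_zero, lift_ccol0]

theorem eval_rel0 {F : Type} [Field F] {A : Type} [NonUnitalNonAssocRing A] [Module F A]
    (a : Fin 1 → A) (blk : Wd) :
    (rel0 F blk).eval a = act (a 0 * a 0) (ccol blk (a 0)) - a 0 * a 0 := by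
  rw [Poly.eval, rel0, List.map_cons, List.map_cons, List.map_nil, List.sum_cons, List.sum_cons,
    List.sum_nil, one_smul, add_zero, lift_ccol0, neg_smul, one_smul, sub_eq_add_neg]
  rfl

/-- Vanishing of the test polynomials. -/
theorem vanishes_wpol0 {F : Type} [Field F] {R : List (Wd × Wd)} {Z : List Wd}
    (hlen : ∀ q ∈ R, q.1.length = q.2.length) {blk w : Wd} {j : ℕ}
    (hj : LZ R Z (rep j blk ++ w)) : Vanishes2 F (TL R Z) [rel0 F blk] (wpol0 F w) := by
  intro A _ _ _ _ hA a hr
  have h1 : act (a 0 * a 0) (ccol blk (a 0)) = a 0 * a 0 := by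
    have h := hr _ (List.mem_singleton.2 rfl)
    rw [eval_rel0, sub_eq_zero] at h
    exact h
  have h2 : ∀ j, act (a 0 * a 0) (ccol (rep j blk) (a 0)) = a 0 * a 0 := by
    intro j
    induction j with
    | zero => rfl
    | succ j ih =>
      have e : rep (j + 1) blk = blk ++ rep j blk := by
        rw [rep, List.replicate_succ, List.flatten_cons]
        rfl
      rw [e, ccol_append, act_append, h1, ih]
  rw [eval_wpol0]
  have h4 : act (a 0 * a 0) (ccol w (a 0)) = act (a 0 * a 0) (ccol (rep j blk ++ w) (a 0)) := by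
    rw [ccol_append, act_append, h2 j]
  rw [h4, ccol_eq_zip]
  exact act_eq_zero_of_LZ hlen hA hj _ _ _ (List.length_replicate ..)

/-- The algebra of a safe set: an element `x` such that `x x` is fixed by `blk` and the words of the
safe set do not vanish on `x x`. Proof: `x = mkMA 1 g` with `g (true :: w) = 1` for `w` in `L` and `g = 0`
on all other words. -/
theorem exists_model0 (F : Type) [Field F] {R : List (Wd × Wd)} {Z : List Wd} {blk : Wd}
    (hlen : ∀ q ∈ R, q.1.length = q.2.length)
    {L : Set Wd} (hL : Safe1 R Z blk L) : ∃ (A : Type) (_ : NonUnitalNonAssocRing A)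
      (_ : Module F A) (_ : IsScalarTower F A A) (_ : SMulCommClass F A A) (x : A),
      Sat2 A (TL R Z) ∧ act (x * x) (ccol blk x) = x * x ∧
        ∀ w ∈ L, act (x * x) (ccol w x) ≠ 0 := by
  classical
  let g0 : Wd → F := fun w => if w.head? = some true ∧ w.tail ∈ L then 1 else 0
  have e1 : ∀ w, g0 (true :: w) = if w ∈ L then 1 else 0 := fun w => by simp [g0]
  have e2 : ∀ w, g0 (false :: w) = 0 := fun w => by simp [g0]
  have e3 : ∀ w : Wd, (∀ w' ∈ L, true :: w' ≠ w) → g0 w = 0 := by
    intro w hw
    cases w with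
    | nil => simp [g0]
    | cons s w =>
      cases s with
      | false => exact e2 w
      | true =>
        rw [e1]
        exact if_neg fun h => hw w h rfl
  let g : MF F R Z := ⟨g0, by
    refine ⟨fun a b q hq => ?_, fun a b z hz => ?_⟩
    · cases a with
      | nil =>
        rw [List.nil_append, List.nil_append, e3 _ fun w hw => (hL.rel1 q hq b w hw).1,
          e3 _ fun w hw => (hL.rel1 q hq b w hw).2]
      | cons s a =>
        rw [List.cons_append, List.cons_append, List.cons_append, List.cons_append]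
        cases s with
        | false => rw [e2, e2]
        | true =>
          rw [e1, e1]
          exact if_congr (hL.safe.rel a q.1 q.2 b hq) rfl rfl
    · cases a with
      | nil =>
        rw [List.nil_append]
        exact e3 _ fun w hw => hL.zer1 z hz b w hw
      | cons s a =>
        rw [List.cons_append, List.cons_append]
        cases s with
        | false => rw [e2]
        | true =>
          rw [e1]
          exact if_neg (hL.safe.zer a z b hz)⟩
  let G : MF F R Z := (1 : F) • shf F R Z true g + (1 : F) • shf F R Z false g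
  have hG : ∀ w, G.1 w = if w ∈ L then 1 else 0 := by
    intro w
    change (1 : F) • g0 (true :: w) + (1 : F) • g0 (false :: w) = _
    rw [e1, e2, smul_zero, add_zero, one_smul]
  have hx : mkMA (1 : F) g * mkMA 1 g = mkMA 0 G := MA_mul F R Z 1 1 g g
  have hact : ∀ w : Wd, act (mkMA (1 : F) g * mkMA 1 g) (ccol w (mkMA 1 g)) =
      mkMA 0 (shw F R Z w G) := by
    intro w
    rw [hx, act_mkMA, ccol_fst]
    have h1 : ((ccol w (mkMA (R := R) (Z := Z) (1 : F) g)).map fun p => p.2.1).prod = 1 := by
      rw [ccol, List.map_map]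
      induction w with
      | nil => rfl
      | cons s w ih =>
        rw [List.map_cons, List.prod_cons, ih, mul_one]
        rfl
    rw [h1, one_smul]
  refine ⟨MA F R Z, inferInstance, inferInstance, inferInstance, inferInstance, mkMA 1 g,
    sat2_MA F R Z hlen, ?_, ?_⟩
  · rw [hact, hx]
    have h3 : shw F R Z blk G = G := by
      apply Subtype.ext
      funext s
      rw [shw_apply, hG, hG]
      exact if_congr (hL.safe.blk s) rfl rfl
    rw [h3]
  · intro w hw h0
    rw [hact] at h0
    have h3 : shw F R Z w G = 0 := congrArg Prod.snd h0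
    have h4 := shw_apply F R Z w G []
    rw [h3, hG, List.append_nil, if_pos hw] at h4
    exact zero_ne_one h4

/-- Non-vanishing of the test polynomials (`exists_model0`). -/
theorem not_vanishes_wpol0 {F : Type} [Field F] {R : List (Wd × Wd)} {Z : List Wd}
    (hlen : ∀ q ∈ R, q.1.length = q.2.length) {blk w : Wd}
    {L : Set Wd} (hL : Safe1 R Z blk L) (hw : w ∈ L) :
    ¬ Vanishes2 F (TL R Z) [rel0 F blk] (wpol0 F w) := by
  intro h
  obtain ⟨A, i1, i2, i3, i4, x, h1, h2, h3⟩ := exists_model0 F hlen hL
  have h4 := h A h1 (fun _ => x) ?_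
  · rw [eval_wpol0] at h4
    exact h3 w hw h4
  · intro p hp
    rw [List.mem_singleton] at hp
    subst hp
    rw [eval_rel0]
    exact sub_eq_zero.2 h2

/-- The coded test polynomials are computable in the parameter. -/
theorem computable_wpol0 (F : Type) [Field F] [Primcodable F] (blk al be : Wd) :
    Computable fun m : ℕ => (wpol0 F (al ++ rep m blk ++ be)).map fun q => (q.1, code q.2) := by
  have h1 : ∀ (w : Wd) (t : FreeMagma (Fin 1)) (i : ℕ),
      code (act t (ccol w (FreeMagma.of 0))) = wact (fun _ => 0) (code t) i w := by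
    intro w
    induction w with
    | nil => intro t i; rfl
    | cons s w ih =>
      intro t i
      cases s with
      | true =>
        change code (act (t * FreeMagma.of 0) (ccol w (FreeMagma.of 0))) = _
        rw [ih _ (i + 1)]
        rfl
      | false =>
        change code (act (FreeMagma.of 0 * t) (ccol w (FreeMagma.of 0))) = _
        rw [ih _ (i + 1)]
        rfl
  have h2 : Primrec fun m : ℕ => wact (fun _ => 0)
      (code (FreeMagma.of (0 : Fin 1) * FreeMagma.of 0)) 0 (al ++ rep m blk ++ be) :=
    (primrec_wact (fun _ => 0) (Primrec.const 0) _ 0).comp (primrec_word al blk be)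
  have h3 : Primrec fun m : ℕ => ([((1 : F), wact (fun _ => 0)
      (code (FreeMagma.of (0 : Fin 1) * FreeMagma.of 0)) 0 (al ++ rep m blk ++ be))] :
        List (F × ℕ)) :=
    Primrec.list_cons.comp (Primrec.pair (Primrec.const _) h2) (Primrec.const [])
  refine h3.to_comp.of_eq fun m => ?_
  rw [wpol0, List.map_cons, List.map_nil, h1 _ _ 0]

/-- The algebra with the generator `x` and the relator `(x x) ∘ blk = x x` has unsolvable word
problem. -/
theorem not_solvable0 (R : List (Wd × Wd)) (Z : List Wd)
    (hlen : ∀ q ∈ R, q.1.length = q.2.length) (blk al be : Wd) {p : ℕ → Prop}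
    (hp : ¬ ComputablePred p)
    (hsafe : ∀ m, ¬ p m → ∃ L : Set Wd, Safe1 R Z blk L ∧ al ++ rep m blk ++ be ∈ L)
    (hzero : ∀ m, p m → ∃ j, LZ R Z (rep j blk ++ (al ++ rep m blk ++ be)))
    (F : Type) [Field F] [Primcodable F] : ¬ Solvable2 F (TL R Z) [rel0 F blk] := by
  rintro ⟨f, hf, hfs⟩
  apply hp
  rw [ComputablePred.computable_iff]
  refine ⟨fun m => f ((wpol0 F (al ++ rep m blk ++ be)).map fun q => (q.1, code q.2)),
    hf.comp (computable_wpol0 F blk al be), ?_⟩
  funext m
  rw [eq_iff_iff, hfs]
  constructor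
  · intro hm
    obtain ⟨j, hj⟩ := hzero m hm
    exact vanishes_wpol0 hlen hj
  · intro hm
    by_contra hpm
    obtain ⟨L, hL, hw⟩ := hsafe m hpm
    exact not_vanishes_wpol0 hlen hL hw hm

end Pool.Agent.W_59b51d_v18
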