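import Pool.Agent.W_59b51d_v18.Enc
import Pool.Agent.W_59b51d_v18.Zip

/-!
# The system of words of a machine
-/

namespace Pool.Agent.W_59b51d_v18

open Pool.Agent.W_59b51d_u18

section

variable {Fl C : Type} [Fintype Fl] [DecidableEq Fl] (M : Mach Fl C) (E : Enc (Lt Fl C))

/-- The relations between words. -/
def RelSet : Set (Wd × Wd) :=
  {q | ∃ T0 h D0 T1 h' D1, Loc M T0 h D0 T1 h' D1 ∧
    q = ((D0.reverse ++ h :: T0).flatMap E.enc, (D1.reverse ++ h' :: T1).flatMap E.enc)}

/-- The zero words without the pattern. -/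
def ZerSet : Set Wd :=
  {w | ∃ T0 h D0, LocZ M T0 h D0 ∧ ∃ bT bD : List Wd, E.IsBl bT ∧ E.IsBl bD ∧
    bT.map E.dec = T0 ∧ bD.map E.dec = D0 ∧ w = bD.reverse.flatten ++ E.enc h ++ bT.flatten}

/-- The ends of the pattern words. -/
def famq : Wd × Wd := (E.enc (.P M.ψ0), E.enc (.P M.φ0) ++ E.enc (.A M.pass M.S0))

variable [Finite C]

/-- `Lt Fl C` is finite (inject it into a sum of products of finite types). -/
instance : Finite (Lt Fl C) := by
  let g : (Finset Fl ⊕ (Option (C × Finset Fl) × Finset Fl)) ⊕ (C ⊕ (C × Finset Fl)) → Lt Fl C :=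
    fun x => match x with
      | .inl (.inl φ) => .P φ
      | .inl (.inr p) => .B p.1 p.2
      | .inr (.inl c) => .H c
      | .inr (.inr p) => .A p.1 p.2
  refine Finite.of_surjective g fun l => ?_
  cases l with
  | P φ => exact ⟨.inl (.inl φ), rfl⟩
  | B μ φ => exact ⟨.inl (.inr (μ, φ)), rfl⟩
  | H c => exact ⟨.inr (.inl c), rfl⟩
  | A c S => exact ⟨.inr (.inr (c, S)), rfl⟩

theorem Loc_length_le {T0 D0 T1 D1 : List (Lt Fl C)} {h h' : Lt Fl C}
    (H : Loc M T0 h D0 T1 h' D1) : D0.length + T0.length ≤ 2 ∧
      D0.length + T0.length = D1.length + T1.length := by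
  cases H <;> simp

theorem RelSet_len {q : Wd × Wd} (hq : q ∈ RelSet M E) :
    q.1.length ≤ E.B * 3 ∧ q.1.length = q.2.length := by
  obtain ⟨T0, h, D0, T1, h', D1, H, rfl⟩ := hq
  obtain ⟨h1, h2⟩ := Loc_length_le M H
  constructor
  · change ((D0.reverse ++ h :: T0).flatMap E.enc).length ≤ _
    rw [E.flatMap_len]
    refine Nat.mul_le_mul_left _ ?_
    simp only [List.length_append, List.length_reverse, List.length_cons]
    omega
  · change ((D0.reverse ++ h :: T0).flatMap E.enc).length =
      ((D1.reverse ++ h' :: T1).flatMap E.enc).length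
    rw [E.flatMap_len, E.flatMap_len]
    congr 1
    simp only [List.length_append, List.length_reverse, List.length_cons]
    omega

/-- Bounded lengths: the members of `Loc` have at most two letters in `D0`, `D1` and one in
`T0`, `T1`; use `List.finite_length_le`. -/
theorem finite_RelSet : (RelSet M E).Finite := by
  refine ((List.finite_length_le Bool (E.B * 3)).prod
    (List.finite_length_le Bool (E.B * 3))).subset fun q hq => ?_
  obtain ⟨h1, h2⟩ := RelSet_len M E hq
  exact ⟨h1, h2.symm.le.trans h1⟩

theorem Enc.flatten_len {α : Type} (E : Enc α) (bs : List Wd) (h : E.IsBl bs) :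
    bs.flatten.length = E.B * bs.length := by
  induction bs with
  | nil => simp
  | cons b bs ih =>
    rw [List.flatten_cons, List.length_append, h b List.mem_cons_self,
      ih fun c hc => h c (List.mem_cons_of_mem _ hc), List.length_cons]
    ring

theorem finite_ZerSet : (ZerSet M E).Finite := by
  refine (List.finite_length_le Bool (E.B * 4)).subset fun w hw => ?_
  obtain ⟨T0, h, D0, H, bT, bD, hT, hD, eT, eD, rfl⟩ := hw
  have h1 : T0.length + D0.length ≤ 3 := by cases H <;> simp
  have h2 : bT.length = T0.length := by rw [← eT, List.length_map]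
  have h3 : bD.length = D0.length := by rw [← eD, List.length_map]
  have h4 : E.IsBl bD.reverse := fun b hb => hD b (List.mem_reverse.1 hb)
  change (bD.reverse.flatten ++ E.enc h ++ bT.flatten).length ≤ E.B * 4
  rw [List.length_append, List.length_append, Enc.flatten_len E _ hT, Enc.flatten_len E _ h4, E.len,
    List.length_reverse, h2, h3]
  have h5 : E.B * D0.length + E.B + E.B * T0.length = E.B * (T0.length + D0.length + 1) := by ring
  rw [h5]
  exact Nat.mul_le_mul_left _ (by omega)

theorem RelSet_length : ∀ q ∈ RelSet M E, q.1.length = q.2.length := fun _ hq =>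
  (RelSet_len M E hq).2

end

end Pool.Agent.W_59b51d_v18
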