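import Pool.Agent.W_59b51d_u18.Word

/-!
# A self-synchronizing code (EncA)
-/

namespace Pool.Agent.W_59b51d_v18

open Pool.Agent.W_59b51d_u18

/-- A self-synchronizing block code: the blocks have the length `B` and begin with `false`, and a
prefix of a code word which is followed by a block is a product of blocks. -/
structure Enc (α : Type) where
  B : ℕ
  enc : α → Wd
  two : 1 < B
  fst : ∀ l, ∃ w, enc l = false :: w
  len : ∀ l, (enc l).length = B
  inj : Function.Injective enc
  sync : ∀ (w : List α) (a b : Wd) (l : α), w.flatMap enc = a ++ enc l ++ b → B ∣ a.length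

theorem Enc.pos {α : Type} (E : Enc α) : 0 < E.B := lt_trans zero_lt_one E.two

theorem encA_odd {α : Type} (f : α → Bool) (l : List α) (j : ℕ) (hj : j < l.length) :
    (l.flatMap fun i => [f i, true])[2 * j + 1]? = some true := by
  induction l generalizing j with
  | nil => simp at hj
  | cons a l ih =>
    cases j with
    | zero => rfl
    | succ j =>
      have e : 2 * (j + 1) + 1 = (2 * j + 1) + 1 + 1 := by omega
      rw [e, List.flatMap_cons, List.cons_append, List.cons_append, List.nil_append,
        List.getElem?_cons_succ, List.getElem?_cons_succ]
      exact ih j (by simpa using hj)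

theorem encA_even {α : Type} (f : α → Bool) (l : List α) (j : ℕ) :
    (l.flatMap fun i => [f i, true])[2 * j]? = l[j]?.map f := by
  induction l generalizing j with
  | nil => rfl
  | cons a l ih =>
    cases j with
    | zero => rfl
    | succ j =>
      have e : 2 * (j + 1) = 2 * j + 1 + 1 := by omega
      rw [e, List.flatMap_cons, List.cons_append, List.cons_append, List.nil_append,
        List.getElem?_cons_succ, List.getElem?_cons_succ, List.getElem?_cons_succ]
      exact ih j

/-- Existence of the code.

Proof. Let `q` be the number of letters and `e` an equivalence with `Fin q`. Take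
`enc l = [false, false, true] ++ (List.finRange q).flatMap fun i => [decide (e l = i), true]`, of
length `B = 3 + 2 * q`. The entries of `enc l` with an even index `≥ 2` are `true`, the entries `0`
and `1` are `false`. Claim: if the entries `t` and `t + 1` of `w.flatMap enc` are `false`, then
`B ∣ t` (induction on `w`: in `enc l ++ rest`, the case `t ≥ B` is the induction hypothesis; for
`1 ≤ t < B` one of `t`, `t + 1` is even and at least `2` and less than `B`, because `B` is odd). -/
theorem exists_enc (α : Type) [Finite α] : Nonempty (Enc α) := by
  classical
  let e := Finite.equivFin α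
  let enc : α → Wd := fun l => false :: false :: true ::
    (List.finRange (Nat.card α)).flatMap fun i => [decide (e l = i), true]
  have hlen : ∀ l, (enc l).length = 3 + 2 * Nat.card α := by
    intro l
    simp only [enc, List.length_cons, List.length_flatMap, List.length_nil, List.map_const',
      List.length_finRange, List.sum_replicate, smul_eq_mul]
    omega
  -- the even entries
  have heven : ∀ (l : α) (t : ℕ), 2 ≤ t → t < 3 + 2 * Nat.card α → t % 2 = 0 →
      (enc l)[t]? = some true := by
    intro l t h1 h2 h3
    by_cases h4 : t = 2
    · subst h4
      rfl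
    · obtain ⟨j, rfl⟩ : ∃ j, t = 2 * j + 1 + 1 + 1 + 1 := ⟨(t - 4) / 2, by omega⟩
      change (false :: false :: true :: (List.finRange (Nat.card α)).flatMap fun i =>
        [decide (e l = i), true])[2 * j + 1 + 1 + 1 + 1]? = some true
      rw [List.getElem?_cons_succ, List.getElem?_cons_succ, List.getElem?_cons_succ]
      exact encA_odd _ _ j (by rw [List.length_finRange]; omega)
  have key : ∀ (w : List α) (t : ℕ), (w.flatMap enc)[t]? = some false →
      (w.flatMap enc)[t + 1]? = some false → (3 + 2 * Nat.card α) ∣ t := by
    intro w
    induction w with
    | nil =>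
      intro t h
      simp at h
    | cons l w ih =>
      intro t h1 h2
      rw [List.flatMap_cons] at h1 h2
      by_cases ht : 3 + 2 * Nat.card α ≤ t
      · rw [List.getElem?_append_right (by rw [hlen]; exact ht), hlen] at h1
        rw [List.getElem?_append_right (by rw [hlen]; omega), hlen] at h2
        have h3 : t + 1 - (3 + 2 * Nat.card α) = t - (3 + 2 * Nat.card α) + 1 := by omega
        rw [h3] at h2
        have h4 := ih _ h1 h2
        exact (Nat.dvd_sub_iff_left ht dvd_rfl).1 h4
      · have ht' : t < 3 + 2 * Nat.card α := by omega
        rcases Nat.eq_zero_or_pos t with rfl | h0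
        · exact dvd_zero _
        · exfalso
          rcases Nat.mod_two_eq_zero_or_one t with h3 | h3
          · rw [List.getElem?_append_left (by rw [hlen]; exact ht'),
              heven l t (by omega) ht' h3] at h1
            cases h1
          · rw [List.getElem?_append_left (by rw [hlen]; omega),
              heven l (t + 1) (by omega) (by omega) (by omega)] at h2
            cases h2
  refine ⟨⟨3 + 2 * Nat.card α, enc, by omega, fun l => ⟨_, rfl⟩, hlen, ?_, ?_⟩⟩
  · intro l l' h
    have h1 : (enc l)[2 * (e l).1 + 1 + 1 + 1]? = (enc l')[2 * (e l).1 + 1 + 1 + 1]? := by rw [h]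
    change (false :: false :: true :: (List.finRange (Nat.card α)).flatMap fun i =>
        [decide (e l = i), true])[2 * (e l).1 + 1 + 1 + 1]? =
      (false :: false :: true :: (List.finRange (Nat.card α)).flatMap fun i =>
        [decide (e l' = i), true])[2 * (e l).1 + 1 + 1 + 1]? at h1
    rw [List.getElem?_cons_succ, List.getElem?_cons_succ, List.getElem?_cons_succ,
      List.getElem?_cons_succ, List.getElem?_cons_succ, List.getElem?_cons_succ, encA_even,
      encA_even] at h1
    have h2 : (List.finRange (Nat.card α))[(e l).1]? = some (e l) := by
      rw [List.getElem?_eq_getElem (by rw [List.length_finRange]; exact (e l).2)]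
      congr 1
      apply Fin.ext
      simp
    rw [h2, Option.map_some, Option.map_some, Option.some.injEq] at h1
    have h3 : decide (e l' = e l) = true := by
      rw [← h1]
      exact decide_eq_true rfl
    exact (e.injective (of_decide_eq_true h3)).symm
  · intro w a b l h
    apply key w
    · rw [h, List.append_assoc, List.getElem?_append_right le_rfl, Nat.sub_self]
      rfl
    · rw [h, List.append_assoc, List.getElem?_append_right (Nat.le_succ _),
        Nat.succ_sub le_rfl, Nat.sub_self]
      rfl

variable {α : Type} (E : Enc α)

open Classical in
/-- Decoding of a block. -/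
noncomputable def Enc.dec (b : Wd) : Option α := if h : ∃ l, E.enc l = b then some h.choose else none

theorem Enc.dec_enc (l : α) : E.dec (E.enc l) = some l := by
  have h : ∃ l', E.enc l' = E.enc l := ⟨l, rfl⟩
  rw [Enc.dec, dif_pos h, E.inj h.choose_spec]

theorem Enc.dec_eq_some {b : Wd} {l : α} (h : E.dec b = some l) : b = E.enc l := by
  unfold Enc.dec at h
  split_ifs at h with h1
  rw [Option.some.injEq] at h
  rw [← h]
  exact h1.choose_spec.symm

/-- A list of blocks. -/
def Enc.IsBl (bs : List Wd) : Prop := ∀ b ∈ bs, b.length = E.B

end Pool.Agent.W_59b51d_v18
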