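import Pool.Agent.W_59b51d_v18.EncA

/-!
# A self-synchronizing code (EncB)
-/

namespace Pool.Agent.W_59b51d_v18

open Pool.Agent.W_59b51d_u18

variable {α : Type} (E : Enc α)

/-- A prefix whose length is a multiple of the block length is a product of blocks. -/
theorem Enc.split (w : List α) (a b : Wd) (h : w.flatMap E.enc = a ++ b)
    (ha : E.B ∣ a.length) : ∃ w1 w2, w = w1 ++ w2 ∧ a = w1.flatMap E.enc ∧ b = w2.flatMap E.enc := by
  induction w generalizing a with
  | nil =>
    simp only [List.flatMap_nil] at h
    have h1 := List.append_eq_nil_iff.1 h.symm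
    exact ⟨[], [], rfl, by simp [h1.1], by simp [h1.2]⟩
  | cons l w ih =>
    rcases eq_or_ne a [] with rfl | hne
    · exact ⟨[], l :: w, rfl, rfl, by simpa using h.symm⟩
    · have hB : E.B ≤ a.length := Nat.le_of_dvd (List.length_pos_iff.2 hne) ha
      rw [List.flatMap_cons] at h
      have h1 : E.enc l ++ w.flatMap E.enc = a.take E.B ++ (a.drop E.B ++ b) := by
        rw [h, ← List.append_assoc, List.take_append_drop]
      obtain ⟨h2, h3⟩ := List.append_inj h1
        (by rw [E.len, List.length_take, min_eq_left hB])
      obtain ⟨w1, w2, e1, e2, e3⟩ := ih (a.drop E.B) h3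
        (by rw [List.length_drop]; exact Nat.dvd_sub ha dvd_rfl)
      refine ⟨l :: w1, w2, by rw [e1]; rfl, ?_, e3⟩
      rw [List.flatMap_cons, ← e2, h2, List.take_append_drop]

theorem Enc.flatMap_len (u : List α) : (u.flatMap E.enc).length = E.B * u.length := by
  induction u with
  | nil => simp
  | cons l u ih =>
    rw [List.flatMap_cons, List.length_append, ih, E.len, List.length_cons]
    ring

theorem Enc.flatMap_inj {u v : List α} (h : u.flatMap E.enc = v.flatMap E.enc) : u = v := by
  induction u generalizing v with
  | nil =>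
    cases v with
    | nil => rfl
    | cons l v =>
      have h1 := congrArg List.length h
      rw [E.flatMap_len, E.flatMap_len, List.length_nil, List.length_cons] at h1
      have h2 : 0 < E.B * (v.length + 1) := Nat.mul_pos E.pos (Nat.succ_pos _)
      omega
  | cons l u ih =>
    cases v with
    | nil =>
      have h1 := congrArg List.length h
      rw [E.flatMap_len, E.flatMap_len, List.length_nil, List.length_cons] at h1
      have h2 : 0 < E.B * (u.length + 1) := Nat.mul_pos E.pos (Nat.succ_pos _)
      omega
    | cons l' v =>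
      rw [List.flatMap_cons, List.flatMap_cons] at h
      obtain ⟨h1, h2⟩ := List.append_inj h (by rw [E.len, E.len])
      rw [E.inj h1, ih h2]

/-- A factor which is a nonempty product of blocks occurs at the level of letters.

Proof. `sync` for the first letter of `u`, `split` for `a`, then for `u` (its length is a multiple of
`B`), and uniqueness of the letters of `u` (same length, `inj`; induction on `u`). -/
theorem Enc.factor (w u : List α) (hu : u ≠ []) (a b : Wd)
    (h : w.flatMap E.enc = a ++ u.flatMap E.enc ++ b) :
    ∃ w1 w2, w = w1 ++ u ++ w2 ∧ a = w1.flatMap E.enc ∧ b = w2.flatMap E.enc := by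
  obtain ⟨l, u', rfl⟩ := List.exists_cons_of_ne_nil hu
  have ha : E.B ∣ a.length := by
    refine E.sync w a (u'.flatMap E.enc ++ b) l ?_
    rw [h, List.flatMap_cons]
    simp only [List.append_assoc]
  rw [List.append_assoc] at h
  obtain ⟨w1, v, e1, e2, e3⟩ := E.split w a _ h ha
  obtain ⟨v1, w2, f1, f2, f3⟩ := E.split v ((l :: u').flatMap E.enc) b e3.symm
    ⟨_, E.flatMap_len _⟩
  refine ⟨w1, w2, ?_, e2, f3⟩
  rw [e1, f1, E.flatMap_inj f2, List.append_assoc]

end Pool.Agent.W_59b51d_v18
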