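import Pool.Agent.W_59b51d_v18.EncB

/-!
# A self-synchronizing code (EncC)
-/

namespace Pool.Agent.W_59b51d_v18

open Pool.Agent.W_59b51d_u18

variable {α : Type} (E : Enc α)

/-- Blocks at the beginning of a code word are code blocks. -/
theorem Enc.segs (bs : List Wd) (hbs : E.IsBl bs) (v : List α) (b : Wd)
    (h : v.flatMap E.enc = bs.flatten ++ b) :
    ∃ u w2 : List α, v = u ++ w2 ∧ bs = u.map E.enc ∧ b = w2.flatMap E.enc := by
  induction bs generalizing v with
  | nil => exact ⟨[], v, rfl, rfl, by simpa using h.symm⟩
  | cons c bs ih =>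
    have hc : c.length = E.B := hbs c List.mem_cons_self
    rw [List.flatten_cons, List.append_assoc] at h
    cases v with
    | nil =>
      have h1 := congrArg List.length h
      rw [List.length_append, hc, List.flatMap_nil, List.length_nil] at h1
      have h2 := E.pos
      omega
    | cons l v =>
      rw [List.flatMap_cons] at h
      obtain ⟨h1, h2⟩ := List.append_inj h (by rw [E.len, hc])
      obtain ⟨u, w2, e1, e2, e3⟩ := ih (fun d hd => hbs d (List.mem_cons_of_mem _ hd)) v h2
      exact ⟨l :: u, w2, by rw [e1, List.cons_append], by rw [List.map_cons, e2, h1], e3⟩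

theorem Enc.flatten_length (bs : List Wd) (h : E.IsBl bs) :
    bs.flatten.length = E.B * bs.length := by
  induction bs with
  | nil => rfl
  | cons b bs ih =>
    rw [List.flatten_cons, List.length_append, h b List.mem_cons_self,
      ih fun c hc => h c (List.mem_cons_of_mem _ hc), List.length_cons]
    ring

/-- The blocks around a letter of a code word are code blocks.

Proof. `sync` for the letter `l` and `split` (the length of `bs.flatten` is a multiple of `B`);
then the blocks of `bs` are the blocks of a segment of `w` (`split` again, induction on `bs`). -/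
theorem Enc.blocks (w : List α) (a b : Wd) (bs cs : List Wd) (l : α) (hbs : E.IsBl bs)
    (hcs : E.IsBl cs) (h : w.flatMap E.enc = a ++ (bs.flatten ++ E.enc l ++ cs.flatten) ++ b) :
    ∃ w1 u v w2 : List α, w = w1 ++ (u ++ l :: v) ++ w2 ∧ bs = u.map E.enc ∧ cs = v.map E.enc ∧
      a = w1.flatMap E.enc ∧ b = w2.flatMap E.enc := by
  have h1 : E.B ∣ (a ++ bs.flatten).length := by
    refine E.sync w _ (cs.flatten ++ b) l ?_
    rw [h]
    simp only [List.append_assoc]
  rw [List.length_append, E.flatten_length bs hbs] at h1
  have ha : E.B ∣ a.length := (Nat.dvd_add_left (dvd_mul_right _ _)).1 h1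
  obtain ⟨w1, v', e1, e2, e3⟩ := E.split w a (bs.flatten ++ ((E.enc l :: cs).flatten ++ b))
    (by rw [h, List.flatten_cons]; simp only [List.append_assoc]) ha
  obtain ⟨u, v'', f1, f2, f3⟩ := E.segs bs hbs v' _ e3.symm
  obtain ⟨u'', w2, g1, g2, g3⟩ := E.segs (E.enc l :: cs) (by
    intro c hc
    rcases List.mem_cons.1 hc with rfl | hc
    · exact E.len l
    · exact hcs c hc) v'' b f3.symm
  cases u'' with
  | nil => simp at g2
  | cons l' v =>
    rw [List.map_cons, List.cons.injEq] at g2
    obtain rfl := E.inj g2.1
    refine ⟨w1, u, v, w2, ?_, f2, g2.2, e2, g3⟩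
    rw [e1, f1, g1]
    simp only [List.append_assoc, List.cons_append]

end Pool.Agent.W_59b51d_v18
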