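import Pool.Agent.W_59b51d_v18.LegA

/-!
# The legitimate zippers (LegB)
-/

namespace Pool.Agent.W_59b51d_v18

section

variable {Fl C : Type} [Fintype Fl] [DecidableEq Fl] (M : Mach Fl C)

namespace LegBAux

theorem cell_congr {f g : Fl → ℕ} {μ : Option (C × Finset Fl)} {y : ℕ} (h : lev f y = lev g y) :
    (cell f μ y : Lt Fl C) = cell g μ y := by
  unfold cell
  by_cases hy : y = 0
  · subst hy
    simp [h]
  · simp [hy, h]

theorem tops_congr {f g : Fl → ℕ} {μ : Option (C × Finset Fl)} {x : ℕ}
    (h : ∀ y < x, lev f y = lev g y) :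
    (tops f μ x : List (Lt Fl C)) = tops g μ x := by
  induction x with
  | zero => rfl
  | succ x ih =>
    rw [tops, tops, ih (fun y hy => h y (by omega)), cell_congr (h x (by omega))]

theorem deeps_congr {f g : Fl → ℕ} {μ : Option (C × Finset Fl)} {x n : ℕ}
    (h : ∀ y, x ≤ y → y ≤ n → lev f y = lev g y) :
    (deeps f μ x n : List (Lt Fl C)) = deeps g μ x n := by
  unfold deeps
  apply List.map_congr_left
  intro y hy
  rw [List.mem_range'_1] at hy
  exact cell_congr (h y (by omega) (by omega))

theorem deeps_cons (f : Fl → ℕ) (μ : Option (C × Finset Fl)) {x n : ℕ} (h : x ≤ n) :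
    (deeps f μ x n : List (Lt Fl C)) = cell f μ x :: deeps f μ (x + 1) n := by
  unfold deeps
  have e : n + 1 - x = (n + 1 - (x + 1)) + 1 := by omega
  rw [e, List.range'_succ, List.map_cons]

theorem deeps_nil (f : Fl → ℕ) (μ : Option (C × Finset Fl)) (n : ℕ) :
    (deeps f μ (n + 1) n : List (Lt Fl C)) = [] := by
  unfold deeps
  simp

theorem cell_pos {f : Fl → ℕ} {μ : Option (C × Finset Fl)} {y : ℕ} (h : y ≠ 0) :
    (cell f μ y : Lt Fl C) = .P (lev f y) := by simp [cell, h]

theorem cell_zero {f : Fl → ℕ} {μ : Option (C × Finset Fl)} :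
    (cell f μ 0 : Lt Fl C) = .B μ (lev f 0) := by simp [cell]

/-- the context condition of a zone -/
def ZW (LD LU : C → (Fl → ℕ) → Prop) (c : C) (f : Fl → ℕ) (μ : Option (C × Finset Fl))
    (T' D' : List (Lt Fl C)) : Prop :=
  (μ = none ∧ LU c f ∧ T' = [] ∧ ∃ j, D' = List.replicate j (.P ∅)) ∨
    ∃ c' S, μ = some (c', S) ∧ LD c f ∧
      Leg M LD LU T' (.A c' S) (List.replicate (f M.z + 1) (.P ∅) ++ D')

variable {M} {LD LU : C → (Fl → ℕ) → Prop}

theorem ZW.mk {c : C} {f : Fl → ℕ} {μ : Option (C × Finset Fl)} {x : ℕ}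
    {T' D' : List (Lt Fl C)} (h : ZW M LD LU c f μ T' D') (hv : Valid M f) (hx : x ≤ f M.z) :
    Leg M LD LU (tops f μ x ++ T') (hd c f x) (deeps f μ x (f M.z) ++ D') := by
  rcases h with ⟨h1, h2, h3, j, h4⟩ | ⟨c', S, h1, h2, h3⟩
  · subst h1 h3 h4
    rw [List.append_nil]
    exact Leg.base h2 hv hx
  · subst h1
    exact Leg.nest h2 hv hx h3

/-- a move of the machine preserves the context condition -/
theorem ZW.adj (hL : LegOK M LD LU) {c c' : C} {f f' : Fl → ℕ} {μ : Option (C × Finset Fl)}
    {T' D' : List (Lt Fl C)} (h : ZW M LD LU c f μ T' D') (hv : Valid M f)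
    (ha : Adj M c f c' f') (hz : f' M.z = f M.z) : ZW M LD LU c' f' μ T' D' := by
  rcases h with ⟨h1, h2, h3, j, h4⟩ | ⟨c1, S, h1, h2, h3⟩
  · exact Or.inl ⟨h1, (hL.uinv _ c f c' f' hv rfl ha).1 h2, h3, j, h4⟩
  · refine Or.inr ⟨c1, S, h1, (hL.dinv _ c f c' f' hv rfl ha).1 h2, ?_⟩
    rw [hz]
    exact h3

theorem replicate_tail {α : Type} {j : ℕ} {a b : α} {D : List α}
    (h : b :: D = List.replicate j a) : ∃ i, D = List.replicate i a := by
  cases j with
  | zero => simp at h
  | succ j =>
    rw [List.replicate_succ] at h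
    injection h with _ h
    exact ⟨j, h⟩

/-- the end marker moves -/
theorem ZW.zup (hL : LegOK M LD LU) {c : C} {f : Fl → ℕ} {μ : Option (C × Finset Fl)}
    {T' D' : List (Lt Fl C)} (h : ZW M LD LU c f μ T' (.P ∅ :: D')) (hv : Valid M f)
    (hc : c = M.d0 ∨ c = M.u0) :
    ZW M LD LU c (Function.update f M.z (f M.z + 1)) μ T' D' := by
  rcases h with ⟨h1, h2, h3, j, h4⟩ | ⟨c1, S, h1, h2, h3⟩
  · have hcu : c = M.u0 := by
      rcases hc with rfl | hc
      · have e1 := hL.uty _ _ h2
        rw [hL.tyd] at e1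
        exact absurd e1 (by simp)
      · exact hc
    subst hcu
    exact Or.inl ⟨h1, (hL.uz f hv).1 h2, h3, replicate_tail h4⟩
  · have hcd : c = M.d0 := by
      rcases hc with hc | rfl
      · exact hc
      · have e1 := hL.dty _ _ h2
        rw [hL.tyu] at e1
        exact absurd e1 (by simp)
    subst hcd
    refine Or.inr ⟨c1, S, h1, (hL.dz f hv).1 h2, ?_⟩
    have e : (List.replicate (Function.update f M.z (f M.z + 1) M.z + 1) (Lt.P ∅ : Lt Fl C) ++ D') =
        List.replicate (f M.z + 1) (.P ∅) ++ (.P ∅ :: D') := by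
      rw [Function.update_self, List.replicate_succ' (n := f M.z + 1), List.append_assoc]
      rfl
    rw [e]
    exact h3

theorem lev_inc_lo {f : Fl → ℕ} {i : Fl} {x y : ℕ} (hi : f i = x) (hy : y < x) :
    lev f y = lev (Function.update f i (f i + 1)) y := by
  ext j
  rw [mem_lev, mem_lev]
  by_cases hj : j = i
  · subst hj
    rw [Function.update_self]
    omega
  · rw [Function.update_of_ne hj]

theorem lev_inc_hi {f : Fl → ℕ} {i : Fl} {x y : ℕ} (hi : f i = x) (hy : x + 1 < y) :
    lev f y = lev (Function.update f i (f i + 1)) y := by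
  ext j
  rw [mem_lev, mem_lev]
  by_cases hj : j = i
  · subst hj
    rw [Function.update_self]
    omega
  · rw [Function.update_of_ne hj]

theorem lev_inc_at {f : Fl → ℕ} {i : Fl} {x : ℕ} (hi : f i = x) :
    lev (Function.update f i (f i + 1)) x = (lev f x).erase i := by
  ext j
  rw [Finset.mem_erase, mem_lev, mem_lev]
  by_cases hj : j = i
  · subst hj
    rw [Function.update_self]
    constructor
    · intro h
      omega
    · intro h
      exact absurd rfl h.1
  · rw [Function.update_of_ne hj]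
    simp [hj]

theorem lev_inc_succ {f : Fl → ℕ} {i : Fl} {x : ℕ} (hi : f i = x) :
    lev (Function.update f i (f i + 1)) (x + 1) = insert i (lev f (x + 1)) := by
  ext j
  rw [Finset.mem_insert, mem_lev, mem_lev]
  by_cases hj : j = i
  · subst hj
    rw [Function.update_self]
    simp [hi]
  · rw [Function.update_of_ne hj]
    simp [hj]

theorem sect_inc {f : Fl → ℕ} {i : Fl} {x : ℕ} (hi : f i = x) :
    sect (Function.update f i (f i + 1)) x = sect f x := by
  ext j
  rw [mem_sect, mem_sect]
  by_cases hj : j = i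
  · subst hj
    rw [Function.update_self]
    omega
  · rw [Function.update_of_ne hj]

theorem hd_inc {f : Fl → ℕ} {i : Fl} {x : ℕ} (c : C) (hi : f i = x) :
    (hd c (Function.update f i (f i + 1)) x : Lt Fl C) = hd c f x := by
  unfold hd
  rw [sect_inc hi]

theorem valid_inc {f : Fl → ℕ} {i : Fl} (hv : Valid M f) (hi : i ≠ M.z) (h : f i < f M.z) :
    Valid M (Function.update f i (f i + 1)) := by
  intro j
  rw [Function.update_of_ne (Ne.symm hi)]
  by_cases hj : j = i
  · subst hj
    rw [Function.update_self]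
    omega
  · rw [Function.update_of_ne hj]
    exact hv j

theorem valid_z {f : Fl → ℕ} (hv : Valid M f) :
    Valid M (Function.update f M.z (f M.z + 1)) := by
  intro j
  rw [Function.update_self]
  by_cases hj : j = M.z
  · subst hj
    rw [Function.update_self]
  · rw [Function.update_of_ne hj]
    have := hv j
    omega

/-- The general step `inc` on a zone. -/
theorem leg_inc (hL : LegOK M LD LU) {c c' : C} {f : Fl → ℕ} {μ : Option (C × Finset Fl)}
    {x : ℕ} {T' D' : List (Lt Fl C)} {i : Fl} (hw : ZW M LD LU c f μ T' D') (hv : Valid M f)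
    (hi : M.inc c c' i) (hz : i ≠ M.z) (hx : f i = x) (hxz : x < f M.z) :
    Leg M LD LU (tops f μ x ++ T') (hd c' f x)
      ((if x = 0 then .B μ ((lev f 0).erase i) else .P ((lev f x).erase i)) ::
        (.P (insert i (lev f (x + 1))) :: (deeps f μ (x + 2) (f M.z) ++ D'))) := by
  have hz' : Function.update f i (f i + 1) M.z = f M.z := Function.update_of_ne (Ne.symm hz) _ _
  have ha : Adj M c f c' (Function.update f i (f i + 1)) := Adj.inc hi hz (by omega)
  have hw' := hw.adj hL hv ha hz'
  have hl := hw'.mk (x := x) (valid_inc hv hz (by omega)) (by rw [hz']; omega)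
  rw [hz', hd_inc c' hx, ← tops_congr (fun y hy => lev_inc_lo hx hy),
    deeps_cons _ _ hxz.le, deeps_cons _ _ (show x + 1 ≤ f M.z by omega),
    ← deeps_congr (fun y h1 _ => lev_inc_hi hx (show x + 1 < y by omega)),
    cell_pos (show x + 1 ≠ 0 by omega), lev_inc_succ hx] at hl
  by_cases h0 : x = 0
  · rw [h0, cell_zero] at hl
    rw [h0] at hx
    rw [lev_inc_at hx] at hl
    simpa [h0] using hl
  · rw [cell_pos h0, lev_inc_at hx] at hl
    simpa [h0] using hl

/-- The general step `zm` on a zone. -/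
theorem leg_zm (hL : LegOK M LD LU) {c : C} {f : Fl → ℕ} {μ : Option (C × Finset Fl)}
    {T' D' : List (Lt Fl C)} (hw : ZW M LD LU c f μ T' (.P ∅ :: D')) (hv : Valid M f)
    (hc : c = M.d0 ∨ c = M.u0) :
    Leg M LD LU (tops f μ (f M.z) ++ T') (hd c f (f M.z))
      ((if f M.z = 0 then .B μ ((lev f 0).erase M.z) else .P ((lev f (f M.z)).erase M.z)) ::
        (.P {M.z} :: D')) := by
  have hw' := hw.zup hL hv hc
  have hz' : Function.update f M.z (f M.z + 1) M.z = f M.z + 1 := Function.update_self _ _ _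
  have hl := hw'.mk (x := f M.z) (valid_z hv) (by rw [hz']; omega)
  have he : insert M.z (lev f (f M.z + 1)) = ({M.z} : Finset Fl) := by
    ext j
    rw [Finset.mem_insert, mem_lev, Finset.mem_singleton]
    constructor
    · rintro (h | h)
      · exact h
      · have := hv j
        omega
    · intro h
      exact Or.inl h
  rw [hz', hd_inc c rfl, ← tops_congr (fun y hy => lev_inc_lo rfl hy),
    deeps_cons _ _ (show f M.z ≤ f M.z + 1 by omega), deeps_cons _ _ le_rfl, deeps_nil,
    cell_pos (show f M.z + 1 ≠ 0 by omega), lev_inc_succ rfl, he] at hl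
  by_cases h0 : f M.z = 0
  · have h1 : (cell (Function.update f M.z (f M.z + 1)) μ (f M.z) : Lt Fl C) =
        .B μ ((lev f 0).erase M.z) := by
      have e := lev_inc_at (f := f) (i := M.z) (x := 0) h0
      rw [← e]
      conv_lhs => rw [h0, cell_zero]
      rw [h0]
    rw [h1] at hl
    simpa [h0] using hl
  · rw [cell_pos h0, lev_inc_at rfl] at hl
    simpa [h0] using hl

theorem hd_A {c c1 : C} {f : Fl → ℕ} {x : ℕ} {S : Finset Fl}
    (h : (.A c S : Lt Fl C) = hd c1 f x) : x ≠ 0 ∧ c1 = c ∧ S = sect f x := by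
  unfold hd at h
  by_cases hx : x = 0
  · simp [hx] at h
  · simp only [hx, if_false] at h
    injection h with h1 h2
    exact ⟨hx, h1.symm, h2⟩

theorem hd_H {c c1 : C} {f : Fl → ℕ} {x : ℕ}
    (h : (.H c : Lt Fl C) = hd c1 f x) : x = 0 ∧ c1 = c := by
  unfold hd at h
  by_cases hx : x = 0
  · simp only [hx, if_true] at h
    injection h with h1
    exact ⟨hx, h1.symm⟩
  · simp [hx] at h

theorem hd_pos {c : C} {f : Fl → ℕ} {x : ℕ} (h : x ≠ 0) :
    (hd c f x : Lt Fl C) = .A c (sect f x) := by simp [hd, h]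

theorem hd_zero {c : C} {f : Fl → ℕ} : (hd c f 0 : Lt Fl C) = .H c := by simp [hd]

end LegBAux

variable {M} {LD LU : C → (Fl → ℕ) → Prop}

open LegBAux in
/-- The relations preserve legitimacy, first direction (all nine cases of `Loc`, `Leg.zone`). -/
theorem leg_loc (hL : LegOK M LD LU) {T0 D0 T1 D1 T D : List (Lt Fl C)} {h h' : Lt Fl C}
    (hloc : Loc M T0 h D0 T1 h' D1) (hl : Leg M LD LU (T0 ++ T) h (D0 ++ D)) :
    Leg M LD LU (T1 ++ T) h' (D1 ++ D) := by
  obtain ⟨c1, f, μ1, x, T', D', e1, e2, e3, hv, hx, hw⟩ := hl.zone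
  change ZW M LD LU c1 f μ1 T' D' at hw
  have hz : ∀ y, M.z ∈ lev f y ↔ f M.z = y := fun y => mem_lev
  rw [deeps_cons _ _ hx] at e3
  cases hloc with
  | @move c S φ hd0 hzφ =>
    obtain ⟨h0, rfl, rfl⟩ := hd_A e2
    rw [cell_pos h0] at e3
    simp only [List.nil_append, List.cons_append] at e1 e3 ⊢
    injection e3 with e3 e4
    injection e3 with e3
    subst e1 e3 e4
    have h2 : f M.z ≠ x := fun h => hzφ ((hz x).2 h)
    have := hw.mk (x := x + 1) hv (by omega)
    rw [tops, hd_pos (by omega), sect_succ, cell_pos h0] at this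
    exact this
  | @move0 c μ φ hzφ =>
    obtain ⟨rfl, rfl⟩ := hd_H e2
    rw [cell_zero] at e3
    simp only [List.nil_append, List.cons_append] at e1 e3 ⊢
    injection e3 with e3 e4
    injection e3 with e3 e5
    subst e1 e3 e4 e5
    have h2 : f M.z ≠ 0 := fun h => hzφ ((hz 0).2 h)
    have := hw.mk (x := 0 + 1) hv (by omega)
    rw [tops, hd_pos (by omega), sect_succ, cell_zero, sect_zero, Finset.empty_union] at this
    exact this
  | @inc c c' i S φ ψ hi hiz hiφ hzφ hiψ =>
    obtain ⟨h0, rfl, rfl⟩ := hd_A e2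
    simp only [List.nil_append, List.cons_append] at e1 e3 ⊢
    injection e3 with e3 e4
    rw [cell_pos h0] at e3
    injection e3 with e3
    subst e1 e3
    have h2 : f M.z ≠ x := fun h => hzφ ((hz x).2 h)
    rw [deeps_cons _ _ (show x + 1 ≤ f M.z by omega)] at e4
    simp only [List.cons_append] at e4
    injection e4 with e4 e5
    rw [cell_pos (by omega)] at e4
    injection e4 with e4
    subst e4 e5
    have := leg_inc hL hw hv hi hiz (mem_lev.1 hiφ) (by omega)
    rw [hd_pos h0] at this
    simpa [h0] using this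
  | @inc0 c c' i μ φ ψ hi hiz hiφ hzφ hiψ =>
    obtain ⟨rfl, rfl⟩ := hd_H e2
    simp only [List.nil_append, List.cons_append] at e1 e3 ⊢
    injection e3 with e3 e4
    rw [cell_zero] at e3
    injection e3 with e3 e6
    subst e1 e3 e6
    have h2 : f M.z ≠ 0 := fun h => hzφ ((hz 0).2 h)
    rw [deeps_cons _ _ (show 0 + 1 ≤ f M.z by omega)] at e4
    simp only [List.cons_append] at e4
    injection e4 with e4 e5
    rw [cell_pos (by omega)] at e4
    injection e4 with e4
    subst e4 e5
    have := leg_inc hL hw hv hi hiz (mem_lev.1 hiφ) (by omega)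
    rw [hd_zero] at this
    simpa [tops] using this
  | @tst c c' S φ ht =>
    obtain ⟨h0, rfl, rfl⟩ := hd_A e2
    rw [cell_pos h0] at e3
    simp only [List.nil_append, List.cons_append] at e1 e3 ⊢
    injection e3 with e3 e4
    injection e3 with e3
    subst e1 e3 e4
    have ha : Adj M c1 f c' f := Adj.tst hx (by simpa [h0] using ht)
    have := (hw.adj hL hv ha rfl).mk (x := x) hv hx
    rw [hd_pos h0, deeps_cons _ _ hx, cell_pos h0] at this
    simpa using this
  | @tst0 c c' μ φ ht =>
    obtain ⟨rfl, rfl⟩ := hd_H e2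
    rw [cell_zero] at e3
    simp only [List.nil_append, List.cons_append] at e1 e3 ⊢
    injection e3 with e3 e4
    injection e3 with e3 e5
    subst e1 e3 e4 e5
    have ha : Adj M c1 f c' f := Adj.tst hx (by simpa [sect_zero] using ht)
    have := (hw.adj hL hv ha rfl).mk (x := 0) hv hx
    rw [hd_zero, deeps_cons _ _ hx, cell_zero] at this
    simpa [tops] using this
  | @zm c S φ hc hzφ =>
    obtain ⟨h0, rfl, rfl⟩ := hd_A e2
    rw [cell_pos h0] at e3
    simp only [List.nil_append, List.cons_append] at e1 e3 ⊢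
    injection e3 with e3 e4
    injection e3 with e3
    subst e1 e3
    have h2 : f M.z = x := (hz x).1 hzφ
    subst h2
    rw [deeps_nil, List.nil_append] at e4
    subst e4
    have := leg_zm hL hw hv hc
    rw [hd_pos h0] at this
    simpa [h0] using this
  | @zm0 c μ φ hc hzφ =>
    obtain ⟨rfl, rfl⟩ := hd_H e2
    rw [cell_zero] at e3
    simp only [List.nil_append, List.cons_append] at e1 e3 ⊢
    injection e3 with e3 e4
    injection e3 with e3 e5
    subst e1 e3 e5
    have h2 : f M.z = 0 := (hz 0).1 hzφ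
    rw [h2, deeps_nil, List.nil_append] at e4
    subst e4
    have := leg_zm hL hw hv hc
    rw [h2, hd_zero] at this
    simpa [tops] using this
  | @new c S =>
    simp only [List.nil_append, List.cons_append] at hl ⊢
    have hv0 : Valid M (zeroAt M 0) := by
      intro i
      simp [zeroAt]
    have hz0 : zeroAt M 0 M.z = 0 := by simp [zeroAt]
    have h1 : Leg M LD LU T (.A c S) (List.replicate (zeroAt M 0 M.z + 1) (.P ∅) ++ D) := by
      rw [hz0]
      exact hl
    have := Leg.nest (x := 0) hL.dini hv0 (by rw [hz0]) h1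
    rw [hz0, hd_zero, deeps_cons _ _ le_rfl, deeps_nil, cell_zero] at this
    have e : lev (zeroAt M 0) 0 = Finset.univ := by
      ext i
      rw [mem_lev]
      simp [zeroAt]
    rw [e] at this
    exact this

end

end Pool.Agent.W_59b51d_v18
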