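import Pool.Agent.W_59b51d_v18.LegB

/-!
# The legitimate zippers (LegC)
-/

namespace Pool.Agent.W_59b51d_v18

section

variable {Fl C : Type} [Fintype Fl] [DecidableEq Fl] (M : Mach Fl C)

variable {M} {LD LU : C → (Fl → ℕ) → Prop}

namespace LegCAux

open LegBAux

/-- a move of the machine preserves the context condition, backwards -/
theorem ZW.adj' (hL : LegOK M LD LU) {c c' : C} {f f' : Fl → ℕ} {μ : Option (C × Finset Fl)}
    {T' D' : List (Lt Fl C)} (h : ZW M LD LU c' f' μ T' D') (hv : Valid M f)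
    (ha : Adj M c f c' f') (hz : f' M.z = f M.z) : ZW M LD LU c f μ T' D' := by
  rcases h with ⟨h1, h2, h3, j, h4⟩ | ⟨c1, S, h1, h2, h3⟩
  · exact Or.inl ⟨h1, (hL.uinv _ c f c' f' hv rfl ha).2 h2, h3, j, h4⟩
  · refine Or.inr ⟨c1, S, h1, (hL.dinv _ c f c' f' hv rfl ha).2 h2, ?_⟩
    rw [← hz]
    exact h3

/-- the end marker moves back -/
theorem ZW.zdown (hL : LegOK M LD LU) {c : C} {f : Fl → ℕ} {μ : Option (C × Finset Fl)}
    {T' D' : List (Lt Fl C)} (hv : Valid M f) (hc : c = M.d0 ∨ c = M.u0)
    (h : ZW M LD LU c (Function.update f M.z (f M.z + 1)) μ T' D') :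
    ZW M LD LU c f μ T' (.P ∅ :: D') := by
  rcases h with ⟨h1, h2, h3, j, h4⟩ | ⟨c1, S, h1, h2, h3⟩
  · have hcu : c = M.u0 := by
      rcases hc with rfl | hc
      · have e1 := hL.uty _ _ h2
        rw [hL.tyd] at e1
        exact absurd e1 (by simp)
      · exact hc
    subst hcu
    exact Or.inl ⟨h1, (hL.uz f hv).2 h2, h3, j + 1, by rw [h4, List.replicate_succ]⟩
  · have hcd : c = M.d0 := by
      rcases hc with hc | rfl
      · exact hc
      · have e1 := hL.dty _ _ h2
        rw [hL.tyu] at e1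
        exact absurd e1 (by simp)
    subst hcd
    refine Or.inr ⟨c1, S, h1, (hL.dz f hv).2 h2, ?_⟩
    have e : (List.replicate (Function.update f M.z (f M.z + 1) M.z + 1) (Lt.P ∅ : Lt Fl C) ++ D') =
        List.replicate (f M.z + 1) (.P ∅) ++ (.P ∅ :: D') := by
      rw [Function.update_self, List.replicate_succ' (n := f M.z + 1), List.append_assoc]
      rfl
    rw [← e]
    exact h3

theorem tops_P {f : Fl → ℕ} {μ : Option (C × Finset Fl)} {x : ℕ} {T T' : List (Lt Fl C)}
    {φ : Finset Fl} (hx : x ≠ 0) (h : (.P φ :: T : List (Lt Fl C)) = tops f μ x ++ T') :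
    ∃ y, x = y + 2 ∧ φ = lev f (y + 1) ∧ T = tops f μ (y + 1) ++ T' := by
  obtain ⟨y, rfl⟩ : ∃ y, x = y + 1 := ⟨x - 1, by omega⟩
  rw [tops, List.cons_append, List.cons.injEq] at h
  rcases Nat.eq_zero_or_pos y with rfl | hy
  · rw [cell_zero] at h
    exact absurd h.1 (by simp)
  · obtain ⟨y, rfl⟩ : ∃ z, y = z + 1 := ⟨y - 1, by omega⟩
    rw [cell_pos (by omega)] at h
    have h1 := h.1
    injection h1 with h1
    exact ⟨y, rfl, h1, h.2⟩

theorem tops_B {f : Fl → ℕ} {μ ν : Option (C × Finset Fl)} {x : ℕ} {T T' : List (Lt Fl C)}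
    {φ : Finset Fl} (hx : x ≠ 0) (h : (.B ν φ :: T : List (Lt Fl C)) = tops f μ x ++ T') :
    x = 1 ∧ ν = μ ∧ φ = lev f 0 ∧ T = T' := by
  obtain ⟨y, rfl⟩ : ∃ y, x = y + 1 := ⟨x - 1, by omega⟩
  rw [tops, List.cons_append, List.cons.injEq] at h
  rcases Nat.eq_zero_or_pos y with rfl | hy
  · rw [cell_zero] at h
    have h1 := h.1
    injection h1 with h1 h2
    exact ⟨rfl, h1, h2, by simpa [tops] using h.2⟩
  · rw [cell_pos (by omega)] at h
    exact absurd h.1 (by simp)

omit [Fintype Fl] in
/-- Undoing an increment: the state `g` with `f = update g i (g i + 1)`. -/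
theorem undo {f : Fl → ℕ} {i : Fl} {x : ℕ} (hi : f i = x + 1) :
    Function.update (Function.update f i x) i (Function.update f i x i + 1) = f := by
  rw [Function.update_self, Function.update_idem, ← hi, Function.update_eq_self]

theorem lev_undo_at {f : Fl → ℕ} {i : Fl} {x : ℕ} (hi : f i = x + 1) {φ : Finset Fl}
    (h : φ.erase i = lev f x) (hφ : i ∈ φ) : lev (Function.update f i x) x = φ := by
  ext j
  rw [mem_lev]
  by_cases hj : j = i
  · subst hj
    rw [Function.update_self]
    simp [hφ]
  · rw [Function.update_of_ne hj, ← mem_lev, ← h, Finset.mem_erase]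
    simp [hj]

theorem lev_undo_succ {f : Fl → ℕ} {i : Fl} {x : ℕ} {ψ : Finset Fl}
    (h : insert i ψ = lev f (x + 1)) (hψ : i ∉ ψ) :
    lev (Function.update f i x) (x + 1) = ψ := by
  ext j
  rw [mem_lev]
  by_cases hj : j = i
  · subst hj
    rw [Function.update_self]
    simp [hψ]
  · rw [Function.update_of_ne hj, ← mem_lev, ← h, Finset.mem_insert]
    simp [hj]

/-- The general backwards step `inc` on a zone. -/
theorem leg_dec (hL : LegOK M LD LU) {c c' : C} {f : Fl → ℕ} {μ : Option (C × Finset Fl)}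
    {x : ℕ} {T' D' : List (Lt Fl C)} {i : Fl} {φ ψ : Finset Fl}
    (hw : ZW M LD LU c' f μ T' D') (hv : Valid M f)
    (hi : M.inc c c' i) (hz : i ≠ M.z) (hxz : x + 1 ≤ f M.z) (hφ : φ.erase i = lev f x)
    (hψ : insert i ψ = lev f (x + 1)) (hiφ : i ∈ φ) (hiψ : i ∉ ψ) :
    Leg M LD LU (tops f μ x ++ T') (hd c f x)
      ((if x = 0 then .B μ φ else .P φ) ::
        (.P ψ :: (deeps f μ (x + 2) (f M.z) ++ D'))) := by
  have hfi : f i = x + 1 := by
    rw [← mem_lev, ← hψ]
    exact Finset.mem_insert_self _ _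
  obtain ⟨g, hg⟩ : ∃ g, g = Function.update f i x := ⟨_, rfl⟩
  have hgi : g i = x := by rw [hg, Function.update_self]
  have hgz : g M.z = f M.z := by rw [hg]; exact Function.update_of_ne (Ne.symm hz) _ _
  have hf : f = Function.update g i (g i + 1) := by rw [hg]; exact (undo hfi).symm
  have hvg : Valid M g := by
    intro j
    rw [hgz, hg]
    by_cases hj : j = i
    · subst hj
      rw [Function.update_self]
      omega
    · rw [Function.update_of_ne hj]
      exact hv j
  have ha : Adj M c g c' f := by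
    have := Adj.inc (M := M) (f := g) hi hz (by rw [hgi, hgz]; omega)
    rwa [← hf] at this
  have hw' := ZW.adj' hL hw hvg ha hgz.symm
  have hl := hw'.mk (x := x) hvg (by rw [hgz]; omega)
  have h1 : ∀ y < x, lev g y = lev f y := fun y hy => by
    rw [hf]
    exact lev_inc_lo hgi hy
  have h2 : ∀ y, x + 1 < y → lev g y = lev f y := fun y hy => by
    rw [hf]
    exact lev_inc_hi hgi hy
  have h3 : (hd c g x : Lt Fl C) = hd c f x := by
    rw [hf]
    exact (hd_inc c hgi).symm
  rw [hgz, h3, tops_congr h1, deeps_cons _ _ (show x ≤ f M.z by omega),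
    deeps_cons _ _ hxz, deeps_congr (fun y h1 _ => h2 y (by omega)),
    cell_pos (show x + 1 ≠ 0 by omega)] at hl
  have h4 : lev g (x + 1) = ψ := by rw [hg]; exact lev_undo_succ hψ hiψ
  have h5 : lev g x = φ := by rw [hg]; exact lev_undo_at hfi hφ hiφ
  rw [h4] at hl
  by_cases h0 : x = 0
  · rw [h0, cell_zero] at hl
    rw [h0] at h5
    rw [h5] at hl
    simpa [h0] using hl
  · rw [cell_pos h0, h5] at hl
    simpa [h0] using hl

/-- The general backwards step `zm` on a zone. -/
theorem leg_zd (hL : LegOK M LD LU) {c : C} {f : Fl → ℕ} {μ : Option (C × Finset Fl)}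
    {x : ℕ} {T' D' : List (Lt Fl C)} {φ : Finset Fl} (hw : ZW M LD LU c f μ T' D')
    (hv : Valid M f) (hc : c = M.d0 ∨ c = M.u0) (hxz : f M.z = x + 1)
    (hφ : φ.erase M.z = lev f x) (hψ : ({M.z} : Finset Fl) = lev f (x + 1)) (hzφ : M.z ∈ φ) :
    Leg M LD LU (tops f μ x ++ T') (hd c f x)
      ((if x = 0 then .B μ φ else .P φ) :: (.P ∅ :: D')) := by
  obtain ⟨g, hg⟩ : ∃ g, g = Function.update f M.z x := ⟨_, rfl⟩
  have hgz : g M.z = x := by rw [hg, Function.update_self]
  have hf : f = Function.update g M.z (g M.z + 1) := by rw [hg]; exact (undo hxz).symm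
  have hvg : Valid M g := by
    intro j
    rw [hgz, hg]
    by_cases hj : j = M.z
    · subst hj
      rw [Function.update_self]
    · rw [Function.update_of_ne hj]
      have h1 := hv j
      have h2 : f j ≠ x + 1 := by
        intro h
        rw [← mem_lev, ← hψ, Finset.mem_singleton] at h
        exact hj h
      omega
  have hw' : ZW M LD LU c g μ T' (.P ∅ :: D') := by
    refine ZW.zdown hL hvg hc ?_
    rw [← hf]
    exact hw
  have hl := hw'.mk (x := x) hvg (by rw [hgz])
  have h1 : ∀ y < x, lev g y = lev f y := fun y hy => by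
    rw [hf]
    exact lev_inc_lo hgz hy
  have h3 : (hd c g x : Lt Fl C) = hd c f x := by
    rw [hf]
    exact (hd_inc c hgz).symm
  have h5 : lev g x = φ := by rw [hg]; exact lev_undo_at hxz hφ hzφ
  rw [hgz, h3, tops_congr h1, deeps_cons _ _ (le_refl x), deeps_nil] at hl
  by_cases h0 : x = 0
  · rw [h0, cell_zero] at hl
    rw [h0] at h5
    rw [h5] at hl
    simpa [h0] using hl
  · rw [cell_pos h0, h5] at hl
    simpa [h0] using hl

end LegCAux

open LegBAux LegCAux in
/-- The relations preserve legitimacy, second direction. -/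
theorem leg_loc' (hL : LegOK M LD LU) {T0 D0 T1 D1 T D : List (Lt Fl C)} {h h' : Lt Fl C}
    (hloc : Loc M T0 h D0 T1 h' D1) (hl : Leg M LD LU (T1 ++ T) h' (D1 ++ D)) :
    Leg M LD LU (T0 ++ T) h (D0 ++ D) := by
  obtain ⟨c1, f, μ1, x, T', D', e1, e2, e3, hv, hx, hw⟩ := hl.zone
  change ZW M LD LU c1 f μ1 T' D' at hw
  have hz : ∀ y, M.z ∈ lev f y ↔ f M.z = y := fun y => mem_lev
  cases hloc with
  | @move c S φ hd0 hzφ =>
    obtain ⟨h0, rfl, h1⟩ := hd_A e2
    simp only [List.nil_append, List.cons_append] at e1 e3 ⊢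
    obtain ⟨y, rfl, rfl, rfl⟩ := tops_P h0 e1
    have hS : S = sect f (y + 1) := by
      rw [show y + 2 = (y + 1) + 1 by rfl, sect_succ] at h1
      ext i
      have h2 := Finset.ext_iff.1 h1 i
      rw [Finset.mem_union, Finset.mem_union] at h2
      have h3 : i ∈ lev f (y + 1) → i ∉ S := fun h => Finset.disjoint_left.1 hd0 h
      have h4 : i ∈ lev f (y + 1) → i ∉ sect f (y + 1) := by
        rw [mem_lev, mem_sect]
        omega
      tauto
    have := hw.mk (x := y + 1) hv (by omega)
    rw [hd_pos (by omega), deeps_cons _ _ (show y + 1 ≤ f M.z by omega), cell_pos (by omega),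
      ← hS, List.cons_append, ← e3] at this
    exact this
  | @move0 c μ φ hzφ =>
    obtain ⟨h0, rfl, h1⟩ := hd_A e2
    simp only [List.nil_append, List.cons_append] at e1 e3 ⊢
    obtain ⟨rfl, rfl, rfl, rfl⟩ := tops_B h0 e1
    have := hw.mk (x := 0) hv (by omega)
    rw [hd_zero, deeps_cons _ _ (show 0 ≤ f M.z by omega), cell_zero, List.cons_append,
      ← e3] at this
    simpa [tops] using this
  | @inc c c' i S φ ψ hi hiz hiφ hzφ hiψ =>
    obtain ⟨h0, rfl, rfl⟩ := hd_A e2
    rw [deeps_cons _ _ hx, cell_pos h0] at e3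
    simp only [List.nil_append, List.cons_append] at e1 e3 ⊢
    injection e3 with e3 e4
    injection e3 with e3
    subst e1
    have h2 : f M.z ≠ x := fun h => hzφ (Finset.mem_of_mem_erase (by rw [e3]; exact (hz x).2 h))
    rw [deeps_cons _ _ (show x + 1 ≤ f M.z by omega), cell_pos (by omega)] at e4
    simp only [List.cons_append] at e4
    injection e4 with e4 e5
    injection e4 with e4
    subst e5
    have := leg_dec hL hw hv hi hiz (by omega) e3 e4 hiφ hiψ
    rw [hd_pos h0] at this
    simpa [h0] using this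
  | @inc0 c c' i μ φ ψ hi hiz hiφ hzφ hiψ =>
    obtain ⟨rfl, rfl⟩ := hd_H e2
    rw [deeps_cons _ _ hx, cell_zero] at e3
    simp only [List.nil_append, List.cons_append] at e1 e3 ⊢
    injection e3 with e3 e4
    injection e3 with e3 e6
    subst e1 e3
    have h2 : f M.z ≠ 0 := fun h => hzφ (Finset.mem_of_mem_erase (by rw [e6]; exact (hz 0).2 h))
    rw [deeps_cons _ _ (show 0 + 1 ≤ f M.z by omega), cell_pos (by omega)] at e4
    simp only [List.cons_append] at e4
    injection e4 with e4 e5
    injection e4 with e4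
    subst e5
    have := leg_dec hL hw hv hi hiz (by omega) e6 e4 hiφ hiψ
    rw [hd_zero] at this
    simpa [tops] using this
  | @tst c c' S φ ht =>
    obtain ⟨h0, rfl, rfl⟩ := hd_A e2
    rw [deeps_cons _ _ hx, cell_pos h0] at e3
    simp only [List.nil_append, List.cons_append] at e1 e3 ⊢
    injection e3 with e3 e4
    injection e3 with e3
    subst e1 e3 e4
    have ha : Adj M c f c1 f := Adj.tst hx (by simpa [h0] using ht)
    have := (ZW.adj' hL hw hv ha rfl).mk (x := x) hv hx
    rw [hd_pos h0, deeps_cons _ _ hx, cell_pos h0] at this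
    simpa using this
  | @tst0 c c' μ φ ht =>
    obtain ⟨rfl, rfl⟩ := hd_H e2
    rw [deeps_cons _ _ hx, cell_zero] at e3
    simp only [List.nil_append, List.cons_append] at e1 e3 ⊢
    injection e3 with e3 e4
    injection e3 with e3 e5
    subst e1 e3 e4 e5
    have ha : Adj M c f c1 f := Adj.tst hx (by simpa [sect_zero] using ht)
    have := (ZW.adj' hL hw hv ha rfl).mk (x := 0) hv hx
    rw [hd_zero, deeps_cons _ _ hx, cell_zero] at this
    simpa [tops] using this
  | @zm c S φ hc hzφ =>
    obtain ⟨h0, rfl, rfl⟩ := hd_A e2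
    rw [deeps_cons _ _ hx, cell_pos h0] at e3
    simp only [List.nil_append, List.cons_append] at e1 e3 ⊢
    injection e3 with e3 e4
    injection e3 with e3
    subst e1
    have h2 : f M.z ≠ x := fun h => by
      have := (hz x).2 h
      rw [← e3] at this
      simp at this
    rw [deeps_cons _ _ (show x + 1 ≤ f M.z by omega), cell_pos (by omega)] at e4
    simp only [List.cons_append] at e4
    injection e4 with e4 e5
    injection e4 with e4
    have h3 : f M.z = x + 1 := by
      rw [← hz, ← e4]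
      simp
    rw [h3, deeps_nil, List.nil_append] at e5
    subst e5
    have := leg_zd hL hw hv hc h3 e3 e4 hzφ
    rw [hd_pos h0] at this
    simpa [h0] using this
  | @zm0 c μ φ hc hzφ =>
    obtain ⟨rfl, rfl⟩ := hd_H e2
    rw [deeps_cons _ _ hx, cell_zero] at e3
    simp only [List.nil_append, List.cons_append] at e1 e3 ⊢
    injection e3 with e3 e4
    injection e3 with e3 e6
    subst e1 e3
    have h2 : f M.z ≠ 0 := fun h => by
      have := (hz 0).2 h
      rw [← e6] at this
      simp at this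
    rw [deeps_cons _ _ (show 0 + 1 ≤ f M.z by omega), cell_pos (by omega)] at e4
    simp only [List.cons_append] at e4
    injection e4 with e4 e5
    injection e4 with e4
    have h3 : f M.z = 0 + 1 := by
      rw [← hz, ← e4]
      simp
    rw [h3, deeps_nil, List.nil_append] at e5
    subst e5
    have := leg_zd hL hw hv hc h3 e6 e4 hzφ
    rw [hd_zero] at this
    simpa [tops] using this
  | @new c S =>
    obtain ⟨rfl, h1⟩ := hd_H e2
    rw [deeps_cons _ _ hx, cell_zero] at e3
    simp only [List.nil_append, List.cons_append] at e1 e3 ⊢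
    injection e3 with e3 e4
    injection e3 with e3 e6
    have h2 : f M.z = 0 := by
      rw [← hz, ← e6]
      simp
    rw [h2, deeps_nil, List.nil_append] at e4
    subst e4
    have e5 : T = T' := by simpa [tops] using e1
    subst e5
    rcases hw with ⟨h3, -⟩ | ⟨c2, S2, h3, -, h4⟩
    · rw [← e3] at h3
      exact absurd h3 (by simp)
    · rw [← e3] at h3
      simp only [Option.some.injEq, Prod.mk.injEq] at h3
      obtain ⟨rfl, rfl⟩ := h3
      rw [h2] at h4
      exact h4

end

end Pool.Agent.W_59b51d_v18
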