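import Pool.Agent.W_59b51d_v18.LegC

/-!
# The legitimate zippers (LegD)
-/

namespace Pool.Agent.W_59b51d_v18

section

variable {Fl C : Type} [Fintype Fl] [DecidableEq Fl] (M : Mach Fl C)

variable {M} {LD LU : C → (Fl → ℕ) → Prop}

namespace LegDAux

theorem map_nil' {α : Type} {D : List α} (h : D.map some = []) : D = [] :=
  List.map_eq_nil_iff.1 h

theorem map_one {α : Type} {D : List α} {o : Option α} (h : D.map some = [o]) :
    ∃ l, D = [l] ∧ o = some l := by
  match D, h with
  | [l], h =>
    simp only [List.map_cons, List.map_nil, List.cons.injEq, and_true] at h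
    exact ⟨l, rfl, h.symm⟩

theorem map_two {α : Type} {D : List α} {o o' : Option α} (h : D.map some = [o, o']) :
    ∃ l l', D = [l, l'] ∧ o = some l ∧ o' = some l' := by
  match D, h with
  | [l, l'], h =>
    simp only [List.map_cons, List.map_nil, List.cons.injEq, and_true] at h
    exact ⟨l, l', rfl, h.1.symm, h.2.symm⟩

open LegBAux in
theorem ZW.okty (hL : LegOK M LD LU) {c : C} {f : Fl → ℕ} {μ : Option (C × Finset Fl)}
    {T' D' : List (Lt Fl C)} (h : ZW M LD LU c f μ T' D') : okty M c μ := by
  rcases h with ⟨h1, h2, -⟩ | ⟨c1, S, h1, h2, -⟩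
  · subst h1
    have e1 := hL.uty _ _ h2
    unfold Pool.Agent.W_59b51d_v18.okty
    rw [e1]
    simp
  · subst h1
    have e1 := hL.dty _ _ h2
    unfold Pool.Agent.W_59b51d_v18.okty
    rw [e1]
    simp

open LegBAux in
theorem ZW.not_kil (hL : LegOK M LD LU) {c : C} {f : Fl → ℕ} {μ : Option (C × Finset Fl)}
    {T' D' : List (Lt Fl C)} (h : ZW M LD LU c f μ T' D') (hv : Valid M f) : ¬ Killed M c f := by
  rcases h with ⟨h1, h2, -⟩ | ⟨c1, S, h1, h2, -⟩
  · exact hL.ukil _ _ hv h2
  · exact hL.dkil _ _ hv h2

open LegBAux in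
theorem ZW.blank (hL : LegOK M LD LU) {f : Fl → ℕ} {μ : Option (C × Finset Fl)}
    {T' D' D : List (Lt Fl C)} {l : Lt Fl C} (h : ZW M LD LU M.u0 f μ T' D')
    (hD : D' = l :: D) : l = .P ∅ := by
  rcases h with ⟨-, -, -, j, h4⟩ | ⟨c1, S, h1, h2, -⟩
  · rw [hD] at h4
    have : l ∈ List.replicate j (Lt.P ∅ : Lt Fl C) := by
      rw [← h4]
      exact List.mem_cons_self
    exact List.eq_of_mem_replicate this
  · have e1 := hL.dty _ _ h2
    rw [hL.tyu] at e1
    exact absurd e1 (by simp)

end LegDAux

open LegBAux LegCAux LegDAux in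
/-- Legitimate zippers contain no zero situation. -/
theorem leg_not_zero (hL : LegOK M LD LU) {T0 D0 T D : List (Lt Fl C)} {h : Lt Fl C}
    (hz : LocZ M (T0.map some) h (D0.map some)) : ¬ Leg M LD LU (T0 ++ T) h (D0 ++ D) := by
  intro hl
  obtain ⟨c1, f, μ1, x, T', D', e1, e2, e3, hv, hx, hw⟩ := hl.zone
  change ZW M LD LU c1 f μ1 T' D' at hw
  generalize hT : T0.map some = T0' at hz
  generalize hD : D0.map some = D0' at hz
  have hzl : ∀ y, M.z ∈ lev f y ↔ f M.z = y := fun y => mem_lev
  have huniv : f M.z = x → sect f x ∪ lev f x = Finset.univ := by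
    intro hh
    ext i
    rw [Finset.mem_union, mem_sect, mem_lev]
    have := hv i
    simp only [Finset.mem_univ, iff_true]
    omega
  rw [deeps_cons _ _ hx] at e3
  cases hz
  next c S φ hd0 =>
    obtain rfl := map_nil' hT
    obtain ⟨l, rfl, hl0⟩ := map_one hD
    injection hl0 with hl0
    subst hl0
    obtain ⟨h0, rfl, rfl⟩ := hd_A e2
    rw [cell_pos h0] at e3
    simp only [List.nil_append, List.cons_append] at e3
    injection e3 with e3 e4
    injection e3 with e3
    subst e3
    apply hd0
    rw [Finset.disjoint_left]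
    intro i h1 h2
    rw [mem_lev] at h1
    rw [mem_sect] at h2
    omega
  next c S φ hzφ hne =>
    obtain rfl := map_nil' hT
    obtain ⟨l, rfl, hl0⟩ := map_one hD
    injection hl0 with hl0
    subst hl0
    obtain ⟨h0, rfl, rfl⟩ := hd_A e2
    rw [cell_pos h0] at e3
    simp only [List.nil_append, List.cons_append] at e3
    injection e3 with e3 e4
    injection e3 with e3
    subst e3
    exact hne (huniv ((hzl x).1 hzφ))
  next c S l hne =>
    obtain rfl := map_nil' hT
    obtain ⟨l', rfl, hl0⟩ := map_one hD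
    subst hl0
    obtain ⟨h0, rfl, rfl⟩ := hd_A e2
    rw [cell_pos h0] at e3
    simp only [List.nil_append, List.cons_append] at e3
    injection e3 with e3 e4
    exact hne _ (by rw [e3])
  next c S φ hh =>
    obtain ⟨l, rfl, hl0⟩ := map_one hT
    injection hl0 with hl0
    subst hl0
    obtain rfl := map_nil' hD
    obtain ⟨h0, rfl, rfl⟩ := hd_A e2
    simp only [List.nil_append, List.cons_append] at e1
    obtain ⟨y, rfl, rfl, -⟩ := tops_P h0 e1
    rcases hh with hh | hh
    · apply hh
      intro i hi
      rw [mem_lev] at hi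
      rw [mem_sect]
      omega
    · rw [hzl] at hh
      omega
  next c S φ μ hh =>
    obtain ⟨l, rfl, hl0⟩ := map_one hT
    injection hl0 with hl0
    subst hl0
    obtain rfl := map_nil' hD
    obtain ⟨h0, rfl, rfl⟩ := hd_A e2
    simp only [List.nil_append, List.cons_append] at e1
    obtain ⟨rfl, rfl, rfl, -⟩ := tops_B h0 e1
    rcases hh with hh | hh | hh
    · apply hh
      ext i
      rw [mem_lev, mem_sect]
      omega
    · rw [hzl] at hh
      omega
    · exact hh (ZW.okty hL hw)
  next c S l hP hB =>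
    obtain ⟨l', rfl, hl0⟩ := map_one hT
    subst hl0
    obtain rfl := map_nil' hD
    obtain ⟨h0, rfl, rfl⟩ := hd_A e2
    simp only [List.nil_append, List.cons_append] at e1
    obtain ⟨y, rfl⟩ : ∃ y, x = y + 1 := ⟨x - 1, by omega⟩
    rw [tops, List.cons_append, List.cons.injEq] at e1
    by_cases hy : y = 0
    · rw [hy, cell_zero] at e1
      exact hB _ _ (by rw [e1.1])
    · rw [cell_pos hy] at e1
      exact hP _ (by rw [e1.1])
  next c l hB =>
    obtain rfl := map_nil' hT
    obtain ⟨l', rfl, hl0⟩ := map_one hD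
    subst hl0
    obtain ⟨rfl, rfl⟩ := hd_H e2
    rw [cell_zero] at e3
    simp only [List.nil_append, List.cons_append] at e3
    injection e3 with e3 e4
    exact hB _ _ (by rw [e3])
  next c μ φ hh =>
    obtain rfl := map_nil' hT
    obtain ⟨l, rfl, hl0⟩ := map_one hD
    injection hl0 with hl0
    subst hl0
    obtain ⟨rfl, rfl⟩ := hd_H e2
    rw [cell_zero] at e3
    simp only [List.nil_append, List.cons_append] at e3
    injection e3 with e3 e4
    injection e3 with e3 e5
    subst e3 e5
    rcases hh with hh | ⟨h1, h2⟩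
    · exact hh (ZW.okty hL hw)
    · apply h2
      have := huniv ((hzl 0).1 h1)
      rwa [sect_zero, Finset.empty_union] at this
  next c S φ hk =>
    obtain rfl := map_nil' hT
    obtain ⟨l, rfl, hl0⟩ := map_one hD
    injection hl0 with hl0
    subst hl0
    obtain ⟨h0, rfl, rfl⟩ := hd_A e2
    rw [cell_pos h0] at e3
    simp only [List.nil_append, List.cons_append] at e3
    injection e3 with e3 e4
    injection e3 with e3
    subst e3
    exact ZW.not_kil hL hw hv ⟨x, hx, by simpa [h0] using hk⟩
  next c μ φ hk =>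
    obtain rfl := map_nil' hT
    obtain ⟨l, rfl, hl0⟩ := map_one hD
    injection hl0 with hl0
    subst hl0
    obtain ⟨rfl, rfl⟩ := hd_H e2
    rw [cell_zero] at e3
    simp only [List.nil_append, List.cons_append] at e3
    injection e3 with e3 e4
    injection e3 with e3 e5
    subst e3 e5
    exact ZW.not_kil hL hw hv ⟨0, hx, by simpa [sect_zero] using hk⟩
  next S φ l hzφ hne =>
    obtain rfl := map_nil' hT
    obtain ⟨l1, l2, rfl, hl0, hl1⟩ := map_two hD
    injection hl0 with hl0
    subst hl0 hl1
    obtain ⟨h0, rfl, rfl⟩ := hd_A e2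
    rw [cell_pos h0] at e3
    simp only [List.nil_append, List.cons_append] at e3
    injection e3 with e3 e4
    injection e3 with e3
    subst e3
    have h3 := (hzl x).1 hzφ
    rw [h3, deeps_nil, List.nil_append] at e4
    exact hne (by rw [ZW.blank hL hw e4.symm])
  next φ μ l hzφ hne =>
    obtain rfl := map_nil' hT
    obtain ⟨l1, l2, rfl, hl0, hl1⟩ := map_two hD
    injection hl0 with hl0
    subst hl0 hl1
    obtain ⟨rfl, h0⟩ := hd_H e2
    rw [cell_zero] at e3
    simp only [List.nil_append, List.cons_append] at e3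
    injection e3 with e3 e4
    injection e3 with e3 e5
    subst e3 e5 h0
    have h3 := (hzl 0).1 hzφ
    rw [h3, deeps_nil, List.nil_append] at e4
    exact hne (by rw [ZW.blank hL hw e4.symm])

end

end Pool.Agent.W_59b51d_v18
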