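import Pool.Agent.W_59b51d_v18.LegD
import Pool.Agent.W_59b51d_v18.ZoneA

/-!
# The legitimate zippers contain no pattern
-/

namespace Pool.Agent.W_59b51d_v18

section

variable {Fl C : Type} [Fintype Fl] [DecidableEq Fl] {M : Mach Fl C}
  {LD LU : C → (Fl → ℕ) → Prop}

/-- Cells without `z` on the deep side are cells of the zone. -/
theorem legE_walk {f : Fl → ℕ} {μ : Option (C × Finset Fl)} {ψ : Finset Fl}
    {D' : List (Lt Fl C)} (ls : List (Finset Fl)) :
    ∀ (x : ℕ) (D : List (Lt Fl C)), x ≠ 0 → x ≤ f M.z → (∀ φ ∈ ls, M.z ∉ φ) →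
      (ls.map Lt.P ++ [Lt.P ψ]) ++ D = deeps f μ x (f M.z) ++ D' →
      x + ls.length ≤ f M.z ∧ (∀ i < ls.length, lev f (x + i) = ls.getD i ∅) ∧
        lev f (x + ls.length) = ψ := by
  induction ls with
  | nil =>
    intro x D hx hxz _ e
    rw [deeps_cons f μ hxz, List.map_nil, List.nil_append, List.singleton_append,
      List.cons_append, List.cons.injEq] at e
    have h1 : (cell f μ x : Lt Fl C) = .P (lev f x) := by simp [cell, hx]
    rw [h1] at e
    have h2 : ψ = lev f x := by
      have := e.1
      injection this
    refine ⟨hxz, fun i hi => absurd hi (Nat.not_lt_zero _), ?_⟩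
    rw [List.length_nil, add_zero, h2]
  | cons φ ls ih =>
    intro x D hx hxz hls e
    rw [deeps_cons f μ hxz, List.map_cons, List.cons_append, List.cons_append,
      List.cons_append, List.cons.injEq] at e
    have h1 : (cell f μ x : Lt Fl C) = .P (lev f x) := by simp [cell, hx]
    rw [h1] at e
    have h2 : φ = lev f x := by
      have := e.1
      injection this
    have h3 : f M.z ≠ x := by
      intro h
      apply hls φ List.mem_cons_self
      rw [h2, mem_lev]
      exact h
    obtain ⟨g1, g2, g3⟩ := ih (x + 1) D (by omega) (by omega)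
      (fun φ' h' => hls φ' (List.mem_cons_of_mem _ h')) e.2
    rw [List.length_cons]
    refine ⟨by omega, ?_, ?_⟩
    · intro i hi
      cases i with
      | zero => rw [add_zero, List.getD_cons_zero, h2]
      | succ i =>
        rw [List.getD_cons_succ, ← g2 i (by omega)]
        congr 1
        omega
    · rw [← g3]
      congr 1
      omega

/-- Legitimate zippers contain no pattern. Proof. In the zone `(c, f)` of the head at `x > 0`:
`φ0` is the cell at `x < f z`, the next `k` cells are blank, hence cells of the zone (the last cell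
contains `z`), so the last letter of the pattern is the cell `x + k + 1` of the zone; this is
`Pat M k c f`. In the base zone the control state has the type `false`. -/
theorem leg_not_pat (hL : LegOK M LD LU) (hp : M.ty M.pass = true) {k : ℕ}
    (hk : ∀ c f, Valid M f → LD c f → ¬ Pat M k c f) {T0 D0 T D : List (Lt Fl C)} {h : Lt Fl C}
    (hz : LocP M k (T0.map some) h (D0.map some)) :
    ¬ Leg M LD LU (T0 ++ T) h (D0 ++ D) := by
  generalize hT : T0.map some = T0' at hz
  generalize hD : D0.map some = D0' at hz
  cases hz
  intro hl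
  have hD0 : D0 = (M.φ0 :: List.replicate k ∅).map Lt.P ++ [Lt.P M.ψ0] := by
    have h1 : D0.map some = ((M.φ0 :: List.replicate k ∅).map Lt.P ++
        [(Lt.P M.ψ0 : Lt Fl C)]).map some := by
      rw [hD]
      simp only [List.map_cons, List.map_append, List.map_replicate, List.map_nil,
        List.cons_append]
    exact (List.map_injective_iff.2 (Option.some_injective _)) h1
  obtain ⟨c, f, μ, x, T', D', -, e2, e3, hv, hx, h4⟩ := hl.zone
  have hx0 : x ≠ 0 := by
    rintro rfl
    rw [hd, if_pos rfl] at e2
    cases e2
  rw [hd, if_neg hx0] at e2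
  injection e2 with e4 e5
  subst e4
  rcases h4 with ⟨-, h5, -, -⟩ | ⟨c', S, -, h5, -⟩
  · have := hL.uty _ _ h5
    rw [hp] at this
    cases this
  · rw [hD0] at e3
    obtain ⟨g1, g2, g3⟩ := legE_walk (M.φ0 :: List.replicate k ∅) x D hx0 hx (by
      intro φ hφ
      rcases List.mem_cons.1 hφ with rfl | hφ
      · exact hL.zφ
      · rw [List.eq_of_mem_replicate hφ]
        simp) e3
    rw [List.length_cons, List.length_replicate] at g1 g2 g3
    refine hk _ _ hv h5 ⟨rfl, x, by omega, by omega, e5.symm, ?_, ?_, ?_⟩
    · have := g2 0 (by omega)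
      rwa [add_zero, List.getD_cons_zero] at this
    · intro y hy1 hy2
      obtain ⟨i, rfl⟩ : ∃ i, y = x + (i + 1) := ⟨y - x - 1, by omega⟩
      rw [g2 (i + 1) (by omega), List.getD_cons_succ]
      rw [List.getD_eq_getElem _ _ (by rw [List.length_replicate]; omega),
        List.getElem_replicate]
    · rw [← g3]
      congr 1

end

end Pool.Agent.W_59b51d_v18
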