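import Mathlib

/-!
# Abstract reversible flag machines

A machine has finitely many flags `Fl` and control states `C`. A state is a control state `c` and a
position `f i : ℕ` for every flag `i`; the flag `z` marks the end of the space: `f i ≤ f z`.
-/

namespace Pool.Agent.W_59b51d_v18

/-- The data of a flag machine. `z` is the end marker, `S0`, `φ0`, `ψ0` are the sets of flags of the
final pattern, `d0`, `u0` are the start states of the two types, `pass` the final state, `ty` the
type of a control state (`true` for nested zones, `false` for the base zone). `inc c c' i` : the flag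
`i` may be moved from `x` to `x + 1` while `c` changes to `c'` (and back). `tst c c' h S φ` : `c` may
be changed to `c'` (and back) at a position `x`, where `h` says whether `x = 0`, `S` is the set of
the flags at positions `< x` and `φ` is the set of the flags at `x`. `kil c h S φ` : the state is
killed. -/
structure Mach (Fl C : Type) where
  z : Fl
  S0 : Finset Fl
  φ0 : Finset Fl
  ψ0 : Finset Fl
  d0 : C
  u0 : C
  pass : C
  ty : C → Bool
  inc : C → C → Fl → Prop
  tst : C → C → Bool → Finset Fl → Finset Fl → Prop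
  kil : C → Bool → Finset Fl → Finset Fl → Prop

section

variable {Fl C : Type} [Fintype Fl] [DecidableEq Fl]

/-- The flags at positions `< x`. -/
def sect (f : Fl → ℕ) (x : ℕ) : Finset Fl := Finset.univ.filter fun i => f i < x

/-- The flags at `x`. -/
def lev (f : Fl → ℕ) (x : ℕ) : Finset Fl := Finset.univ.filter fun i => f i = x

theorem mem_sect {f : Fl → ℕ} {x : ℕ} {i : Fl} : i ∈ sect f x ↔ f i < x := by simp [sect]

theorem mem_lev {f : Fl → ℕ} {x : ℕ} {i : Fl} : i ∈ lev f x ↔ f i = x := by simp [lev]

theorem sect_zero (f : Fl → ℕ) : sect f 0 = ∅ := by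
  ext i; simp [sect]

theorem sect_succ (f : Fl → ℕ) (x : ℕ) : sect f (x + 1) = sect f x ∪ lev f x := by
  ext i; simp only [mem_sect, Finset.mem_union, mem_lev]; omega

variable (M : Mach Fl C)

/-- One move of the machine. -/
inductive Adj : C → (Fl → ℕ) → C → (Fl → ℕ) → Prop
  | inc {c c' : C} {i : Fl} {f : Fl → ℕ} : M.inc c c' i → i ≠ M.z → f i < f M.z →
      Adj c f c' (Function.update f i (f i + 1))
  | tst {c c' : C} {f : Fl → ℕ} {x : ℕ} : x ≤ f M.z →
      M.tst c c' (decide (x = 0)) (sect f x) (lev f x) → Adj c f c' f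

/-- The state is killed at some position. -/
def Killed (c : C) (f : Fl → ℕ) : Prop :=
  ∃ x ≤ f M.z, M.kil c (decide (x = 0)) (sect f x) (lev f x)

/-- The final pattern with distance `k + 1`: at a position `x > 0` there are the flags `φ0`, before
it the flags `S0`, at `x + k + 1` the flags `ψ0` and no flag is strictly between. -/
def Pat (k : ℕ) (c : C) (f : Fl → ℕ) : Prop :=
  c = M.pass ∧ ∃ x, 0 < x ∧ x + k + 1 ≤ f M.z ∧ sect f x = M.S0 ∧ lev f x = M.φ0 ∧
    (∀ y, x < y → y < x + k + 1 → lev f y = ∅) ∧ lev f (x + k + 1) = M.ψ0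

/-- All flags are inside the space. -/
def Valid (f : Fl → ℕ) : Prop := ∀ i, f i ≤ f M.z

/-- A predicate on the states with end marker at `n` which is invariant under the moves. -/
def Inv (n : ℕ) (Q : C → (Fl → ℕ) → Prop) : Prop :=
  ∀ c f c' f', Valid M f → f M.z = n → Adj M c f c' f' → (Q c f ↔ Q c' f')

/-- The state in which all flags except `z` are at `0` and `z` is at `n`. -/
def zeroAt (n : ℕ) : Fl → ℕ := fun i => if i = M.z then n else 0

/-- The state in which `i0` is at `m`, `z` is at `n` and the other flags are at `0`. -/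
def oneAt (i0 : Fl) (m n : ℕ) : Fl → ℕ := fun i => if i = M.z then n else if i = i0 then m else 0

/-- The properties of the machine of a recursively enumerable predicate `p`. -/
structure MachOK (i0 : Fl) (p : ℕ → Prop) : Prop where
  tyd : M.ty M.d0 = true
  tyu : M.ty M.u0 = false
  typ : M.ty M.pass = true
  i0z : i0 ≠ M.z
  zφ : M.z ∉ M.φ0
  tyinc : ∀ c c' i, M.inc c c' i → M.ty c = M.ty c'
  tytst : ∀ c c' h S φ, M.tst c c' h S φ → M.ty c = M.ty c'
  /-- every state of a nested zone is killed or reaches the start state -/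
  res1 : ∀ (n : ℕ) (Q : C → (Fl → ℕ) → Prop), Inv M n Q →
    (∀ c f, Valid M f → f M.z = n → Killed M c f → Q c f) → Q M.d0 (zeroAt M n) →
    ∀ c f, M.ty c = true → Valid M f → f M.z = n → Q c f
  /-- every state of a base zone is killed or reaches the control state `u0` -/
  res2 : ∀ (n : ℕ) (Q : C → (Fl → ℕ) → Prop), Inv M n Q →
    (∀ c f, Valid M f → f M.z = n → Killed M c f → Q c f) →
    (∀ f, Valid M f → f M.z = n → Q M.u0 f) →
    ∀ c f, M.ty c = false → Valid M f → f M.z = n → Q c f
  /-- if `p k` then, with enough space, a nested zone reaches the pattern of `k` -/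
  hit : ∀ k, p k → ∃ n, ∀ Q : C → (Fl → ℕ) → Prop, Inv M n Q →
    (∀ c f, Valid M f → f M.z = n → Killed M c f → Q c f) →
    (∀ c f, Valid M f → f M.z = n → Pat M k c f → Q c f) → Q M.d0 (zeroAt M n)
  /-- if `p m` then, with enough space, the base zone of `m` is killed -/
  hitu : ∀ m, p m → ∃ n, m + 1 ≤ n ∧ ∀ Q : C → (Fl → ℕ) → Prop, Inv M n Q →
    (∀ c f, Valid M f → f M.z = n → Killed M c f → Q c f) → Q M.u0 (oneAt M i0 (m + 1) n)
  /-- the legitimate states of the nested zones -/
  safe : ∃ L : C → (Fl → ℕ) → Prop, (∀ c f, L c f → M.ty c = true) ∧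
    (∀ n, Inv M n L) ∧ (∀ c f, Valid M f → L c f → ¬ Killed M c f) ∧ L M.d0 (zeroAt M 0) ∧
    (∀ f, Valid M f → (L M.d0 f ↔ L M.d0 (Function.update f M.z (f M.z + 1)))) ∧
    ∀ k c f, ¬ p k → Valid M f → L c f → ¬ Pat M k c f
  /-- the legitimate states of the base zone of `m` -/
  safeu : ∀ m, ¬ p m → ∃ L : C → (Fl → ℕ) → Prop, (∀ c f, L c f → M.ty c = false) ∧
    (∀ n, Inv M n L) ∧ (∀ c f, Valid M f → L c f → ¬ Killed M c f) ∧
    L M.u0 (oneAt M i0 (m + 1) (m + 1)) ∧
    ∀ f, Valid M f → (L M.u0 f ↔ L M.u0 (Function.update f M.z (f M.z + 1)))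

end

end Pool.Agent.W_59b51d_v18
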