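import Pool.Agent.W_59b51d_v18.System
import Pool.Agent.W_59b51d_u18.Good
import Pool.Agent.W_59b51d_v18.Bad1
import Pool.Agent.W_59b51d_u18.Comp

/-!
# The class of varieties in which all finitely presented algebras have solvable word problem

There is a fixed variety, given by finitely many identities, such that it is undecidable which
members of a sequence of monomial identities lead from it to a variety in the class.
-/

namespace Pool.Agent.W_59b51d_v18

open Pool.Agent.W_59b51d_u18
open Pool.Agent.W_59b51d_h18 (Poly code Multilinear vars)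

/-! ### A complete recursively enumerable predicate -/

/-- The universal recursively enumerable predicate. -/
def HK (n : ℕ) : Prop :=
  (Nat.Partrec.Code.eval (Denumerable.ofNat Nat.Partrec.Code n.unpair.1) n.unpair.2).Dom

theorem HK_re : REPred HK := by
  have h1 : Partrec fun n : ℕ =>
      Nat.Partrec.Code.eval (Denumerable.ofNat Nat.Partrec.Code n.unpair.1) n.unpair.2 :=
    Nat.Partrec.Code.eval_part.comp
      ((Computable.ofNat Nat.Partrec.Code).comp (Computable.fst.comp Computable.unpair))
      (Computable.snd.comp Computable.unpair)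
  exact h1.dom_re

theorem HK_complete {p : ℕ → Prop} (hp : REPred p) :
    ∃ g : ℕ → ℕ, Computable g ∧ ∀ n, p n ↔ HK (g n) := by
  have h1 : Partrec fun n : ℕ => (Part.assert (p n) fun _ => Part.some 0 : Part ℕ) := by
    have := hp.map (f := fun n : ℕ => Part.assert (p n) fun _ => Part.some ())
      (g := fun _ _ => (0 : ℕ)) (Computable.const 0).to₂
    refine this.of_eq fun n => ?_
    ext x
    rw [Part.mem_map_iff, Part.mem_assert_iff]
    constructor
    · rintro ⟨_, h, rfl⟩
      obtain ⟨h, -⟩ := Part.mem_assert_iff.1 h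
      exact ⟨h, Part.mem_some _⟩
    · rintro ⟨h, hx⟩
      rw [Part.mem_some_iff] at hx
      exact ⟨(), Part.mem_assert_iff.2 ⟨h, Part.mem_some _⟩, hx.symm⟩
  obtain ⟨c, hc⟩ := Nat.Partrec.Code.exists_code.1 (Partrec.nat_iff.1 h1)
  refine ⟨fun n => Nat.pair (Encodable.encode c) n,
    (Primrec₂.natPair.comp (Primrec.const _) Primrec.id).to_comp, fun n => ?_⟩
  unfold HK
  rw [Nat.unpair_pair, Denumerable.ofNat_encode, hc]
  exact ⟨fun h => ⟨h, trivial⟩, fun h => h.1⟩

theorem HK_not_computable : ¬ ComputablePred HK := by
  intro h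
  obtain ⟨p, hp, hnc⟩ := MRDP.exists_re_not_computable
  obtain ⟨g, hg, hpg⟩ := HK_complete hp
  obtain ⟨f, hf, hHf⟩ := ComputablePred.computable_iff.1 h
  refine hnc (ComputablePred.computable_iff.2 ⟨fun n => f (g n), hf.comp hg, ?_⟩)
  funext n
  rw [eq_iff_iff, hpg n, hHf]

/-! ### Lists with the same members -/

theorem vanishes2_congr {F : Type} [Field F] {T T' : List MId} (h : ∀ q, q ∈ T ↔ q ∈ T')
    {X : Type} (r : List (Poly F X)) (w : Poly F X) :
    Vanishes2 F T r w ↔ Vanishes2 F T' r w := by
  constructor
  · intro hw A _ _ _ _ hA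
    exact hw A fun q hq => hA q ((h q).1 hq)
  · intro hw A _ _ _ _ hA
    exact hw A fun q hq => hA q ((h q).2 hq)

theorem solvable2_congr {F : Type} [Field F] [Primcodable F] {T T' : List MId}
    (h : ∀ q, q ∈ T ↔ q ∈ T') {n : ℕ} (r : List (Poly F (Fin n))) :
    Solvable2 F T r ↔ Solvable2 F T' r := by
  unfold Solvable2
  simp only [vanishes2_congr h]

/-! ### The family -/

/-- The monomial identity given by the word `u b … b v` with `k` factors `b`. -/
def mono (u b v : Wd) (k : ℕ) : MId := (mw (u ++ rep k b ++ v), none)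

theorem mem_mono (R : List (Wd × Wd)) (Z0 : List Wd) (u b v : Wd) (k : ℕ) (q : MId) :
    q ∈ mono u b v k :: TL R Z0 ↔ q ∈ TL R (Zk Z0 [(u, v)] b k) := by
  unfold TL Zk mono
  simp only [List.mem_cons, List.map_cons, List.map_nil, List.mem_append, List.cons_append,
    List.nil_append]
  tauto

theorem multilin_TL (R : List (Wd × Wd)) (Z : List Wd) : ∀ q ∈ TL R Z, q.Multilin := by
  intro q hq
  rcases List.mem_cons.1 hq with rfl | hq
  · refine ⟨?_, fun t ht => ?_⟩
    · simp [metab, Multilinear, vars]
    · simp [metab] at ht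
  · rcases List.mem_append.1 hq with hq | hq
    · obtain ⟨z, _, rfl⟩ := List.mem_map.1 hq
      exact ⟨multilinear_mw z, fun t ht => by simp at ht⟩
    · obtain ⟨u, _, rfl⟩ := List.mem_map.1 hq
      refine ⟨multilinear_mw _, fun t ht => ?_⟩
      simp only [Option.mem_def, Option.some.injEq] at ht
      rw [← ht]
      exact multilinear_mw _

theorem multilin_mono (u b v : Wd) (k : ℕ) : (mono u b v k).Multilin :=
  ⟨multilinear_mw _, fun t ht => by simp [mono] at ht⟩

/-- **The fixed variety.** There are a finite list `T0` of multilinear identities between monomials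
which contains the metabelian identity, words `u`, `b`, `v` and a many-one complete recursively
enumerable predicate `K` such that, over every computable field, the variety given by `T0` and the
monomial identity `u b … b v` (`k` factors `b`) is in the class if and only if `K k`. If not `K k`,
the algebra of this variety with one generator `x` and the relator `(x x) ∘ b - x x` has unsolvable
word problem. -/
theorem exists_fixed : ∃ (T0 : List MId) (u b v : Wd) (K : ℕ → Prop),
    metab ∈ T0 ∧ (∀ q ∈ T0, q.Multilin) ∧ REPred K ∧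
    (∀ p : ℕ → Prop, REPred p → ∃ g : ℕ → ℕ, Computable g ∧ ∀ n, p n ↔ K (g n)) ∧
    (∀ (F : Type) [Field F] [Primcodable F] (_ : Computable₂ fun a b : F => a + b)
      (_ : Computable₂ fun a b : F => a * b) (k : ℕ),
      (K k → AllSolvable F (mono u b v k :: T0)) ∧
      (¬ K k → ¬ Solvable2 F (mono u b v k :: T0) [rel0 F b])) ∧
    Computable fun k => lcode (mono u b v k :: T0) := by
  obtain ⟨R, Z0, q0, blk, al, be, hblk, hlen, hgood, hsafe, hzero⟩ := exists_system HK_re
  obtain ⟨u, v⟩ := q0
  have hmem := mem_mono R Z0 u blk v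
  refine ⟨TL R Z0, u, blk, v, HK, List.mem_cons_self, multilin_TL R Z0, HK_re,
    fun p hp => HK_complete hp, ?_, ?_⟩
  · intro F _ _ hadd hmul k
    constructor
    · intro hk n r
      obtain ⟨N, hN⟩ := hgood k hk
      rw [solvable2_congr (hmem k)]
      exact allSolvable_of_padded R _ hlen N hN F hadd hmul n r
    · intro hk
      rw [solvable2_congr (hmem k)]
      exact not_solvable0 R (Zk Z0 [(u, v)] blk k) hlen blk al be HK_not_computable
        (fun m hm => hsafe k m hk hm) (fun m hm => hzero k m hm) F
  · have h1 := (primrec_word u blk v)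
    have h2 : Primrec fun k : ℕ => mcode (mw (u ++ rep k blk ++ v)) := by
      have h3 := (primrec_wact (fun i => 2 * i) Primrec.nat_double (pmul 0 2) 2).comp h1
      exact h3.of_eq fun k => (mcode_mw _).symm
    have h4 : Primrec fun k : ℕ => ((mcode (mw (u ++ rep k blk ++ v)), (none : Option ℕ)) ::
        lcode (TL R Z0)) :=
      Primrec.list_cons.comp (Primrec.pair h2 (Primrec.const none)) (Primrec.const _)
    exact h4.to_comp.of_eq fun k => rfl

/-- **There is no algorithm** which decides, given a finite list of multilinear metabelian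
identities between monomials, whether all finitely presented algebras of the variety have solvable
word problem. -/
theorem undecidable (F : Type) [Field F] [Primcodable F] (hadd : Computable₂ fun a b : F => a + b)
    (hmul : Computable₂ fun a b : F => a * b) :
    ¬ ∃ f : List (ℕ × Option ℕ) → Bool, Computable f ∧ ∀ T : List MId, metab ∈ T →
      (∀ q ∈ T, q.Multilin) → (f (lcode T) = true ↔ AllSolvable F T) := by
  rintro ⟨f, hf, h⟩
  obtain ⟨T0, u, b, v, K, hmet, hmul0, hK, hcom, hVK, hcomp⟩ := exists_fixed
  obtain ⟨p, hre, hnc⟩ := MRDP.exists_re_not_computable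
  obtain ⟨g, hg, hpg⟩ := hcom p hre
  apply hnc
  rw [ComputablePred.computable_iff]
  refine ⟨fun n => f (lcode (mono u b v (g n) :: T0)), hf.comp (hcomp.comp hg), ?_⟩
  funext n
  rw [eq_iff_iff, hpg n]
  have h1 := h (mono u b v (g n) :: T0) (List.mem_cons_of_mem _ hmet) (by
    intro q hq
    rcases List.mem_cons.1 hq with rfl | hq
    · exact multilin_mono _ _ _ _
    · exact hmul0 q hq)
  rw [h1]
  constructor
  · exact (hVK F hadd hmul (g n)).1
  · intro h2
    by_contra h3
    exact (hVK F hadd hmul (g n)).2 h3 (h2 1 _)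

/-- **The lists with a bad variety are not recursively enumerable**: there is no recursively
enumerable predicate on codes which holds for a list of multilinear metabelian identities between
monomials exactly when some finitely presented algebra of the variety has unsolvable word
problem. -/
theorem not_re (F : Type) [Field F] [Primcodable F] (hadd : Computable₂ fun a b : F => a + b)
    (hmul : Computable₂ fun a b : F => a * b) :
    ¬ ∃ P : List (ℕ × Option ℕ) → Prop, REPred P ∧ ∀ T : List MId, metab ∈ T →
      (∀ q ∈ T, q.Multilin) → (P (lcode T) ↔ ¬ AllSolvable F T) := by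
  rintro ⟨P, hP, h⟩
  obtain ⟨T0, u, b, v, K, hmet, hmul0, hK, hcom, hVK, hcomp⟩ := exists_fixed
  obtain ⟨p, hre, hnc⟩ := MRDP.exists_re_not_computable
  obtain ⟨g, hg, hpg⟩ := hcom p hre
  apply hnc
  refine ComputablePred.computable_iff_re_compl_re'.2 ⟨hre, ?_⟩
  have h2 : REPred fun n => P (lcode (mono u b v (g n) :: T0)) :=
    Partrec.comp hP (hcomp.comp hg)
  refine h2.of_eq fun n => ?_
  rw [h (mono u b v (g n) :: T0) (List.mem_cons_of_mem _ hmet) (by
    intro q hq
    rcases List.mem_cons.1 hq with rfl | hq
    · exact multilin_mono _ _ _ _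
    · exact hmul0 q hq)]
  constructor
  · intro h3 hk
    exact h3 ((hVK F hadd hmul (g n)).1 ((hpg n).1 hk))
  · intro hk h3
    exact (hVK F hadd hmul (g n)).2 (fun h4 => hk ((hpg n).2 h4)) (h3 1 _)

end Pool.Agent.W_59b51d_v18
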