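import Pool.Agent.W_59b51d_v18.Main
import Pool.Agent.W_59b51d_h42.OneIdentity

/-!
# One identity with one varying monomial

There is a fixed polynomial `f0` with coefficients `1` and `-1` and a computable sequence of
monomials `t 0, t 1, …` such that it is undecidable for which `k` all finitely presented algebras
of the variety given by the one identity `t k + f0 = 0` have solvable word problem.
-/

namespace Pool.Agent.W_59b51d_v18

open Pool.Agent.W_59b51d_h18 (Poly code Multilinear vars)
open Pool.Agent.W_59b51d_u18
open Pool.Agent.W_59b51d_h42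

/-- The polynomial with integer coefficients as a polynomial over `F`. -/
def poly (F : Type) [Field F] (f : List (ℤ × FreeMagma ℕ)) : Poly F ℕ :=
  f.map fun q => ((q.1 : F), q.2)

/-- The polynomial `f` has `n` terms, all its coefficients are `1` or `-1`, all its monomials are
multilinear, and the identity `(a b) (c d) = 0` follows from `f = 0`. -/
structure Signed (F : Type) [Field F] (n : ℕ) (f : Poly F ℕ) : Prop where
  len : f.length = n
  coef : ∀ q ∈ f, q.1 = 1 ∨ q.1 = -1
  mult : ∀ q ∈ f, Multilinear q.2
  metab : ∀ (A : Type) [NonUnitalNonAssocRing A] [Module F A], Satisfies A f →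
    ∀ a b c d : A, (a * b) * (c * d) = 0

/-- The identity number `i` as a polynomial with integer coefficients. -/
def iblock (i : ℕ) (p : MId) : List (ℤ × FreeMagma ℕ) :=
  (1, ren i p.1) :: (p.2.map fun t => ((-1 : ℤ), ren i t)).toList

/-- The sum of the identities with the numbers `i, i + 1, …`, with integer coefficients. -/
def ijoin : ℕ → List MId → List (ℤ × FreeMagma ℕ)
  | _, [] => []
  | i, p :: T => iblock i p ++ ijoin (i + 1) T

theorem poly_iblock (F : Type) [Field F] (i : ℕ) (p : MId) :
    poly F (iblock i p) = block F i p := by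
  obtain ⟨s, o⟩ := p
  cases o <;> simp [poly, iblock, block]

theorem poly_append (F : Type) [Field F] (f g : List (ℤ × FreeMagma ℕ)) :
    poly F (f ++ g) = poly F f ++ poly F g := List.map_append

theorem poly_ijoin (F : Type) [Field F] (i : ℕ) (T : List MId) :
    poly F (ijoin i T) = joinFrom F i T := by
  induction T generalizing i with
  | nil => rfl
  | cons p T ih => rw [ijoin, poly_append, poly_iblock, ih, joinFrom]

theorem poly_cons (F : Type) [Field F] (q : ℤ × FreeMagma ℕ) (f : List (ℤ × FreeMagma ℕ)) :
    poly F (q :: f) = ((q.1 : F), q.2) :: poly F f := rfl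

theorem length_poly (F : Type) [Field F] (f : List (ℤ × FreeMagma ℕ)) :
    (poly F f).length = f.length := List.length_map _

theorem ijoin_mem {T : List MId} (hT : ∀ p ∈ T, p.Multilin) {i : ℕ}
    {q : ℤ × FreeMagma ℕ} (hq : q ∈ ijoin i T) : (q.1 = 1 ∨ q.1 = -1) ∧ Multilinear q.2 := by
  induction T generalizing i with
  | nil => simp [ijoin] at hq
  | cons p T ih =>
    rw [ijoin, List.mem_append] at hq
    rcases hq with hq | hq
    · obtain ⟨s, o⟩ := p
      have hp := hT (s, o) List.mem_cons_self
      unfold iblock at hq
      rcases List.mem_cons.1 hq with rfl | hq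
      · exact ⟨Or.inl rfl, multilinear_ren hp.1⟩
      · cases o with
        | none => simp at hq
        | some t =>
          simp only [Option.map_some, Option.toList_some, List.mem_singleton] at hq
          subst hq
          exact ⟨Or.inr rfl, multilinear_ren (hp.2 t rfl)⟩
    · exact ih (fun p' hp' => hT p' (List.mem_cons_of_mem _ hp')) hq

/-- The polynomial of the member number `k`. -/
theorem poly_member (F : Type) [Field F] (T0 : List MId) (u b v : Wd) (k : ℕ) :
    poly F ((1, ren 0 (mono u b v k).1) :: ijoin 1 T0) = joinFrom F 0 (mono u b v k :: T0) := by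
  rw [← poly_ijoin, ijoin]
  rfl

theorem pcode_member (F : Type) [Field F] (t : FreeMagma ℕ) (f0 : List (ℤ × FreeMagma ℕ)) :
    pcode (poly F ((1, t) :: f0)) = (1, mcode t) :: pcode (poly F f0) := by
  simp [pcode, poly]

/-- **One identity.** There are a fixed polynomial `f0`, a sum of multilinear monomials with signs,
a computable sequence `t` of multilinear monomials, a word `b` and a many-one complete recursively
enumerable set `K` of natural numbers such that over every computable field `F`:
* for all `k`, every algebra with the identity `t k + f0 = 0` satisfies `(x y) (z t) = 0`; if `k` is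
  in `K`, then all finitely presented algebras of the variety given by this identity have solvable
  word problem; if `k` is not in `K`, then the algebra of this variety with one generator and the
  relator `rel0 F b` has unsolvable word problem;
* no algorithm decides, given a sum `f` of `f0.length + 1` multilinear monomials with signs which
  implies `(x y) (z t) = 0`, whether all finitely presented algebras of the variety `f = 0` have
  solvable word problem;
* the set of these `f` for which some finitely presented algebra of the variety `f = 0` has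
  unsolvable word problem is not recursively enumerable. -/
theorem final : ∃ (f0 : List (ℤ × FreeMagma ℕ)) (t : ℕ → FreeMagma ℕ) (b : Wd) (K : ℕ → Prop),
    (∀ q ∈ f0, (q.1 = 1 ∨ q.1 = -1) ∧ Multilinear q.2) ∧ (∀ k, Multilinear (t k)) ∧
    (Computable fun k => mcode (t k)) ∧ REPred K ∧
    (∀ p : ℕ → Prop, REPred p → ∃ g : ℕ → ℕ, Computable g ∧ ∀ n, p n ↔ K (g n)) ∧
    ∀ (F : Type) [Field F] [Primcodable F],
      (Computable₂ fun a b : F => a + b) → (Computable₂ fun a b : F => a * b) →
      (∀ k, Signed F (f0.length + 1) (poly F ((1, t k) :: f0)) ∧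
        (K k → AllSolvable1 F (poly F ((1, t k) :: f0))) ∧
        (¬ K k → ¬ Solvable1 F (poly F ((1, t k) :: f0)) [rel0 F b])) ∧
      (¬ ∃ g : List (F × ℕ) → Bool, Computable g ∧ ∀ f : Poly F ℕ,
        Signed F (f0.length + 1) f → (g (pcode f) = true ↔ AllSolvable1 F f)) ∧
      (¬ ∃ P : List (F × ℕ) → Prop, REPred P ∧ ∀ f : Poly F ℕ,
        Signed F (f0.length + 1) f → (P (pcode f) ↔ ¬ AllSolvable1 F f)) := by
  obtain ⟨T0, u, b, v, K, hmet, hlin, hK, hcom, hVK, hcomp⟩ := exists_fixed
  have hf0 : ∀ q ∈ ijoin 1 T0, (q.1 = 1 ∨ q.1 = -1) ∧ Multilinear q.2 :=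
    fun q hq => ijoin_mem hlin hq
  have ht : ∀ k, Multilinear (ren 0 (mono u b v k).1) := fun k =>
    multilinear_ren (multilin_mono u b v k).1
  have htc : Computable fun k => mcode (ren 0 (mono u b v k).1) := by
    have h1 : Computable fun k => ((lcode (mono u b v k :: T0)).headI).1 :=
      (Primrec.fst.comp Primrec.list_headI).to_comp.comp hcomp
    have h2 : Computable fun k => mcode (mono u b v k).1 := h1.of_eq fun k => rfl
    have h3 : Computable fun k => recode 0 (mcode (mono u b v k).1) :=
      (primrec_recode.comp (Primrec.const 0) Primrec.id).to_comp.comp h2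
    exact h3.of_eq fun k => (mcode_ren 0 _).symm
  refine ⟨ijoin 1 T0, fun k => ren 0 (mono u b v k).1, b, K, hf0, ht, htc, hK, hcom, ?_⟩
  intro F _ _ hadd hmul
  obtain ⟨p, hre, hnc⟩ := MRDP.exists_re_not_computable
  obtain ⟨g0, hg0, hpg⟩ := hcom p hre
  have hsig : ∀ k, Signed F ((ijoin 1 T0).length + 1)
      (poly F ((1, ren 0 (mono u b v k).1) :: ijoin 1 T0)) := by
    intro k
    refine ⟨by rw [length_poly, List.length_cons], ?_, ?_, ?_⟩
    · intro q hq
      obtain ⟨q', hq', rfl⟩ := List.mem_map.1 hq
      rcases List.mem_cons.1 hq' with rfl | hq'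
      · exact Or.inl (by simp)
      · rcases (hf0 q' hq').1 with h | h
        · exact Or.inl (by simp [h])
        · exact Or.inr (by simp [h])
    · intro q hq
      obtain ⟨q', hq', rfl⟩ := List.mem_map.1 hq
      rcases List.mem_cons.1 hq' with rfl | hq'
      · exact ht k
      · exact (hf0 q' hq').2
    · intro A _ _ h a b' c d
      rw [poly_member] at h
      have h1 : Sat2 A (mono u b v k :: T0) := (satisfies_join (F := F) _ 0).1 h
      have h2 := h1 metab (List.mem_cons_of_mem _ hmet) fun n => if n = 0 then a else
        if n = 1 then b' else if n = 2 then c else d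
      simpa [metab] using h2
  have hgood : ∀ k, K k → AllSolvable1 F (poly F ((1, ren 0 (mono u b v k).1) :: ijoin 1 T0)) := by
    intro k hk
    rw [poly_member, allSolvable_join]
    exact (hVK F hadd hmul k).1 hk
  have hbad : ∀ k, ¬ K k →
      ¬ Solvable1 F (poly F ((1, ren 0 (mono u b v k).1) :: ijoin 1 T0)) [rel0 F b] := by
    intro k hk h
    apply (hVK F hadd hmul k).2 hk
    rw [poly_member] at h
    obtain ⟨g, hg, h⟩ := h
    exact ⟨g, hg, fun w => (h w).trans (vanishes_join F _ 0 _ w)⟩
  have hcode : Computable fun k =>
      pcode (poly F ((1, ren 0 (mono u b v k).1) :: ijoin 1 T0)) := by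
    have h1 : Computable fun k => ((1 : F), mcode (ren 0 (mono u b v k).1)) ::
        pcode (poly F (ijoin 1 T0)) :=
      Primrec.list_cons.to_comp.comp (Computable.pair (Computable.const 1) htc)
        (Computable.const _)
    exact h1.of_eq fun k => (pcode_member F _ _).symm
  refine ⟨fun k => ⟨hsig k, hgood k, hbad k⟩, ?_, ?_⟩
  · rintro ⟨g, hg, h⟩
    apply hnc
    rw [ComputablePred.computable_iff]
    refine ⟨fun k => g (pcode (poly F ((1, ren 0 (mono u b v (g0 k)).1) :: ijoin 1 T0))),
      hg.comp (hcode.comp hg0), ?_⟩
    funext k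
    rw [eq_iff_iff, hpg k]
    constructor
    · intro hk
      exact (h _ (hsig _)).2 (hgood _ hk)
    · intro hk
      by_contra hpk
      exact hbad _ hpk ((h _ (hsig _)).1 hk 1 _)
  · rintro ⟨P, hP, h⟩
    apply hnc
    refine ComputablePred.computable_iff_re_compl_re'.2 ⟨hre, ?_⟩
    have h2 : REPred fun k =>
        P (pcode (poly F ((1, ren 0 (mono u b v (g0 k)).1) :: ijoin 1 T0))) :=
      Partrec.comp hP (hcode.comp hg0)
    refine h2.of_eq fun k => ?_
    constructor
    · intro h3 hk
      exact (h _ (hsig _)).1 h3 (hgood _ ((hpg k).1 hk))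
    · intro hk
      exact (h _ (hsig _)).2 fun h4 => hbad _ (fun h5 => hk ((hpg k).2 h5)) (h4 1 _)

end Pool.Agent.W_59b51d_v18
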