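import Pool.Agent.W_59b51d_v18.PadC

/-!
# If `p k`, a head with long contexts is derivably zero (PadD)
-/

namespace Pool.Agent.W_59b51d_v18

section

variable {Fl C : Type} [Fintype Fl] [DecidableEq Fl] (M : Mach Fl C) {i0 : Fl} {p : ℕ → Prop}

omit [DecidableEq Fl] in
theorem tops_eq (f : Fl → ℕ) (μ : Option (C × Finset Fl)) (x : ℕ) :
    (tops f μ x : List (Lt Fl C)) = (List.range x).map fun y => cell f μ (x - 1 - y) := by
  induction x with
  | zero => rfl
  | succ x ih =>
    rw [tops, ih, List.range_succ_eq_map, List.map_cons, List.map_map]
    congr 1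
    apply List.map_congr_left
    intro y hy
    rw [List.mem_range] at hy
    show cell f μ (x - 1 - y) = cell f μ (x + 1 - 1 - (y + 1))
    congr 1
    omega

/-- The flags of the cells above and below the head as a function. -/
theorem exists_positions {S : Finset Fl} {L1 L2 : List (Finset Fl)}
    (h1 : ∀ i, i ∉ S → ∃! y, y < L1.length ∧ i ∈ L1.getD y ∅)
    (h1' : ∀ i ∈ S, ∀ ψ ∈ L1, i ∉ ψ)
    (h2 : ∀ i ∈ S, ∃! y, y < L2.length ∧ i ∈ L2.getD y ∅)
    (h2' : ∀ i, i ∉ S → ∀ ψ ∈ L2, i ∉ ψ) :
    ∃ f : Fl → ℕ, (∀ i, i ∈ S ↔ f i < L2.length) ∧ (∀ i, f i < L2.length + L1.length) ∧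
      (∀ y (hy : y < L2.length), lev f (L2.length - 1 - y) = L2[y]) ∧
      ∀ y (hy : y < L1.length), lev f (L2.length + y) = L1[y] := by
  choose! g' hg' using h1
  choose! g hg using h2
  have hS : ∀ i ∈ S, (if i ∈ S then L2.length - 1 - g i else L2.length + g' i) =
      L2.length - 1 - g i := fun i hi => if_pos hi
  have hS' : ∀ i, i ∉ S → (if i ∈ S then L2.length - 1 - g i else L2.length + g' i) =
      L2.length + g' i := fun i hi => if_neg hi
  refine ⟨fun i => if i ∈ S then L2.length - 1 - g i else L2.length + g' i, ?_, ?_, ?_, ?_⟩
  · intro i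
    by_cases hi : i ∈ S
    · have := (hg i hi).1.1
      refine iff_of_true hi ?_
      simp only [hS i hi]
      omega
    · refine iff_of_false hi ?_
      simp only [hS' i hi]
      omega
  · intro i
    by_cases hi : i ∈ S
    · have := (hg i hi).1.1
      simp only [hS i hi]
      omega
    · have := (hg' i hi).1.1
      simp only [hS' i hi]
      omega
  · intro y hy
    ext i
    rw [mem_lev]
    by_cases hi : i ∈ S
    · have h := (hg i hi).1
      have hu := (hg i hi).2
      simp only [hS i hi]
      constructor
      · intro he
        have hy' : g i = y := by omega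
        have := h.2
        rw [hy', List.getD_eq_getElem _ _ hy] at this
        exact this
      · intro hm
        have hy' : y = g i := hu y ⟨hy, by rw [List.getD_eq_getElem _ _ hy]; exact hm⟩
        rw [hy']
    · simp only [hS' i hi]
      constructor
      · intro he
        exfalso
        omega
      · intro hm
        exact absurd hm (h2' i hi _ (List.getElem_mem hy))
  · intro y hy
    ext i
    rw [mem_lev]
    by_cases hi : i ∈ S
    · have h := (hg i hi).1.1
      simp only [hS i hi]
      constructor
      · intro he
        exfalso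
        omega
      · intro hm
        exact absurd hm (h1' i hi _ (List.getElem_mem hy))
    · have h := (hg' i hi).1
      have hu := (hg' i hi).2
      simp only [hS' i hi]
      constructor
      · intro he
        have hy' : g' i = y := by omega
        have := h.2
        rw [hy', List.getD_eq_getElem _ _ hy] at this
        exact this
      · intro hm
        have hy' : y = g' i := hu y ⟨hy, by rw [List.getD_eq_getElem _ _ hy]; exact hm⟩
        rw [hy']

/-- A head away from home which is not derivably zero is the head of a complete zone.

Proof. `walk_deep` and `walk_top` (with `t = 0`); `f i` is the position of the cell which contains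
`i`. With `W = (Fintype.card Fl + 2) * (n + 2)` both walks end within `W` cells. -/
theorem zone_of_not {k n : ℕ} (hb : ∀ (T D : List (Option (Lt Fl C))) (c : C) (S : Finset Fl),
      Zr M k T (.A c S) (List.replicate (n + 1) (some (.P ∅)) ++ D)) {W : ℕ}
    (hW : W = (Fintype.card Fl + 2) * (n + 2)) (T D : List (Option (Lt Fl C))) (c : C)
    (S : Finset Fl) (hT : W ≤ T.length) (hD : W ≤ D.length) (h0 : ¬ Zr M k T (.A c S) D) :
    ∃ (f : Fl → ℕ) (μ : Option (C × Finset Fl)) (x : ℕ) (T' D' : List (Option (Lt Fl C))),
      Valid M f ∧ 0 < x ∧ x ≤ f M.z ∧ S = sect f x ∧ okty M c μ ∧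
      T = (tops f μ x).map some ++ T' ∧ D = (deeps f μ x (f M.z)).map some ++ D' ∧
      T.length ≤ T'.length + W ∧ D.length ≤ D'.length + W := by
  have hc1 : ((Finset.univ \ S).card + 1) * (n + 2) ≤ W := by
    rw [hW]
    apply Nat.mul_le_mul_right
    have := Finset.card_le_card (Finset.subset_univ (Finset.univ \ S))
    rw [Finset.card_univ] at this
    omega
  have hc2 : (S.card + 1) * (n + 2) + (n + 2) ≤ W := by
    have h : (S.card + 1) * (n + 2) + (n + 2) = (S.card + 2) * (n + 2) := by ring
    rw [h, hW]
    apply Nat.mul_le_mul_right
    have := Finset.card_le_card (Finset.subset_univ S)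
    rw [Finset.card_univ] at this
    omega
  rw [Nat.add_mul, Nat.one_mul] at hc2
  obtain ⟨ls, φ, D', hD1, hD2, hD3, hD4, hD5, hD6⟩ :=
    walk_deep M hb _ T D c S rfl (hc1.trans hD) h0
  obtain ⟨ls', μ, φ', T', hT1, hT2, hT3, hT4, hT5, hT6⟩ :=
    walk_top M hb _ 0 T D c S rfl (Nat.zero_le _) (by omega)
      (by rw [List.replicate_zero, List.nil_append]; exact h0)
  obtain ⟨f, hf1, hf2, hf3, hf4⟩ := exists_positions hD5 hD6 hT5 hT6
  have hzf : f M.z = (ls' ++ [φ']).length + ls.length := by
    have h := hf4 ls.length (by simp)
    have hz : M.z ∈ lev f ((ls' ++ [φ']).length + ls.length) := by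
      rw [h]
      simpa using hD4
    exact mem_lev.mp hz
  have hl1 : (ls ++ [φ]).length = ls.length + 1 := by simp
  have hl2 : (ls' ++ [φ']).length = ls'.length + 1 := by simp
  refine ⟨f, μ, (ls' ++ [φ']).length, T', D', ?_, by rw [hl2]; omega, by omega, ?_, hT4, ?_, ?_,
    ?_, ?_⟩
  · intro i
    have := hf2 i
    omega
  · ext i
    rw [mem_sect, hf1]
  · rw [hT1]
    have h : (tops f μ (ls' ++ [φ']).length).map some =
        (ls'.map fun ψ => some (Lt.P (C := C) ψ)) ++ [some (Lt.B μ φ')] := by
      rw [tops_eq, List.map_map]
      apply List.ext_getElem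
      · simp
      · intro y hy1 hy2
        have hy : y < (ls' ++ [φ']).length := by simpa using hy1
        rw [List.getElem_map, List.getElem_range, Function.comp_apply, cell, hf3 y hy]
        by_cases hy3 : y < ls'.length
        · rw [if_neg (by omega), List.getElem_append_left hy3]
          rw [List.getElem_append_left (by simpa using hy3), List.getElem_map]
        · have hy4 : y = ls'.length := by omega
          subst hy4
          rw [if_pos (by omega), List.getElem_append_right (by simp)]
          simp only [List.length_map, Nat.sub_self, List.getElem_singleton]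
          have h3 := hf3 ls'.length hy
          rw [hl2] at h3
          have h4 : ls'.length + 1 - 1 - ls'.length = 0 := by omega
          rw [h4] at h3
          rw [h3]
          simp
    rw [h]
    simp
  · rw [hD1]
    have h : (deeps f μ (ls' ++ [φ']).length (f M.z)).map some =
        (ls ++ [φ]).map fun ψ => some (Lt.P (C := C) ψ) := by
      rw [deeps, List.map_map]
      apply List.ext_getElem
      · simp [hzf]
        omega
      · intro y hy1 hy2
        have hy : y < (ls ++ [φ]).length := by simpa using hy2
        rw [List.getElem_map, List.getElem_map, List.getElem_range', Function.comp_apply, cell,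
          if_neg (by omega), Nat.one_mul, hf4 y hy]
    rw [h]
    simp
  · rw [hT1]
    simp only [List.length_append, List.length_map, List.length_cons]
    omega
  · rw [hD1]
    simp only [List.length_append, List.length_map, List.length_cons]
    omega

end

end Pool.Agent.W_59b51d_v18
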