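import Pool.Agent.W_59b51d_h42.MrdpPair

/-!
# R.e. predicates by pairing equations: positions of the variables
-/

namespace Pool.Agent.W_59b51d_v18

open Pool.Agent.W_59b51d_h42

/-- **R.e. predicates by pairing equations**, with the information which variables are below and
which are above the variables `a` and `b = a + 1`. -/
theorem exists_pair_system' {p : ℕ → Prop} (hp : REPred p) :
    ∃ (m a b : ℕ) (es : List Eqn), 0 < a ∧ a < m ∧ b < m ∧ b = a + 1 ∧ (∀ e ∈ es, e.lt m) ∧
      (∀ f : ℕ → ℕ, Holds es f → f b = f a + f 0 ∧ ∃ n, f 0 = n + 1 ∧ p n) ∧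
      (∀ n, p n → ∃ f : ℕ → ℕ, f 0 = n + 1 ∧ Holds es f ∧ f b = f a + (n + 1) ∧ 1 ≤ f a ∧
        (∀ v < a, f v < f a) ∧ ∀ v, b < v → v < m → f b < f v) := by
  obtain ⟨L, hL⟩ := MRDP.mrdp_atoms hp
  obtain ⟨N, hN⟩ := exists_lt L
  -- variables: 0 input, 1 zero, 2.. atoms, K one
  set K := N + 3 with hK
  obtain ⟨M, es, hes⟩ := good_atoms N L hN (K + 1) (by omega)
  have hKM := hes.le
  -- x 2 + x K = x 0, x K = 1
  have h1 : Good (K + 1) (K + 1) (oneEqs K) fun f => f K = 1 := good_one (by omega) (by omega)
  have h2 : Good M (M + 5) (addEqs 2 K 0 M) fun f => f 2 + f K = f 0 :=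
    good_add (by omega) (by omega) (by omega) (by omega)
  have hdep : Dep (K + 1) (SatA L) := by
    intro f g h hf
    refine MRDP.Sat.congr (N := N) hN ?_ hf
    intro i hi
    exact (h (i + 2) (by omega)).symm
  have h3 := h1.append (by omega) (hes.append (by omega) h2
    (dep_add (by omega) (by omega) (by omega)))
    (Dep.and hdep (dep_add (by omega) (by omega) (by omega)))
  set E := oneEqs K ++ (es ++ addEqs 2 K 0 M) with hE
  -- a = M + 5, b = M + 6, auxiliary M + 7 .. M + 11, zero equation
  set A := M + 5 with hA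
  refine ⟨A + 7, A, A + 1, ⟨1, 1, 1, 1, false⟩ :: (E ++ addEqs A 0 (A + 1) (A + 2)), by omega,
    by omega, by omega, by omega, ?_, ?_, ?_⟩
  · intro e he
    rcases List.mem_cons.1 he with rfl | he
    · refine ⟨?_, ?_, ?_, ?_⟩ <;> simp only <;> omega
    rcases List.mem_append.1 he with he | he
    · obtain ⟨u1, u2, u3, u4⟩ := h3.lt e he
      exact ⟨by omega, by omega, by omega, by omega⟩
    · have h4 : Good (A + 2) (A + 2 + 5) (addEqs A 0 (A + 1) (A + 2))
        fun f => f A + f 0 = f (A + 1) := good_add (by omega) (by omega) (by omega) (by omega)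
      exact h4.lt e he
  · intro f hf
    have h0 : f 1 = 0 := by
      obtain ⟨u1, -, -⟩ := hf ⟨1, 1, 1, 1, false⟩ List.mem_cons_self
      simp only at u1
      have := le_tri (f 1 + f 1)
      omega
    have hf' : Holds (E ++ addEqs A 0 (A + 1) (A + 2)) f :=
      fun e he => hf e (List.mem_cons_of_mem _ he)
    rw [holds_append] at hf'
    have h4 : Good (A + 2) (A + 2 + 5) (addEqs A 0 (A + 1) (A + 2))
        fun f => f A + f 0 = f (A + 1) := good_add (by omega) (by omega) (by omega) (by omega)
    obtain ⟨u1, u2, u3⟩ := h3.sound f h0 hf'.1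
    refine ⟨(h4.sound f h0 hf'.2).symm, ?_⟩
    obtain ⟨n, hn⟩ : ∃ n, f 0 = n + 1 := ⟨f 2, by rw [← u3, u1]⟩
    refine ⟨n, hn, ?_⟩
    rw [hL]
    exact ⟨fun i => f (i + 2), by change f 2 = n; omega, u2⟩
  · intro n hn
    rw [hL] at hn
    obtain ⟨x, hx0, hx⟩ := hn
    -- first assignment
    set f : ℕ → ℕ := fun v => if v = 0 then n + 1 else if v = 1 then 0 else
      if v = K then 1 else x (v - 2) with hf
    have f0 : f 0 = n + 1 := rfl
    have f1 : f 1 = 0 := rfl
    have fK : f K = 1 := by
      simp only [hf]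
      rw [if_neg (by omega), if_neg (by omega)]
      simp
    have fi : ∀ i < N, f (i + 2) = x i := by
      intro i hi
      simp only [hf]
      rw [if_neg (by omega), if_neg (by omega), if_neg (by omega), Nat.add_sub_cancel]
    have f2 : f 2 = n := by
      simp only [hf]
      rw [if_neg (by omega), if_neg (by omega), if_neg (by omega)]
      exact hx0
    have hsat : SatA L f := by
      refine MRDP.Sat.congr (N := N) hN ?_ hx
      intro i hi
      exact (fi i hi).symm
    obtain ⟨g, hg, hgE⟩ := h3.complete f f1 ⟨fK, hsat, by rw [f2, fK, f0]⟩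
    have g0 : g 0 = n + 1 := by rw [hg 0 (by omega), f0]
    have g1 : g 1 = 0 := by rw [hg 1 (by omega), f1]
    -- a bound for the variables below A
    obtain ⟨B, hB⟩ : ∃ B, ∀ v < A, g v ≤ B :=
      ⟨(Finset.range A).sup g, fun v hv => Finset.le_sup (Finset.mem_range.2 hv)⟩
    set b := B + 1 + (n + 1) with hb
    set g' := ext g A [B + 1, b, tri b, tri b + (B + 1), tri b + b, tri (tri b + (B + 1)),
      tri (tri b + b)] with hg'
    have e0 : g' A = B + 1 := by simp [hg', ext_ge0]
    have e1 : g' (A + 1) = b := by simp [hg', ext_ge]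
    have e2 : g' (A + 2) = tri b := by simp [hg', ext_ge]
    have e3 : g' (A + 3) = tri b + (B + 1) := by simp [hg', ext_ge]
    have e4 : g' (A + 4) = tri b + b := by simp [hg', ext_ge]
    have e5 : g' (A + 5) = tri (tri b + (B + 1)) := by simp [hg', ext_ge]
    have e6 : g' (A + 6) = tri (tri b + b) := by simp [hg', ext_ge]
    have elt : ∀ v < A, g' v = g v := fun v hv => ext_lt _ hv
    have g'0 : g' 0 = n + 1 := by rw [elt 0 (by omega), g0]
    have g'1 : g' 1 = 0 := by rw [elt 1 (by omega), g1]
    refine ⟨g', g'0, ?_, ?_, ?_, ?_, ?_⟩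
    · intro e he
      rcases List.mem_cons.1 he with rfl | he
      · refine ⟨?_, le_rfl, fun hs => absurd hs (by simp)⟩
        simp [g'1, tri]
      rcases List.mem_append.1 he with he | he
      · exact Eqn.holds_congr (h3.lt e he) elt (hgE e he)
      · simp only [addEqs, List.mem_cons, List.not_mem_nil, or_false] at he
        rcases he with rfl | rfl | rfl | rfl | rfl <;>
          refine ⟨?_, ?_, fun hs => ?_⟩ <;>
          simp only [e0, e1, e2, e3, e4, e5, e6, g'0, g'1, zero_add, add_zero, le_refl,
            show A + 2 + 1 = A + 3 by omega, show A + 2 + 2 = A + 4 by omega,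
            show A + 2 + 3 = A + 5 by omega, show A + 2 + 4 = A + 6 by omega] <;>
          first
            | omega
            | exact absurd hs (by simp)
            | (rw [show B + 1 + (n + 1) = b from rfl])
    · rw [e0, e1]
    · rw [e0]; omega
    · intro v h
      rw [elt v h, e0]
      have := hB v h
      omega
    · intro v hv hvm
      have hb2 : b < tri b := by
        obtain ⟨c, hc⟩ : ∃ c, b = c + 2 := ⟨b - 2, by omega⟩
        rw [hc]
        have := le_tri c
        simp only [tri]
        omega
      have hb3 := le_tri (tri b + (B + 1))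
      have hb4 := le_tri (tri b + b)
      have : v = A + 2 ∨ v = A + 3 ∨ v = A + 4 ∨ v = A + 5 ∨ v = A + 6 := by omega
      rcases this with rfl | rfl | rfl | rfl | rfl
      all_goals
        simp only [e1, e2, e3, e4, e5, e6]
        omega

end Pool.Agent.W_59b51d_v18
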