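import Pool.Agent.W_59b51d_v18.Mach

/-!
# The flag machine of a system of pairing equations

`T s` is the `s`-th triangular number. An equation `(i, j, l, k, st)` says
`f l = T (f i + f j) + f i` (Cantor pairing) and `f k ≤ f j` (`st = false`) or `f k < f j`
(`st = true`). The machine verifies the equations one after the other with the auxiliary flags
`X`, `Y`, `p`.
-/

namespace Pool.Agent.W_59b51d_v18

/-- The triangular numbers. -/
def T : ℕ → ℕ
  | 0 => 0
  | s + 1 => T s + (s + 1)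

/-- A pairing equation together with a comparison. -/
structure Eqn (V : Type) where
  i : V
  j : V
  l : V
  k : V
  st : Bool

/-- The equation holds. -/
def Eqn.holds {V : Type} (q : Eqn V) (f : V → ℕ) : Prop :=
  f q.l = T (f q.i + f q.j) + f q.i ∧ (if q.st = true then f q.k < f q.j else f q.k ≤ f q.j)

/-- The flags. -/
inductive Flag (m : ℕ) where
  | v (i : Fin m)
  | X
  | Y
  | p
  | z
  deriving DecidableEq, Fintype

/-- The control states without the type. -/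
inductive Ctl (E : ℕ) where
  | G (e : Fin (E + 1))
  | W (e : Fin E) (b : Bool) (k : Fin 5) (d : Bool)
  | C1 (e : Fin E) (d : Bool)
  | C2 (e : Fin E) (d : Bool)
  deriving DecidableEq, Fintype

section

variable {m E : ℕ}

/-- The flag of the first component of the pair. -/
def uf (m : ℕ) (d : Bool) : Flag m := if d then Flag.Y else Flag.X

/-- The flag of the second component of the pair. -/
def wf (m : ℕ) (d : Bool) : Flag m := if d then Flag.X else Flag.Y

/-- The comparison of the equation `q`, seen at the position of `q.j`. -/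
def Ordc (q : Eqn (Fin m)) (S φ : Finset (Flag m)) : Prop :=
  if q.st = true then Flag.v q.k ∈ S else (Flag.v q.k ∈ S ∨ Flag.v q.k ∈ φ)

/-- The moves of flags. -/
inductive Inc (i0 : Fin m) : Bool × Ctl E → Bool × Ctl E → Flag m → Prop
  | free {ty : Bool} {i : Fin m} : (ty = true ∨ i ≠ i0) → Inc i0 (ty, .G 0) (ty, .G 0) (.v i)
  | i10 {ty : Bool} {e : Fin E} {b d : Bool} : Inc i0 (ty, .W e b 1 d) (ty, .W e b 0 d) (wf m d)
  | i12 {ty : Bool} {e : Fin E} {b d : Bool} : Inc i0 (ty, .W e b 1 d) (ty, .W e b 2 d) (uf m d)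
  | i20 {ty : Bool} {e : Fin E} {b d : Bool} : Inc i0 (ty, .W e b 2 d) (ty, .W e b 0 d) .p
  | i34 {ty : Bool} {e : Fin E} {b d : Bool} : Inc i0 (ty, .W e b 3 d) (ty, .W e b 4 d) (wf m d)

/-- The tests. -/
inductive Tst (eqs : Fin E → Eqn (Fin m)) :
    Bool × Ctl E → Bool × Ctl E → Bool → Finset (Flag m) → Finset (Flag m) → Prop
  | t03 {ty : Bool} {e : Fin E} {b d : Bool} {S φ : Finset (Flag m)} : wf m d ∈ φ →
      Tst eqs (ty, .W e b 0 d) (ty, .W e b 3 (!d)) true S φ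
  | t42 {ty : Bool} {e : Fin E} {b d : Bool} {S φ : Finset (Flag m)} : uf m d ∈ φ →
      Tst eqs (ty, .W e b 4 d) (ty, .W e b 2 d) true S φ
  | tc1 {ty : Bool} {e : Fin E} {d h : Bool} {S φ : Finset (Flag m)} : uf m d ∈ φ →
      .v (eqs e).i ∈ φ → Tst eqs (ty, .W e false 0 d) (ty, .C1 e d) h S φ
  | tc2 {ty : Bool} {e : Fin E} {d h : Bool} {S φ : Finset (Flag m)} : wf m d ∈ φ →
      .v (eqs e).j ∈ φ → Ordc (eqs e) S φ → Tst eqs (ty, .C1 e d) (ty, .C2 e d) h S φ
  | tcb {ty : Bool} {e : Fin E} {d h : Bool} {S φ : Finset (Flag m)} : .p ∈ φ →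
      .v (eqs e).l ∈ φ → Tst eqs (ty, .C2 e d) (ty, .W e true 0 d) h S φ
  | tg {ty : Bool} {e : Fin E} {S φ : Finset (Flag m)} : .X ∈ φ → .Y ∈ φ → .p ∈ φ →
      Tst eqs (ty, .G e.castSucc) (ty, .W e false 0 false) true S φ
  | th {ty : Bool} {e : Fin E} {S φ : Finset (Flag m)} : .X ∈ φ → .Y ∈ φ → .p ∈ φ →
      Tst eqs (ty, .W e true 0 false) (ty, .G e.succ) true S φ

/-- The killed situations. -/
inductive Kil (eqs : Fin E → Eqn (Fin m)) :
    Bool × Ctl E → Bool → Finset (Flag m) → Finset (Flag m) → Prop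
  | k0 {ty : Bool} {e : Fin E} {b d : Bool} {S φ : Finset (Flag m)} : .p ∈ φ →
      (.X ∉ φ ∨ .Y ∉ φ ∨ d = true) → Kil eqs (ty, .W e b 0 d) true S φ
  | k1 {ty : Bool} {e : Fin E} {b d h : Bool} {S φ : Finset (Flag m)} : wf m d ∈ φ →
      (.p ∈ S ∨ .p ∈ φ) → Kil eqs (ty, .W e b 1 d) h S φ
  | k3 {ty : Bool} {e : Fin E} {b d : Bool} {S φ : Finset (Flag m)} : uf m d ∉ φ →
      Kil eqs (ty, .W e b 3 d) true S φ
  | k4 {ty : Bool} {e : Fin E} {b d : Bool} {S φ : Finset (Flag m)} : uf m d ∉ φ →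
      Kil eqs (ty, .W e b 4 d) true S φ
  | k4' {ty : Bool} {e : Fin E} {b d : Bool} {S φ : Finset (Flag m)} : wf m d ∈ φ →
      Kil eqs (ty, .W e b 4 d) true S φ
  | kc1 {ty : Bool} {e : Fin E} {d h : Bool} {S φ : Finset (Flag m)} : uf m d ∈ φ →
      .v (eqs e).i ∉ φ → Kil eqs (ty, .C1 e d) h S φ
  | kc2 {ty : Bool} {e : Fin E} {d h : Bool} {S φ : Finset (Flag m)} : wf m d ∈ φ →
      ¬ (.v (eqs e).j ∈ φ ∧ Ordc (eqs e) S φ) → Kil eqs (ty, .C2 e d) h S φ
  | kg {ty : Bool} {e : Fin (E + 1)} {S φ : Finset (Flag m)} : ¬ (.X ∈ φ ∧ .Y ∈ φ ∧ .p ∈ φ) →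
      Kil eqs (ty, .G e) true S φ
  | ku {h : Bool} {S φ : Finset (Flag m)} : Kil eqs (false, .G (Fin.last E)) h S φ

/-- The flags below the pattern. -/
def lowF (a : Fin m) : Finset (Flag m) :=
  {.X, .Y, .p} ∪ (Finset.univ.filter fun i : Fin m => i < a).image .v

/-- The machine of the system `eqs` with input variable `i0` and pattern variables `a`, `b`. -/
def prog (eqs : Fin E → Eqn (Fin m)) (i0 a b : Fin m) : Mach (Flag m) (Bool × Ctl E) where
  z := .z
  S0 := lowF a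
  φ0 := {.v a}
  ψ0 := {.v b}
  d0 := (true, .G 0)
  u0 := (false, .G 0)
  pass := (true, .G (Fin.last E))
  ty := Prod.fst
  inc := Inc i0
  tst := Tst eqs
  kil := Kil eqs

/-- The properties of the system which are used. -/
structure SysOK (eqs : Fin E → Eqn (Fin m)) (i0 a b : Fin m) (p : ℕ → Prop) : Prop where
  pos : 0 < E
  sol : ∀ f : Fin m → ℕ, (∀ e, (eqs e).holds f) → ∀ n, f i0 = n + 1 → p n
  sum : ∀ f : Fin m → ℕ, (∀ e, (eqs e).holds f) → f b = f a + f i0
  ex : ∀ n, p n → ∃ f : Fin m → ℕ, (∀ e, (eqs e).holds f) ∧ f i0 = n + 1 ∧ 0 < f a ∧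
    (∀ i, i < a → f i < f a) ∧ ∀ i, ¬ i < a → i ≠ a → i ≠ b → f b < f i

end

end Pool.Agent.W_59b51d_v18
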