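import Pool.Agent.W_59b51d_v18.Prog

/-!
# Triangular numbers and states of the program (ProgA1)
-/

namespace Pool.Agent.W_59b51d_v18

theorem T_zero : T 0 = 0 := rfl

theorem T_succ (s : ℕ) : T (s + 1) = T s + (s + 1) := rfl

theorem T_mono {s t : ℕ} (h : s ≤ t) : T s ≤ T t := by
  induction h with
  | refl => exact le_rfl
  | step h ih => rw [Nat.succ_eq_add_one, T_succ]; omega

theorem le_T (s : ℕ) : s ≤ T s := by
  induction s with
  | zero => exact Nat.zero_le _
  | succ s ih => rw [T_succ]; omega

/-- Cantor pairing is injective. -/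
theorem pair_inj {x y x' y' : ℕ} (h : T (x + y) + x = T (x' + y') + x') : x = x' ∧ y = y' := by
  have key : ∀ {x y x' y' : ℕ}, T (x + y) + x = T (x' + y') + x' → ¬ x + y < x' + y' := by
    intro x y x' y' h hlt
    have h1 : T (x + y + 1) ≤ T (x' + y') := T_mono (by omega)
    rw [T_succ] at h1
    omega
  have h1 := key h
  have h2 := key h.symm
  have h3 : x + y = x' + y' := by omega
  rw [h3] at h
  omega

/-- Cantor pairing is surjective. -/
theorem pair_surj (n : ℕ) : ∃ x y, T (x + y) + x = n := by
  induction n with
  | zero => exact ⟨0, 0, rfl⟩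
  | succ n ih =>
    obtain ⟨x, y, h⟩ := ih
    cases y with
    | zero =>
      refine ⟨0, x + 1, ?_⟩
      rw [Nat.zero_add, T_succ, ← h]
      rfl
    | succ y =>
      refine ⟨x + 1, y, ?_⟩
      rw [← h, show x + 1 + y = x + (y + 1) by omega]
      rfl

section

variable {m E : ℕ} {eqs : Fin E → Eqn (Fin m)} {i0 a b : Fin m}

/-- The state with the values `g` of the variables, `x`, `y` of `X`, `Y`, `q` of `p` and `n` of
`z`. -/
def stt (g : Fin m → ℕ) (x y q n : ℕ) : Flag m → ℕ
  | .v i => g i
  | .X => x
  | .Y => y
  | .p => q
  | .z => n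

theorem eq_stt (f : Flag m → ℕ) : f = stt (fun i => f (.v i)) (f .X) (f .Y) (f .p) (f .z) := by
  funext i
  cases i <;> rfl

theorem update_v (g : Fin m → ℕ) (x y q n : ℕ) (i : Fin m) (t : ℕ) :
    Function.update (stt g x y q n) (.v i) t = stt (Function.update g i t) x y q n := by
  funext k
  cases k with
  | v k =>
    by_cases hk : k = i
    · subst hk
      simp [stt, Function.update_self]
    · rw [Function.update_of_ne (by simpa using hk)]
      simp [stt, Function.update_of_ne hk]
  | X => rw [Function.update_of_ne (by simp)]; rfl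
  | Y => rw [Function.update_of_ne (by simp)]; rfl
  | p => rw [Function.update_of_ne (by simp)]; rfl
  | z => rw [Function.update_of_ne (by simp)]; rfl

theorem update_X (g : Fin m → ℕ) (x y q n t : ℕ) :
    Function.update (stt g x y q n) .X t = stt g t y q n := by
  funext k
  by_cases hk : k = .X
  · subst hk
    rw [Function.update_self]
    rfl
  · rw [Function.update_of_ne hk]
    cases k <;> first | rfl | exact absurd rfl hk

theorem update_Y (g : Fin m → ℕ) (x y q n t : ℕ) :
    Function.update (stt g x y q n) .Y t = stt g x t q n := by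
  funext k
  by_cases hk : k = .Y
  · subst hk
    rw [Function.update_self]
    rfl
  · rw [Function.update_of_ne hk]
    cases k <;> first | rfl | exact absurd rfl hk

theorem update_p (g : Fin m → ℕ) (x y q n t : ℕ) :
    Function.update (stt g x y q n) .p t = stt g x y t n := by
  funext k
  by_cases hk : k = .p
  · subst hk
    rw [Function.update_self]
    rfl
  · rw [Function.update_of_ne hk]
    cases k <;> first | rfl | exact absurd rfl hk

theorem update_z (g : Fin m → ℕ) (x y q n t : ℕ) :
    Function.update (stt g x y q n) .z t = stt g x y q t := by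
  funext k
  by_cases hk : k = .z
  · subst hk
    rw [Function.update_self]
    rfl
  · rw [Function.update_of_ne hk]
    cases k <;> first | rfl | exact absurd rfl hk

/-- The state in which the first component is `u`, the second `w` (bit `d`). -/
def std (g : Fin m → ℕ) (d : Bool) (u w q n : ℕ) : Flag m → ℕ :=
  if d then stt g w u q n else stt g u w q n

theorem std_uf (g : Fin m → ℕ) (d : Bool) (u w q n : ℕ) : std g d u w q n (uf m d) = u := by
  cases d <;> rfl

theorem std_wf (g : Fin m → ℕ) (d : Bool) (u w q n : ℕ) : std g d u w q n (wf m d) = w := by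
  cases d <;> rfl

theorem update_uf (g : Fin m → ℕ) (d : Bool) (u w q n t : ℕ) :
    Function.update (std g d u w q n) (uf m d) t = std g d t w q n := by
  cases d
  · exact update_X g u w q n t
  · exact update_Y g w u q n t

theorem update_wf (g : Fin m → ℕ) (d : Bool) (u w q n t : ℕ) :
    Function.update (std g d u w q n) (wf m d) t = std g d u t q n := by
  cases d
  · exact update_Y g u w q n t
  · exact update_X g w u q n t

theorem update_pd (g : Fin m → ℕ) (d : Bool) (u w q n t : ℕ) :
    Function.update (std g d u w q n) .p t = std g d u w t n := by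
  cases d
  · exact update_p g u w q n t
  · exact update_p g w u q n t

theorem std_not (g : Fin m → ℕ) (d : Bool) (u w q n : ℕ) :
    std g (!d) u w q n = std g d w u q n := by
  cases d <;> rfl

/-- All values are at most `n`. -/
def Bdd (g : Fin m → ℕ) (n : ℕ) : Prop := ∀ i, g i ≤ n

theorem valid_std {g : Fin m → ℕ} {n u w q : ℕ} {d : Bool} (hg : Bdd g n) (hu : u ≤ n)
    (hw : w ≤ n) (hq : q ≤ n) : Valid (prog eqs i0 a b) (std g d u w q n) := by
  have hz : std g d u w q n (prog eqs i0 a b).z = n := by
    cases d <;> rfl
  intro i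
  rw [hz]
  cases d <;> cases i <;> first | exact hg _ | exact hu | exact hw | exact hq | exact le_rfl

/-! ### The moves of a predicate which is invariant -/

variable {n : ℕ} {Q : Bool × Ctl E → (Flag m → ℕ) → Prop} {ty : Bool} {g : Fin m → ℕ} {e : Fin E}
  {bb d : Bool} {u w q : ℕ}

/-- The comparison of the equation. -/
def ordg (q : Eqn (Fin m)) (g : Fin m → ℕ) : Prop :=
  if q.st = true then g q.k < g q.j else g q.k ≤ g q.j

end

end Pool.Agent.W_59b51d_v18
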