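import Pool.Agent.W_59b51d_v18.ProgA1

/-!
# Triangular numbers and states of the program (ProgA2)
-/

namespace Pool.Agent.W_59b51d_v18

section

variable {m E : ℕ} {eqs : Fin E → Eqn (Fin m)} {i0 a b : Fin m}

/-! ### The moves of a predicate which is invariant -/

variable {n : ℕ} {Q : Bool × Ctl E → (Flag m → ℕ) → Prop} {ty : Bool} {g : Fin m → ℕ} {e : Fin E}
  {bb d : Bool} {u w q : ℕ}

theorem std_z (g : Fin m → ℕ) (d : Bool) (u w q n : ℕ) : std g d u w q n .z = n := by
  unfold std; split <;> rfl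

theorem std_p (g : Fin m → ℕ) (d : Bool) (u w q n : ℕ) : std g d u w q n .p = q := by
  unfold std; split <;> rfl

theorem wf_ne_z (d : Bool) : wf m d ≠ .z := by cases d <;> simp [wf]

theorem uf_ne_z (d : Bool) : uf m d ≠ .z := by cases d <;> simp [uf]

/-- one move of a flag -/
theorem mv_inc (hQ : Inv (prog eqs i0 a b) n Q) {c c' : Bool × Ctl E} {i : Flag m} {f : Flag m → ℕ}
    (hv : Valid (prog eqs i0 a b) f) (hz : f .z = n) (hi : Inc i0 c c' i) (hne : i ≠ .z)
    (hlt : f i < n) : Q c f ↔ Q c' (Function.update f i (f i + 1)) := by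
  refine hQ c f c' _ hv hz (Adj.inc hi hne ?_)
  have : f (prog eqs i0 a b).z = n := hz
  rw [this]; exact hlt

/-- `A0 → A1`: the second component is decreased. -/
theorem mv01 (hQ : Inv (prog eqs i0 a b) n Q) (hg : Bdd g n) (hu : u ≤ n) (hw : w + 1 ≤ n)
    (hq : q ≤ n) : Q (ty, .W e bb 0 d) (std g d u (w + 1) q n) ↔
      Q (ty, .W e bb 1 d) (std g d u w q n) := by
  have h := mv_inc (eqs := eqs) (i0 := i0) (a := a) (b := b) hQ
    (valid_std (d := d) (u := u) (w := w) hg hu (by omega) hq) (std_z _ _ _ _ _ _)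
    (Inc.i10 (ty := ty) (e := e) (b := bb) (d := d)) (wf_ne_z d)
    (by rw [std_wf]; omega)
  rw [std_wf, update_wf] at h
  exact h.symm

theorem mv12 (hQ : Inv (prog eqs i0 a b) n Q) (hg : Bdd g n) (hu : u + 1 ≤ n) (hw : w ≤ n)
    (hq : q ≤ n) : Q (ty, .W e bb 1 d) (std g d u w q n) ↔
      Q (ty, .W e bb 2 d) (std g d (u + 1) w q n) := by
  have h := mv_inc (eqs := eqs) (i0 := i0) (a := a) (b := b) hQ
    (valid_std (d := d) (u := u) (w := w) hg (by omega) hw hq) (std_z _ _ _ _ _ _)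
    (Inc.i12 (ty := ty) (e := e) (b := bb) (d := d)) (uf_ne_z d)
    (by rw [std_uf]; omega)
  rw [std_uf, update_uf] at h
  exact h

theorem mv20 (hQ : Inv (prog eqs i0 a b) n Q) (hg : Bdd g n) (hu : u ≤ n) (hw : w ≤ n)
    (hq : q + 1 ≤ n) : Q (ty, .W e bb 2 d) (std g d u w q n) ↔
      Q (ty, .W e bb 0 d) (std g d u w (q + 1) n) := by
  have h := mv_inc (eqs := eqs) (i0 := i0) (a := a) (b := b) hQ
    (valid_std (d := d) (u := u) (w := w) (q := q) hg hu hw (by omega)) (std_z _ _ _ _ _ _)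
    (Inc.i20 (ty := ty) (e := e) (b := bb) (d := d)) (by simp)
    (by rw [std_p]; omega)
  rw [std_p, update_pd] at h
  exact h

theorem mv34 (hQ : Inv (prog eqs i0 a b) n Q) (hg : Bdd g n) (hu : u ≤ n) (hw : w + 1 ≤ n)
    (hq : q ≤ n) : Q (ty, .W e bb 3 d) (std g d u w q n) ↔
      Q (ty, .W e bb 4 d) (std g d u (w + 1) q n) := by
  have h := mv_inc (eqs := eqs) (i0 := i0) (a := a) (b := b) hQ
    (valid_std (d := d) (u := u) (w := w) hg hu (by omega) hq) (std_z _ _ _ _ _ _)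
    (Inc.i34 (ty := ty) (e := e) (b := bb) (d := d)) (wf_ne_z d)
    (by rw [std_wf]; omega)
  rw [std_wf, update_wf] at h
  exact h

/-- Moving a variable in the state `G 0`. -/
theorem mvfree (hQ : Inv (prog eqs i0 a b) n Q) (hg : Bdd g n) {i : Fin m}
    (hi : ty = true ∨ i ≠ i0) (hgi : g i + 1 ≤ n) :
    Q (ty, .G 0) (std g false 0 0 0 n) ↔
      Q (ty, .G 0) (std (Function.update g i (g i + 1)) false 0 0 0 n) := by
  have h := mv_inc (eqs := eqs) (i0 := i0) (a := a) (b := b) hQ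
    (valid_std (d := false) (u := 0) (w := 0) hg (by omega) (by omega) (Nat.zero_le n))
    (std_z _ _ _ _ _ _)
    (Inc.free (ty := ty) (E := E) (i := i) hi) (by simp)
    (by show g i < n; omega)
  have e1 : std g false 0 0 0 n (.v i) = g i := rfl
  have e2 : std g false 0 0 0 n = stt g 0 0 0 n := rfl
  rw [e1, e2, update_v] at h
  exact h

end

end Pool.Agent.W_59b51d_v18
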