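import Pool.Agent.W_59b51d_v18.ProgA

/-!
# The program: killed states, running down and running up (ProgB1)
-/

namespace Pool.Agent.W_59b51d_v18

section

variable {m E : ℕ} {eqs : Fin E → Eqn (Fin m)} {i0 a b : Fin m}

variable {n : ℕ} {Q : Bool × Ctl E → (Flag m → ℕ) → Prop} {ty : Bool} {g : Fin m → ℕ} {e : Fin E}
  {bb d : Bool} {u w q : ℕ}

/-- The killed states (`Kil.k0`). -/
theorem kil0 (hu : u ≤ n) (hw : w ≤ n) (h : u ≠ 0 ∨ w ≠ 0 ∨ d = true) :
    Killed (prog eqs i0 a b) (ty, .W e bb 0 d) (std g d u w 0 n) := by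
  refine ⟨0, Nat.zero_le _, Kil.k0 (mem_lev.2 (h42_std_p _ _ _ _ _ _)) ?_⟩
  cases d with
  | false =>
    rcases h with h | h | h
    · exact Or.inl fun hm => h (mem_lev.1 hm)
    · exact Or.inr (Or.inl fun hm => h (mem_lev.1 hm))
    · exact absurd h (by simp)
  | true => exact Or.inr (Or.inr rfl)

theorem kil1 (hw : w ≤ n) (h : q ≤ w) :
    Killed (prog eqs i0 a b) (ty, .W e bb 1 d) (std g d u w q n) := by
  refine ⟨w, ?_, Kil.k1 (mem_lev.2 (std_wf _ _ _ _ _ _)) ?_⟩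
  · change w ≤ std g d u w q n .z
    rw [h42_std_z]
    exact hw
  · rw [mem_sect, mem_lev, h42_std_p]
    exact lt_or_eq_of_le h

theorem kil3 (h : u ≠ 0) : Killed (prog eqs i0 a b) (ty, .W e bb 3 d) (std g d u w q n) := by
  refine ⟨0, Nat.zero_le _, Kil.k3 fun hm => h ?_⟩
  rw [mem_lev, std_uf] at hm
  exact hm

theorem kil4 (h : u ≠ 0 ∨ w = 0) :
    Killed (prog eqs i0 a b) (ty, .W e bb 4 d) (std g d u w q n) := by
  rcases h with h | h
  · refine ⟨0, Nat.zero_le _, Kil.k4 fun hm => h ?_⟩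
    rw [mem_lev, std_uf] at hm
    exact hm
  · refine ⟨0, Nat.zero_le _, Kil.k4' ?_⟩
    rw [mem_lev, std_wf]
    exact h

theorem kilc1 (hu : u ≤ n) (h : g (eqs e).i ≠ u) :
    Killed (prog eqs i0 a b) (ty, .C1 e d) (std g d u w q n) := by
  refine ⟨u, ?_, Kil.kc1 (mem_lev.2 (std_uf _ _ _ _ _ _)) fun hm => h ?_⟩
  · change u ≤ std g d u w q n .z
    rw [h42_std_z]
    exact hu
  · rw [mem_lev, h42_std_v] at hm
    exact hm

theorem kilc2 (hw : w ≤ n) (h : ¬ (g (eqs e).j = w ∧ ordg (eqs e) g)) :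
    Killed (prog eqs i0 a b) (ty, .C2 e d) (std g d u w q n) := by
  refine ⟨w, ?_, Kil.kc2 (mem_lev.2 (std_wf _ _ _ _ _ _)) fun hm => h ?_⟩
  · change w ≤ std g d u w q n .z
    rw [h42_std_z]
    exact hw
  · obtain ⟨h1, h2⟩ := hm
    rw [mem_lev, h42_std_v] at h1
    refine ⟨h1, ?_⟩
    unfold Ordc at h2
    unfold ordg
    split_ifs at h2 ⊢ with hst
    · rw [mem_sect, h42_std_v] at h2
      rw [h1]
      exact h2
    · rw [mem_sect, mem_lev, h42_std_v] at h2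
      rw [h1]
      exact le_of_lt_or_eq h2

theorem kilg {e' : Fin (E + 1)} {x y : ℕ} (h : x ≠ 0 ∨ y ≠ 0 ∨ q ≠ 0) :
    Killed (prog eqs i0 a b) (ty, .G e') (stt g x y q n) := by
  refine ⟨0, Nat.zero_le _, Kil.kg ?_⟩
  rintro ⟨h1, h2, h3⟩
  rw [mem_lev] at h1 h2 h3
  rcases h with h | h | h
  · exact h h1
  · exact h h2
  · exact h h3

theorem kilu {f : Flag m → ℕ} : Killed (prog eqs i0 a b) (false, .G (Fin.last E)) f :=
  ⟨0, Nat.zero_le _, Kil.ku⟩

/-- The bit of the walk on the diagonal `s`. -/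
def par (s : ℕ) : Bool := decide (s % 2 = 1)

end

end Pool.Agent.W_59b51d_v18
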