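import Pool.Agent.W_59b51d_v18.ProgB1

/-!
# The program: killed states, running down and running up (ProgB2)
-/

namespace Pool.Agent.W_59b51d_v18

section

variable {m E : ℕ} {eqs : Fin E → Eqn (Fin m)} {i0 a b : Fin m}

variable {n : ℕ} {Q : Bool × Ctl E → (Flag m → ℕ) → Prop} {ty : Bool} {g : Fin m → ℕ} {e : Fin E}
  {bb d : Bool} {u w q : ℕ}

/-- From the states `W 0` with value `q` to all states with value `q`. -/
theorem down_step (hQ : Inv (prog eqs i0 a b) n Q)
    (hk : ∀ c f, Valid (prog eqs i0 a b) f → f .z = n → Killed (prog eqs i0 a b) c f → Q c f)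
    (hg : Bdd g n) (hq : q ≤ n)
    (hA : ∀ (d : Bool) (u w : ℕ), u ≤ n → w ≤ n → Q (ty, .W e bb 0 d) (std g d u w q n))
    (k : Fin 5) (d : Bool) (u w : ℕ) (hu : u ≤ n) (hw : w ≤ n) :
    Q (ty, .W e bb k d) (std g d u w q n) := by
  have h1 : ∀ (d : Bool) (u w : ℕ), u ≤ n → w ≤ n → Q (ty, .W e bb 1 d) (std g d u w q n) := by
    intro d u w hu hw
    by_cases h : q ≤ w
    · exact hk _ _ (valid_std hg hu hw hq) (h42_std_z _ _ _ _ _ _) (kil1 hw h)
    · exact (mv01 hQ hg hu (by omega) hq).1 (hA d u (w + 1) hu (by omega))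
  have h3 : ∀ (d : Bool) (u w : ℕ), u ≤ n → w ≤ n → Q (ty, .W e bb 3 d) (std g d u w q n) := by
    intro d u w hu hw
    by_cases h : u = 0
    · subst h
      have := (mv03 (d := !d) hQ hg hw hq).1 (hA (!d) w 0 hw (Nat.zero_le n))
      rw [Bool.not_not] at this
      exact this
    · exact hk _ _ (valid_std hg hu hw hq) (h42_std_z _ _ _ _ _ _) (kil3 h)
  have h4 : ∀ (d : Bool) (u w : ℕ), u ≤ n → w ≤ n → Q (ty, .W e bb 4 d) (std g d u w q n) := by
    intro d u w hu hw
    by_cases h : u ≠ 0 ∨ w = 0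
    · exact hk _ _ (valid_std hg hu hw hq) (h42_std_z _ _ _ _ _ _) (kil4 h)
    · push Not at h
      obtain ⟨w, rfl⟩ := Nat.exists_eq_succ_of_ne_zero h.2
      exact (mv34 hQ hg hu hw hq).1 (h3 d u w hu (by omega))
  have h2 : ∀ (d : Bool) (u w : ℕ), u ≤ n → w ≤ n → Q (ty, .W e bb 2 d) (std g d u w q n) := by
    intro d u w hu hw
    cases u with
    | zero => exact (mv42 hQ hg hw hq).1 (h4 d 0 w hu hw)
    | succ u => exact (mv12 hQ hg hu hw hq).1 (h1 d u w (by omega) hw)
  match k with
  | 0 => exact hA d u w hu hw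
  | 1 => exact h1 d u w hu hw
  | 2 => exact h2 d u w hu hw
  | 3 => exact h3 d u w hu hw
  | 4 => exact h4 d u w hu hw

/-- Running down: if `Q` contains the killed states and the start state `(0, 0, 0)` of the copy
`bb` of the walk, it contains all states of the walk.

Proof. Induction on `q`, for the states `W 0` first: for `q = 0` the state is the start state or
killed (`kil0`). For `q + 1`, `W 0` at `q + 1` is connected to `W 2` at `q` (`mv20`), which is
connected to `W 1` (if `u > 0`, `mv12`) or to `W 4` (if `u = 0`, `mv42`); `W 1` at `(u - 1, w, q)` is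
killed if `q ≤ w` (`kil1`) and otherwise connected to `W 0` at `(u - 1, w + 1, q)` (`mv01`,
`w + 1 ≤ q ≤ n`); `W 4` at `(0, w, q)` is killed if `w = 0` (`kil4`) and otherwise connected to
`W 3` at `(0, w - 1, q)` (`mv34`) and this to `W 0` (`mv03`). The states `W 1`, …, `W 4` with value
`q` lead in the same way to `W 0` with value `q`. -/
theorem down (hQ : Inv (prog eqs i0 a b) n Q)
    (hk : ∀ c f, Valid (prog eqs i0 a b) f → f .z = n → Killed (prog eqs i0 a b) c f → Q c f)
    (hg : Bdd g n) (h0 : Q (ty, .W e bb 0 false) (std g false 0 0 0 n)) (k : Fin 5)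
    (hu : u ≤ n) (hw : w ≤ n) (hq : q ≤ n) : Q (ty, .W e bb k d) (std g d u w q n) := by
  have hA : ∀ (q : ℕ), q ≤ n → ∀ (d : Bool) (u w : ℕ), u ≤ n → w ≤ n →
      Q (ty, .W e bb 0 d) (std g d u w q n) := by
    intro q
    induction q with
    | zero =>
      intro hq d u w hu hw
      by_cases h : u ≠ 0 ∨ w ≠ 0 ∨ d = true
      · exact hk _ _ (valid_std hg hu hw hq) (h42_std_z _ _ _ _ _ _) (kil0 hu hw h)
      · push Not at h
        obtain ⟨hu0, hw0, hd⟩ := h
        have hd' : d = false := Bool.eq_false_of_not_eq_true hd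
        subst hd'
        rw [hu0, hw0]
        exact h0
    | succ q ih =>
      intro hq d u w hu hw
      exact (mv20 hQ hg hu hw hq).1
        (down_step hQ hk hg (by omega) (ih (by omega)) 2 d u w hu hw)
  exact down_step hQ hk hg hq (hA q hq) k d u w hu hw

end

end Pool.Agent.W_59b51d_v18
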