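import Pool.Agent.W_59b51d_v18.ProgB2

/-!
# The program: killed states, running down and running up (ProgB3)
-/

namespace Pool.Agent.W_59b51d_v18

section

variable {m E : ℕ} {eqs : Fin E → Eqn (Fin m)} {i0 a b : Fin m}

variable {n : ℕ} {Q : Bool × Ctl E → (Flag m → ℕ) → Prop} {ty : Bool} {g : Fin m → ℕ} {e : Fin E}
  {bb d : Bool} {u w q : ℕ}

theorem h42_par_succ (s : ℕ) : par (s + 1) = !par s := by
  unfold par
  rcases Nat.mod_two_eq_zero_or_one s with h | h
  · have h' : (s + 1) % 2 = 1 := by omega
    simp [h, h']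
  · have h' : (s + 1) % 2 = 0 := by omega
    simp [h, h']

/-- Running up: the start state is connected to the state `W 0` with components `u`, `s - u`.

Proof. Induction on `s`, then on `u ≤ s`: `(0, 0)` is the start state; from `(u, w + 1)` to
`(u + 1, w)` by `mv01`, `mv12`, `mv20`; from `(s, 0)` to `(0, s + 1)` by `mv03`, `mv34`, `mv42`, `mv20`
(`std_not`, `par (s + 1) = !par s`). All values are at most `T s + u ≤ n` (`le_T`). -/
theorem up (hQ : Inv (prog eqs i0 a b) n Q) (hg : Bdd g n) (s u : ℕ) (hu : u ≤ s)
    (hq : T s + u ≤ n) : Q (ty, .W e bb 0 false) (std g false 0 0 0 n) ↔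
      Q (ty, .W e bb 0 (par s)) (std g (par s) u (s - u) (T s + u) n) := by
  have key : ∀ (s u w : ℕ), u + w = s → T s + u ≤ n →
      (Q (ty, .W e bb 0 false) (std g false 0 0 0 n) ↔
        Q (ty, .W e bb 0 (par s)) (std g (par s) u w (T s + u) n)) := by
    intro s
    induction s with
    | zero =>
      intro u w h _
      have hu : u = 0 := by omega
      have hw : w = 0 := by omega
      subst hu hw
      exact Iff.rfl
    | succ s ih =>
      intro u
      induction u with
      | zero =>
        intro w hw hn
        have hw' : w = s + 1 := by omega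
        subst hw'
        have hs := le_T s
        rw [T_succ] at hn
        rw [ih s 0 (by omega) (by omega), mv03 hQ hg (by omega) (by omega),
          mv34 hQ hg (Nat.zero_le n) (by omega) (by omega), mv42 hQ hg (by omega) (by omega),
          mv20 hQ hg (Nat.zero_le n) (by omega) (by omega), h42_par_succ, T_succ,
          show T s + s + 1 = T s + (s + 1) + 0 by omega]
      | succ u ihu =>
        intro w hw hn
        have hs := le_T (s + 1)
        rw [ihu (w + 1) (by omega) (by omega), mv01 hQ hg (by omega) (by omega) (by omega),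
          mv12 hQ hg (by omega) (by omega) (by omega),
          mv20 hQ hg (by omega) (by omega) (by omega), add_assoc]
  exact key s u (s - u) (by omega) hq

/-- One equation: if it holds, then `G e` is connected to `G (e + 1)`.

Proof. `mvg`, `up` in copy `false` for `s = g i + g j`, `u = g i` (`T s + u = g l ≤ n`),
`mvc1`, `mvc2`, `mvcb`, `up` in copy `true`, `mvh`. -/
theorem link (hQ : Inv (prog eqs i0 a b) n Q) (hg : Bdd g n) (he : (eqs e).holds g) :
    Q (ty, .G e.castSucc) (std g false 0 0 0 n) ↔
      Q (ty, .G e.succ) (std g false 0 0 0 n) := by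
  obtain ⟨h1, h2⟩ := he
  have hl : g (eqs e).l ≤ n := hg _
  have hs := le_T (g (eqs e).i + g (eqs e).j)
  have hup : ∀ bb, Q (ty, .W e bb 0 false) (std g false 0 0 0 n) ↔
      Q (ty, .W e bb 0 (par (g (eqs e).i + g (eqs e).j)))
        (std g (par (g (eqs e).i + g (eqs e).j)) (g (eqs e).i) (g (eqs e).j) (g (eqs e).l) n) := by
    intro bb
    rw [up hQ hg (g (eqs e).i + g (eqs e).j) (g (eqs e).i) (Nat.le_add_right _ _)
      (by rw [← h1]; exact hl), Nat.add_sub_cancel_left, ← h1]
  rw [mvg hQ hg, hup false, mvc1 hQ hg (hg _) hl, mvc2 hQ hg (hg _) hl h2,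
    mvcb hQ hg (hg _) (hg _), ← hup true, mvh hQ hg]

end

end Pool.Agent.W_59b51d_v18
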