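import Pool.Agent.W_59b51d_v18.ProgB

/-!
# The program satisfies the assumptions (ProgC1)
-/

namespace Pool.Agent.W_59b51d_v18

section

variable {m E : ℕ} {eqs : Fin E → Eqn (Fin m)} {i0 a b : Fin m}

/-- If `Q` contains the killed states and all states `G 0` with values `g`, it contains all
states.

Proof. `stage` for `e = 0, 1, …` (induction on `e`), `kilg` for the states `G e` in which `X`, `Y`
or `p` is not at `0`. -/
theorem all_of_zero {n : ℕ} {Q : Bool × Ctl E → (Flag m → ℕ) → Prop} {ty : Bool}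
    (hQ : Inv (prog eqs i0 a b) n Q)
    (hk : ∀ c f, Valid (prog eqs i0 a b) f → f .z = n → Killed (prog eqs i0 a b) c f → Q c f)
    (h0 : ∀ g, Bdd g n → Q (ty, .G 0) (std g false 0 0 0 n)) (c : Ctl E) (f : Flag m → ℕ)
    (hv : Valid (prog eqs i0 a b) f) (hn : f .z = n) : Q (ty, c) f := by
  have hG : ∀ (k : ℕ) (hk' : k < E + 1) (g : Fin m → ℕ), Bdd g n →
      Q (ty, .G ⟨k, hk'⟩) (std g false 0 0 0 n) := by
    intro k
    induction k with
    | zero => exact fun _ g hg => h0 g hg
    | succ k ih =>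
      intro hk' g hg
      have hkE : k < E := by omega
      exact (stage (e := ⟨k, hkE⟩) hQ hk hg (ih (by omega) g hg) (Nat.zero_le n) (Nat.zero_le n)
        (Nat.zero_le n)).2.2.2
  have hg : Bdd (fun i => f (.v i)) n := fun i => by
    have := hv (.v i)
    exact this.trans hn.le
  have hX : f .X ≤ n := (hv .X).trans hn.le
  have hY : f .Y ≤ n := (hv .Y).trans hn.le
  have hp : f .p ≤ n := (hv .p).trans hn.le
  have hf := eq_stt f
  rw [hn] at hf
  have hfd : ∀ d : Bool, f = std (fun i => f (.v i)) d (f (uf m d)) (f (wf m d)) (f .p) n := by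
    intro d
    cases d with
    | false => exact hf
    | true => exact hf
  have hu : ∀ d : Bool, f (uf m d) ≤ n := by
    intro d
    cases d with
    | false => exact hX
    | true => exact hY
  have hw : ∀ d : Bool, f (wf m d) ≤ n := by
    intro d
    cases d with
    | false => exact hY
    | true => exact hX
  cases c with
  | G e =>
    by_cases h : f .X ≠ 0 ∨ f .Y ≠ 0 ∨ f .p ≠ 0
    · refine hk _ _ hv hn ?_
      rw [hf]
      exact kilg h
    · push Not at h
      obtain ⟨h1, h2, h3⟩ := h
      rw [hf, h1, h2, h3]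
      exact hG e.1 e.2 _ hg
  | W e bb k d =>
    rw [hfd d]
    exact (stage (e := e) hQ hk hg (hG e.1 (by omega) _ hg) (hu d) (hw d) hp).1 bb k d
  | C1 e d =>
    rw [hfd d]
    exact (stage (e := e) hQ hk hg (hG e.1 (by omega) _ hg) (hu d) (hw d) hp).2.1 d
  | C2 e d =>
    rw [hfd d]
    exact (stage (e := e) hQ hk hg (hG e.1 (by omega) _ hg) (hu d) (hw d) hp).2.2.1 d

/-- The solution of the system is verified: `G 0` is connected to the last state (`link`). -/
theorem run_all {n : ℕ} {Q : Bool × Ctl E → (Flag m → ℕ) → Prop} {ty : Bool}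
    (hQ : Inv (prog eqs i0 a b) n Q) {g : Fin m → ℕ} (hg : Bdd g n)
    (he : ∀ e, (eqs e).holds g) :
    Q (ty, .G 0) (std g false 0 0 0 n) ↔ Q (ty, .G (Fin.last E)) (std g false 0 0 0 n) := by
  have key : ∀ (k : ℕ) (hk' : k < E + 1), Q (ty, .G 0) (std g false 0 0 0 n) ↔
      Q (ty, .G ⟨k, hk'⟩) (std g false 0 0 0 n) := by
    intro k
    induction k with
    | zero => exact fun _ => Iff.rfl
    | succ k ih =>
      intro hk'
      have hkE : k < E := by omega
      exact (ih (by omega)).trans (link (e := ⟨k, hkE⟩) hQ hg (he ⟨k, hkE⟩))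
  exact key E (Nat.lt_succ_self E)

end

end Pool.Agent.W_59b51d_v18
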