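import Pool.Agent.W_59b51d_v18.ProgC2

/-!
# The program satisfies the assumptions (ProgC3)
-/

namespace Pool.Agent.W_59b51d_v18

section Safe

variable {m E : ℕ} (eqs : Fin E → Eqn (Fin m))

/-- The invariant of the walk. -/
def wInv (f : Flag m → ℕ) (k : Fin 5) (d : Bool) : Prop :=
  let u := f (uf m d)
  let w := f (wf m d)
  let q := f .p
  let par : ℕ := if d then 1 else 0
  match k with
  | 0 => q = T (u + w) + u ∧ (u + w) % 2 = par
  | 1 => q = T (u + w + 1) + u ∧ (u + w + 1) % 2 = par
  | 2 => q + 1 = T (u + w) + u ∧ (u + w) % 2 = par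
  | 3 => u = 0 ∧ q = T w + w ∧ (w + 1) % 2 = par
  | 4 => u = 0 ∧ q + 1 = T w ∧ w % 2 = par

/-- The legitimate states. `V` is the condition on the values of the variables. -/
def LL (V : (Fin m → ℕ) → Prop) (ty : Bool) : Bool × Ctl E → (Flag m → ℕ) → Prop
  | (t, .G e), f => t = ty ∧ V (fun i => f (.v i)) ∧ f .X = 0 ∧ f .Y = 0 ∧ f .p = 0 ∧
      ∀ e' : Fin E, e'.1 < e.1 → (eqs e').holds fun i => f (.v i)
  | (t, .W e b k d), f => t = ty ∧ V (fun i => f (.v i)) ∧ wInv f k d ∧
      (∀ e' : Fin E, e'.1 < e.1 → (eqs e').holds fun i => f (.v i)) ∧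
      (b = true → (eqs e).holds fun i => f (.v i))
  | (t, .C1 e d), f => t = ty ∧ V (fun i => f (.v i)) ∧ wInv f 0 d ∧
      (∀ e' : Fin E, e'.1 < e.1 → (eqs e').holds fun i => f (.v i)) ∧
      f (uf m d) = f (.v (eqs e).i)
  | (t, .C2 e d), f => t = ty ∧ V (fun i => f (.v i)) ∧ wInv f 0 d ∧
      (∀ e' : Fin E, e'.1 < e.1 → (eqs e').holds fun i => f (.v i)) ∧
      f (uf m d) = f (.v (eqs e).i) ∧ f (wf m d) = f (.v (eqs e).j) ∧
      ordg (eqs e) fun i => f (.v i)

theorem C3_uf_ne_v (d : Bool) (i : Fin m) : (Flag.v i : Flag m) ≠ uf m d := by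
  cases d <;> intro h <;> cases h

theorem C3_wf_ne_v (d : Bool) (i : Fin m) : (Flag.v i : Flag m) ≠ wf m d := by
  cases d <;> intro h <;> cases h

theorem C3_uf_ne_wf (d : Bool) : uf m d ≠ wf m d := by
  cases d <;> intro h <;> cases h

theorem C3_uf_ne_p (d : Bool) : uf m d ≠ .p := by
  cases d <;> intro h <;> cases h

theorem C3_wf_ne_p (d : Bool) : wf m d ≠ .p := by
  cases d <;> intro h <;> cases h

theorem C3_uf_not (d : Bool) : uf m (!d) = wf m d := by
  cases d <;> rfl

theorem C3_wf_not (d : Bool) : wf m (!d) = uf m d := by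
  cases d <;> rfl

theorem C3_upd (f : Flag m → ℕ) (j : Flag m) (t : ℕ) (hj : ∀ i : Fin m, (Flag.v i : Flag m) ≠ j) :
    (fun i => Function.update f j t (.v i)) = fun i => f (.v i) := by
  funext i
  exact Function.update_of_ne (hj i) _ _

theorem C3_mem {f : Flag m → ℕ} {x : ℕ} {i : Flag m} (h : i ∈ lev f x) : f i = x := mem_lev.1 h

theorem C3_Ordc (q : Eqn (Fin m)) {f : Flag m → ℕ} {x : ℕ} (hj : f (.v q.j) = x)
    (h : Ordc q (sect f x) (lev f x)) : ordg q fun i => f (.v i) := by
  unfold Ordc at h
  unfold ordg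
  split_ifs at h ⊢ with hs
  · rw [mem_sect] at h
    change f (.v q.k) < f (.v q.j)
    omega
  · change f (.v q.k) ≤ f (.v q.j)
    rcases h with h | h
    · rw [mem_sect] at h
      omega
    · rw [mem_lev] at h
      omega

theorem C3_holds (q : Eqn (Fin m)) (g : Fin m → ℕ) :
    q.holds g ↔ g q.l = T (g q.i + g q.j) + g q.i ∧ ordg q g := Iff.rfl

/-- The legitimate states are closed under the moves (all cases of `Inc` and `Tst`; for `Tst.tcb`
use `pair_inj`). `V` must not depend on the variables which may be moved. -/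
theorem LL_inv {i0 a b : Fin m} (V : (Fin m → ℕ) → Prop) (ty : Bool)
    (hV : ∀ g i t, (ty = true ∨ i ≠ i0) → (V g ↔ V (Function.update g i t))) (n : ℕ) :
    Inv (prog eqs i0 a b) n (LL eqs V ty) := by
  intro c f c' f' hv hn hadj
  cases hadj with
  | inc hi hne hlt =>
    cases hi with
    | @free ty0 i h =>
      constructor
      · rintro ⟨rfl, h2, h3, h4, h5, h6⟩
        refine ⟨rfl, ?_, ?_, ?_, ?_, fun e' he' => absurd he' (Nat.not_lt_zero _)⟩
        · have := (hV (fun i => f (.v i)) i (f (.v i) + 1) h).1 h2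
          convert this using 1
          funext j
          by_cases hj : j = i
          · subst hj
            rw [Function.update_self, Function.update_self]
          · rw [Function.update_of_ne hj, Function.update_of_ne]
            intro h'
            cases h'
            exact hj rfl
        · rw [Function.update_of_ne (by intro h; cases h)]
          exact h3
        · rw [Function.update_of_ne (by intro h; cases h)]
          exact h4
        · rw [Function.update_of_ne (by intro h; cases h)]
          exact h5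
      · rintro ⟨rfl, h2, h3, h4, h5, h6⟩
        rw [Function.update_of_ne (by intro h; cases h)] at h3 h4 h5
        refine ⟨rfl, ?_, h3, h4, h5, fun e' he' => absurd he' (Nat.not_lt_zero _)⟩
        refine (hV (fun i => f (.v i)) i (f (.v i) + 1) h).2 ?_
        convert h2 using 1
        funext j
        by_cases hj : j = i
        · subst hj
          rw [Function.update_self, Function.update_self]
        · rw [Function.update_of_ne hj, Function.update_of_ne]
          intro h'
          cases h'
          exact hj rfl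
    | @i10 ty0 e b d =>
      have e1 := C3_upd f (wf m d) (f (wf m d) + 1) (C3_wf_ne_v d)
      unfold LL
      simp only [wInv, e1, Function.update_self, Function.update_of_ne (C3_uf_ne_wf d),
        Function.update_of_ne (C3_wf_ne_p d).symm, ← add_assoc]
    | @i12 ty0 e b d =>
      have e1 := C3_upd f (uf m d) (f (uf m d) + 1) (C3_uf_ne_v d)
      unfold LL
      simp only [wInv, e1, Function.update_self, Function.update_of_ne (C3_uf_ne_wf d).symm,
        Function.update_of_ne (C3_uf_ne_p d).symm]
      have e2 : f (uf m d) + 1 + f (wf m d) = f (uf m d) + f (wf m d) + 1 := by omega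
      rw [e2, ← add_assoc, add_left_inj]
    | @i20 ty0 e b d =>
      have e1 := C3_upd f .p (f .p + 1) (fun i => by intro h; cases h)
      unfold LL
      simp only [wInv, e1, Function.update_self, Function.update_of_ne (C3_uf_ne_p d),
        Function.update_of_ne (C3_wf_ne_p d)]
    | @i34 ty0 e b d =>
      have e1 := C3_upd f (wf m d) (f (wf m d) + 1) (C3_wf_ne_v d)
      unfold LL
      simp only [wInv, e1, Function.update_self, Function.update_of_ne (C3_uf_ne_wf d),
        Function.update_of_ne (C3_wf_ne_p d).symm, T_succ, ← add_assoc, add_left_inj]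
  | @tst _ _ x hx ht =>
    generalize hS : sect f x = S at ht
    generalize hφ : lev f x = φ at ht
    generalize hh : decide (x = 0) = h at ht
    cases ht with
    | @t03 ty0 e b d _ _ h1 =>
      have hx0 : x = 0 := of_decide_eq_true hh
      have hw : f (wf m d) = 0 := by
        subst hφ
        rw [C3_mem h1, hx0]
      unfold LL
      simp only [wInv, C3_uf_not, C3_wf_not, hw, add_zero, true_and]
      cases d <;> simp <;> omega
    | @t42 ty0 e b d _ _ h1 =>
      have hx0 : x = 0 := of_decide_eq_true hh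
      have hu : f (uf m d) = 0 := by
        subst hφ
        rw [C3_mem h1, hx0]
      unfold LL
      simp only [wInv, hu, add_zero, zero_add, true_and]
    | @tc1 ty0 e d _ _ _ h1 h2 =>
      subst hφ
      have e1 : f (uf m d) = f (.v (eqs e).i) := (C3_mem h1).trans (C3_mem h2).symm
      constructor
      · rintro ⟨g1, g2, g3, g4, g5⟩
        exact ⟨g1, g2, g3, g4, e1⟩
      · rintro ⟨g1, g2, g3, g4, g5⟩
        exact ⟨g1, g2, g3, g4, fun h => by cases h⟩
    | @tc2 ty0 e d _ _ _ h1 h2 h3 =>
      subst hφ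
      subst hS
      have e1 : f (wf m d) = f (.v (eqs e).j) := (C3_mem h1).trans (C3_mem h2).symm
      constructor
      · rintro ⟨g1, g2, g3, g4, g5⟩
        exact ⟨g1, g2, g3, g4, g5, e1, C3_Ordc (eqs e) (C3_mem h2) h3⟩
      · rintro ⟨g1, g2, g3, g4, g5, g6, g7⟩
        exact ⟨g1, g2, g3, g4, g5⟩
    | @tcb ty0 e d _ _ _ h1 h2 =>
      subst hφ
      have e1 : f .p = f (.v (eqs e).l) := (C3_mem h1).trans (C3_mem h2).symm
      constructor
      · rintro ⟨g1, g2, g3, g4, g5, g6, g7⟩
        refine ⟨g1, g2, g3, g4, fun _ => (C3_holds _ _).2 ⟨?_, g7⟩⟩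
        change f (.v (eqs e).l) = T (f (.v (eqs e).i) + f (.v (eqs e).j)) + f (.v (eqs e).i)
        rw [← e1, ← g5, ← g6]
        exact g3.1
      · rintro ⟨g1, g2, g3, g4, g5⟩
        obtain ⟨h3, h4⟩ := (C3_holds _ _).1 (g5 rfl)
        change f (.v (eqs e).l) = T (f (.v (eqs e).i) + f (.v (eqs e).j)) + f (.v (eqs e).i) at h3
        have h5 : f .p = T (f (uf m d) + f (wf m d)) + f (uf m d) := g3.1
        obtain ⟨h6, h7⟩ := pair_inj (h5.symm.trans (e1.trans h3))
        exact ⟨g1, g2, g3, g4, h6, h7, h4⟩
    | @tg ty0 e _ _ h1 h2 h3 =>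
      have hx0 : x = 0 := of_decide_eq_true hh
      subst hφ
      subst hx0
      have e1 := C3_mem h1
      have e2 := C3_mem h2
      have e3 := C3_mem h3
      constructor
      · rintro ⟨g1, g2, g3, g4, g5, g6⟩
        refine ⟨g1, g2, ?_, g6, fun h => by cases h⟩
        change f .p = T (f .X + f .Y) + f .X ∧ (f .X + f .Y) % 2 = 0
        rw [e1, e2, e3]
        exact ⟨rfl, rfl⟩
      · rintro ⟨g1, g2, g3, g4, g5⟩
        exact ⟨g1, g2, e1, e2, e3, g4⟩
    | @th ty0 e _ _ h1 h2 h3 =>
      have hx0 : x = 0 := of_decide_eq_true hh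
      subst hφ
      subst hx0
      have e1 := C3_mem h1
      have e2 := C3_mem h2
      have e3 := C3_mem h3
      constructor
      · rintro ⟨g1, g2, g3, g4, g5⟩
        refine ⟨g1, g2, e1, e2, e3, fun e' he' => ?_⟩
        rcases Nat.lt_succ_iff_lt_or_eq.1 he' with h | h
        · exact g4 e' h
        · rw [Fin.ext h]
          exact g5 rfl
      · rintro ⟨g1, g2, g3, g4, g5, g6⟩
        refine ⟨g1, g2, ?_, fun e' he' => g6 e' (Nat.lt_succ_of_lt he'),
          fun _ => g6 e (Nat.lt_succ_self _)⟩
        change f .p = T (f .X + f .Y) + f .X ∧ (f .X + f .Y) % 2 = 0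
        rw [e1, e2, e3]
        exact ⟨rfl, rfl⟩

end Safe

end Pool.Agent.W_59b51d_v18
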