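import Pool.Agent.W_59b51d_v18.ProgC3

/-!
# The program satisfies the assumptions (ProgC4)
-/

namespace Pool.Agent.W_59b51d_v18

section Safe

variable {m E : ℕ} (eqs : Fin E → Eqn (Fin m))

theorem C4_Ordc (q : Eqn (Fin m)) {f : Flag m → ℕ} {x : ℕ} (hj : f (.v q.j) = x)
    (h : ordg q fun i => f (.v i)) : Ordc q (sect f x) (lev f x) := by
  unfold ordg at h
  unfold Ordc
  split_ifs at h ⊢ with hs
  · rw [mem_sect]
    change f (.v q.k) < f (.v q.j) at h
    omega
  · change f (.v q.k) ≤ f (.v q.j) at h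
    rw [mem_sect, mem_lev]
    omega

/-- The legitimate states are not killed, provided that in the base type the last state is not
legitimate. -/
theorem LL_kil {i0 a b : Fin m} (V : (Fin m → ℕ) → Prop) (ty : Bool)
    (hlast : ty = false → ∀ g, V g → ¬ ∀ e, (eqs e).holds g) (c : Bool × Ctl E)
    (f : Flag m → ℕ) (hv : Valid (prog eqs i0 a b) f) (hl : LL eqs V ty c f) :
    ¬ Killed (prog eqs i0 a b) c f := by
  rintro ⟨x, hx, hk⟩
  generalize hS : sect f x = S at hk
  generalize hφ : lev f x = φ at hk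
  generalize hh : decide (x = 0) = h at hk
  cases hk with
  | @k0 ty0 e b d _ _ h1 h2 =>
    have hx0 : x = 0 := of_decide_eq_true hh
    subst hφ
    subst hx0
    rw [mem_lev] at h1
    rw [mem_lev, mem_lev] at h2
    obtain ⟨-, -, ⟨g3, g4⟩, -, -⟩ := hl
    change f .p = T (f (uf m d) + f (wf m d)) + f (uf m d) at g3
    have h3 := le_T (f (uf m d) + f (wf m d))
    have h4 : f (uf m d) = 0 := by omega
    have h5 : f (wf m d) = 0 := by omega
    cases d with
    | false =>
      change f .X = 0 at h4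
      change f .Y = 0 at h5
      rcases h2 with h2 | h2 | h2
      · exact h2 h4
      · exact h2 h5
      · cases h2
    | true =>
      change (f (uf m true) + f (wf m true)) % 2 = 1 at g4
      rw [h4, h5] at g4
      cases g4
  | @k1 ty0 e b d _ _ _ h1 h2 =>
    subst hφ
    subst hS
    rw [mem_lev] at h1
    rw [mem_lev, mem_sect] at h2
    obtain ⟨-, -, ⟨g3, g4⟩, -, -⟩ := hl
    change f .p = T (f (uf m d) + f (wf m d) + 1) + f (uf m d) at g3
    have h3 := le_T (f (uf m d) + f (wf m d) + 1)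
    omega
  | @k3 ty0 e b d _ _ h1 =>
    have hx0 : x = 0 := of_decide_eq_true hh
    subst hφ
    subst hx0
    obtain ⟨-, -, ⟨g3, g4⟩, -, -⟩ := hl
    exact h1 (mem_lev.2 g3)
  | @k4 ty0 e b d _ _ h1 =>
    have hx0 : x = 0 := of_decide_eq_true hh
    subst hφ
    subst hx0
    obtain ⟨-, -, ⟨g3, g4⟩, -, -⟩ := hl
    exact h1 (mem_lev.2 g3)
  | @k4' ty0 e b d _ _ h1 =>
    have hx0 : x = 0 := of_decide_eq_true hh
    subst hφ
    subst hx0
    rw [mem_lev] at h1
    obtain ⟨-, -, ⟨g3, g4, g5⟩, -, -⟩ := hl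
    change f .p + 1 = T (f (wf m d)) at g4
    rw [h1, T_zero] at g4
    cases g4
  | @kc1 ty0 e d _ _ _ h1 h2 =>
    subst hφ
    obtain ⟨-, -, -, -, g5⟩ := hl
    rw [mem_lev] at h1 h2
    exact h2 (g5.symm.trans h1)
  | @kc2 ty0 e d _ _ _ h1 h2 =>
    subst hφ
    subst hS
    obtain ⟨-, -, -, -, -, g6, g7⟩ := hl
    rw [mem_lev] at h1 h2
    have h3 : f (.v (eqs e).j) = x := g6.symm.trans h1
    exact h2 ⟨h3, C4_Ordc (eqs e) h3 g7⟩
  | @kg ty0 e _ _ h1 =>
    have hx0 : x = 0 := of_decide_eq_true hh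
    subst hφ
    subst hx0
    obtain ⟨-, -, g3, g4, g5, -⟩ := hl
    rw [mem_lev, mem_lev, mem_lev] at h1
    exact h1 ⟨g3, g4, g5⟩
  | ku =>
    obtain ⟨g1, g2, -, -, -, g6⟩ := hl
    exact hlast g1.symm _ g2 fun e => g6 e e.2

end Safe

end Pool.Agent.W_59b51d_v18
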