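import Pool.Agent.W_59b51d_v18.ProgC4

/-!
# The program satisfies the assumptions (ProgC5)
-/

namespace Pool.Agent.W_59b51d_v18

theorem C5_zeroAt {m E : ℕ} {eqs : Fin E → Eqn (Fin m)} {i0 a b : Fin m} (n : ℕ) :
    zeroAt (prog eqs i0 a b) n = std (fun _ => 0) false 0 0 0 n := by
  funext i
  cases i <;> rfl

theorem C5_oneAt {m E : ℕ} {eqs : Fin E → Eqn (Fin m)} {i0 a b : Fin m} (k n : ℕ) :
    oneAt (prog eqs i0 a b) (.v i0) k n =
      std (fun i => if i = i0 then k else 0) false 0 0 0 n := by
  funext i
  cases i with
  | v j =>
    change (if (Flag.v j : Flag m) = .z then n else if (Flag.v j : Flag m) = .v i0 then k else 0) =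
      if j = i0 then k else 0
    rw [if_neg (by intro h; cases h)]
    by_cases h : j = i0
    · rw [if_pos (by rw [h]), if_pos h]
    · rw [if_neg (by intro h'; cases h'; exact h rfl), if_neg h]
  | X => rfl
  | Y => rfl
  | p => rfl
  | z => rfl

theorem C5_mem_lowF {m : ℕ} (a : Fin m) (i : Flag m) : i ∈ lowF a ↔ (match i with
    | .v j => j < a
    | .X => True
    | .Y => True
    | .p => True
    | .z => False) := by
  unfold lowF
  cases i <;> simp

/-- **The machine of a system has the required properties.** -/
theorem machOK {m E : ℕ} {eqs : Fin E → Eqn (Fin m)} {i0 a b : Fin m} {p : ℕ → Prop}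
    (h : SysOK eqs i0 a b p) : MachOK (prog eqs i0 a b) (.v i0) p where
  tyd := rfl
  tyu := rfl
  typ := rfl
  i0z := by intro h; cases h
  zφ := by
    intro h
    have h1 : (Flag.z : Flag m) = .v a := Finset.mem_singleton.1 h
    cases h1
  tyinc := by
    intro c c' i hi
    cases hi <;> rfl
  tytst := by
    intro c c' hh S φ ht
    cases ht <;> rfl
  res1 := by
    intro n Q hQ hk h0 c f hty hv hn
    obtain ⟨t, c⟩ := c
    change t = true at hty
    subst hty
    refine all_of_zero hQ hk (fun g hg => ?_) c f hv hn
    rw [free_all hQ hg, ← C5_zeroAt (eqs := eqs) (i0 := i0) (a := a) (b := b)]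
    exact h0
  res2 := by
    intro n Q hQ hk h0 c f hty hv hn
    obtain ⟨t, c⟩ := c
    change t = false at hty
    subst hty
    refine all_of_zero hQ hk (fun g hg => ?_) c f hv hn
    exact h0 _ (valid_std hg (Nat.zero_le _) (Nat.zero_le _) (Nat.zero_le _)) rfl
  hit := by
    intro k hk
    obtain ⟨f, hf, hi0, ha, hab, hab'⟩ := h.ex k hk
    have hs := h.sum f hf
    have hg : Bdd f (Finset.univ.sup f + 1) := fun i =>
      (Finset.le_sup (Finset.mem_univ i)).trans (Nat.le_succ _)
    refine ⟨Finset.univ.sup f + 1, fun Q hQ hkil hpat => ?_⟩
    rw [C5_zeroAt]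
    change Q (true, .G 0) _
    rw [← free_all hQ hg, run_all hQ hg hf]
    have hbn : f b < Finset.univ.sup f + 1 := Nat.lt_succ_of_le (Finset.le_sup (Finset.mem_univ b))
    have hb1 : f b = f a + k + 1 := by omega
    refine hpat _ _ (valid_std hg (Nat.zero_le _) (Nat.zero_le _) (Nat.zero_le _)) rfl
      ⟨rfl, f a, ha, ?_, ?_, ?_, ?_, ?_⟩
    · change f a + k + 1 ≤ Finset.univ.sup f + 1
      omega
    · ext i
      rw [mem_sect]
      change _ ↔ i ∈ lowF a
      rw [C5_mem_lowF]
      cases i with
      | v j =>
        change f j < f a ↔ j < a
        constructor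
        · intro hj
          by_contra hja
          by_cases e1 : j = a
          · rw [e1] at hj
            exact lt_irrefl _ hj
          by_cases e2 : j = b
          · rw [e2] at hj
            omega
          have := hab' j hja e1 e2
          omega
        · exact hab j
      | X => exact ⟨fun _ => trivial, fun _ => ha⟩
      | Y => exact ⟨fun _ => trivial, fun _ => ha⟩
      | p => exact ⟨fun _ => trivial, fun _ => ha⟩
      | z =>
        change Finset.univ.sup f + 1 < f a ↔ False
        constructor
        · intro hz
          omega
        · exact False.elim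
    · ext i
      rw [mem_lev]
      change _ ↔ i ∈ ({.v a} : Finset (Flag m))
      rw [Finset.mem_singleton]
      cases i with
      | v j =>
        change f j = f a ↔ _
        constructor
        · intro hj
          by_contra hja
          have e1 : j ≠ a := fun h => hja (by rw [h])
          by_cases e3 : j < a
          · have := hab j e3
            omega
          by_cases e2 : j = b
          · rw [e2] at hj
            omega
          have := hab' j e3 e1 e2
          omega
        · intro hj
          cases hj
          rfl
      | X =>
        change 0 = f a ↔ _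
        exact ⟨fun h => absurd h (by omega), fun h => by cases h⟩
      | Y =>
        change 0 = f a ↔ _
        exact ⟨fun h => absurd h (by omega), fun h => by cases h⟩
      | p =>
        change 0 = f a ↔ _
        exact ⟨fun h => absurd h (by omega), fun h => by cases h⟩
      | z =>
        change Finset.univ.sup f + 1 = f a ↔ _
        exact ⟨fun h => absurd h (by omega), fun h => by cases h⟩
    · intro y hy1 hy2
      ext i
      rw [mem_lev]
      refine ⟨fun hi => ?_, fun hi => by simp at hi⟩
      exfalso
      cases i with
      | v j =>
        change f j = y at hi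
        by_cases e3 : j < a
        · have := hab j e3
          omega
        by_cases e1 : j = a
        · rw [e1] at hi
          omega
        by_cases e2 : j = b
        · rw [e2] at hi
          omega
        have := hab' j e3 e1 e2
        omega
      | X =>
        change 0 = y at hi
        omega
      | Y =>
        change 0 = y at hi
        omega
      | p =>
        change 0 = y at hi
        omega
      | z =>
        change Finset.univ.sup f + 1 = y at hi
        omega
    · rw [← hb1]
      ext i
      rw [mem_lev]
      change _ ↔ i ∈ ({.v b} : Finset (Flag m))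
      rw [Finset.mem_singleton]
      cases i with
      | v j =>
        change f j = f b ↔ _
        constructor
        · intro hj
          by_contra hja
          have e2 : j ≠ b := fun h => hja (by rw [h])
          by_cases e3 : j < a
          · have := hab j e3
            omega
          by_cases e1 : j = a
          · rw [e1] at hj
            omega
          have := hab' j e3 e1 e2
          omega
        · intro hj
          cases hj
          rfl
      | X =>
        change 0 = f b ↔ _
        exact ⟨fun h => absurd h (by omega), fun h => by cases h⟩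
      | Y =>
        change 0 = f b ↔ _
        exact ⟨fun h => absurd h (by omega), fun h => by cases h⟩
      | p =>
        change 0 = f b ↔ _
        exact ⟨fun h => absurd h (by omega), fun h => by cases h⟩
      | z =>
        change Finset.univ.sup f + 1 = f b ↔ _
        exact ⟨fun h => absurd h (by omega), fun h => by cases h⟩
  hitu := by
    intro k hk
    obtain ⟨f, hf, hi0, -⟩ := h.ex k hk
    have hg : Bdd f (Finset.univ.sup f) := fun i => Finset.le_sup (Finset.mem_univ i)
    refine ⟨Finset.univ.sup f, hi0 ▸ hg i0, fun Q hQ hkil => ?_⟩
    rw [C5_oneAt, ← hi0]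
    change Q (false, .G 0) _
    rw [← free_base hQ hg, run_all hQ hg hf]
    exact hkil _ _ (valid_std hg (Nat.zero_le _) (Nat.zero_le _) (Nat.zero_le _)) rfl kilu
  safe := by
    refine ⟨LL eqs (fun _ => True) true, ?_, ?_, ?_, ?_, ?_, ?_⟩
    · rintro ⟨t, c⟩ f hl
      cases c <;> exact hl.1
    · exact LL_inv eqs (fun _ => True) true (fun _ _ _ _ => Iff.rfl)
    · exact fun c f hv hl => LL_kil eqs (fun _ => True) true (fun h => by cases h) c f hv hl
    · refine ⟨rfl, trivial, rfl, rfl, rfl, fun e' he' => ?_⟩
      exact absurd he' (Nat.not_lt_zero _)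
    · intro f hv
      have e : ∀ i : Flag m, i ≠ .z → Function.update f (prog eqs i0 a b).z
          (f (prog eqs i0 a b).z + 1) i = f i := fun i hi => Function.update_of_ne hi _ _
      have hv' : (fun i => Function.update f (prog eqs i0 a b).z
          (f (prog eqs i0 a b).z + 1) (.v i)) = fun i => f (.v i) := by
        funext i
        exact e _ (by intro h; cases h)
      change (true = true ∧ True ∧ f .X = 0 ∧ f .Y = 0 ∧ f .p = 0 ∧ _) ↔
        (true = true ∧ True ∧ _ = 0 ∧ _ = 0 ∧ _ = 0 ∧ ∀ e' : Fin E, e'.1 < 0 →
          (eqs e').holds fun i => Function.update f (prog eqs i0 a b).z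
          (f (prog eqs i0 a b).z + 1) (.v i))
      rw [hv', e .X (by intro h; cases h), e .Y (by intro h; cases h),
        e .p (by intro h; cases h)]
      exact Iff.rfl
    · intro k c f hk hv hl hp
      obtain ⟨hc, x, -, -, -, hx2, -, hx4⟩ := hp
      subst hc
      obtain ⟨-, -, -, -, -, h4⟩ := hl
      have h5 : ∀ e, (eqs e).holds fun i => f (.v i) := fun e => h4 e e.2
      have h6 := h.sum _ h5
      refine hk (h.sol _ h5 k ?_)
      have g1 : f (.v a) = x := by
        have : Flag.v a ∈ lev f x := by
          rw [hx2]
          exact Finset.mem_singleton_self _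
        exact mem_lev.1 this
      have g2 : f (.v b) = x + k + 1 := by
        have : Flag.v b ∈ lev f (x + k + 1) := by
          rw [hx4]
          exact Finset.mem_singleton_self _
        exact mem_lev.1 this
      change f (.v b) = f (.v a) + f (.v i0) at h6
      omega
  safeu := by
    intro k hk
    have hV : ∀ (g : Fin m → ℕ) (i : Fin m) (t : ℕ), (false = true ∨ i ≠ i0) →
        ((g i0 = k + 1) ↔ (Function.update g i t i0 = k + 1)) := by
      intro g i t hi
      rcases hi with hi | hi
      · cases hi
      · rw [Function.update_of_ne (Ne.symm hi)]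
    refine ⟨LL eqs (fun g => g i0 = k + 1) false, ?_, ?_, ?_, ?_, ?_⟩
    · rintro ⟨t, c⟩ f hl
      cases c <;> exact hl.1
    · exact LL_inv eqs (fun g => g i0 = k + 1) false hV
    · exact fun c f hv hl => LL_kil eqs (fun g => g i0 = k + 1) false
        (fun _ g hg hall => hk (h.sol g hall k hg)) c f hv hl
    · rw [C5_oneAt]
      refine ⟨rfl, ?_, rfl, rfl, rfl, fun e' he' => ?_⟩
      · change (if i0 = i0 then k + 1 else 0) = k + 1
        rw [if_pos rfl]
      · exact absurd he' (Nat.not_lt_zero _)
    · intro f hv
      have e : ∀ i : Flag m, i ≠ .z → Function.update f (prog eqs i0 a b).z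
          (f (prog eqs i0 a b).z + 1) i = f i := fun i hi => Function.update_of_ne hi _ _
      have hv' : (fun i => Function.update f (prog eqs i0 a b).z
          (f (prog eqs i0 a b).z + 1) (.v i)) = fun i => f (.v i) := by
        funext i
        exact e _ (by intro h; cases h)
      change (false = false ∧ f (.v i0) = k + 1 ∧ f .X = 0 ∧ f .Y = 0 ∧ f .p = 0 ∧ _) ↔
        (false = false ∧ _ = k + 1 ∧ _ = 0 ∧ _ = 0 ∧ _ = 0 ∧ ∀ e' : Fin E, e'.1 < 0 →
          (eqs e').holds fun i => Function.update f (prog eqs i0 a b).z
          (f (prog eqs i0 a b).z + 1) (.v i))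
      rw [hv', e .X (by intro h; cases h), e .Y (by intro h; cases h),
        e .p (by intro h; cases h)]
      exact Iff.rfl

end Pool.Agent.W_59b51d_v18
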