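import Pool.Agent.W_59b51d_v18.Trans
import Pool.Agent.W_59b51d_v18.ProgC
import Pool.Agent.W_59b51d_v18.SysD

/-!
# The system of a recursively enumerable predicate
-/

namespace Pool.Agent.W_59b51d_v18

open Pool.Agent.W_59b51d_u18

theorem exists_system {p : ℕ → Prop} (hp : REPred p) :
    ∃ (R : List (Wd × Wd)) (Z0 : List Wd) (q0 : Wd × Wd) (blk al be : Wd),
      blk ≠ [] ∧ (∀ q ∈ R, q.1.length = q.2.length) ∧
      (∀ k, p k → ∃ N, ∀ q ∈ R, ∀ a b : Wd, a.length = N → b.length = N →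
        LZ R (Zk Z0 [q0] blk k) (a ++ q.1 ++ b)) ∧
      (∀ k m, ¬ p k → ¬ p m → ∃ L : Set Wd, Safe1 R (Zk Z0 [q0] blk k) blk L ∧
        al ++ rep m blk ++ be ∈ L) ∧
      ∀ k m, p m → ∃ j, LZ R (Zk Z0 [q0] blk k) (rep j blk ++ (al ++ rep m blk ++ be)) := by
  obtain ⟨m, E, eqs, i0, a, b, h⟩ := exists_sysOK hp
  exact system_of_mach (prog eqs i0 a b) (machOK h)

end Pool.Agent.W_59b51d_v18
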