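import Pool.Agent.W_59b51d_v18.Coding
import Pool.Agent.W_59b51d_v18.Leg
import Pool.Agent.W_59b51d_v18.Pad

/-!
# From zippers to words (TransA)
-/

namespace Pool.Agent.W_59b51d_v18

open Pool.Agent.W_59b51d_u18

/-- A list of blocks which is decoded to letters is the list of the codes. -/
theorem Enc.map_dec_some {α : Type} (E : Enc α) {bs : List Wd} {ls : List α}
    (h : bs.map E.dec = ls.map some) : bs = ls.map E.enc := by
  induction ls generalizing bs with
  | nil =>
    rw [List.map_nil, List.map_eq_nil_iff] at h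
    rw [h, List.map_nil]
  | cons l ls ih =>
    cases bs with
    | nil => simp at h
    | cons b bs =>
      rw [List.map_cons, List.map_cons, List.cons.injEq] at h
      rw [List.map_cons, ← ih h.2, E.dec_eq_some h.1]

theorem Enc.map_dec_enc {α : Type} (E : Enc α) (ls : List α) :
    (ls.map E.enc).map E.dec = ls.map some := by
  rw [List.map_map]
  exact List.map_congr_left fun l _ => E.dec_enc l

theorem Enc.isBl_append {α : Type} (E : Enc α) {bs cs : List Wd} :
    E.IsBl (bs ++ cs) ↔ E.IsBl bs ∧ E.IsBl cs := by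
  simp only [Enc.IsBl, List.forall_mem_append]

theorem Enc.isBl_enc {α : Type} (E : Enc α) (ls : List α) : E.IsBl (ls.map E.enc) := by
  intro b hb
  obtain ⟨l, -, rfl⟩ := List.mem_map.1 hb
  exact E.len l

theorem Enc.flatten_rev {α : Type} (E : Enc α) (D : List α) (h : α) (T : List α) :
    (D.reverse ++ h :: T).flatMap E.enc =
      (D.map E.enc).reverse.flatten ++ E.enc h ++ (T.map E.enc).flatten := by
  rw [List.flatMap_append, List.flatMap_cons, List.flatMap_def, List.flatMap_def,
    List.map_reverse, List.append_assoc]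

theorem word_split (bD0 bD1 bT0 bT1 : List Wd) (h : Wd) :
    (bD0 ++ bD1).reverse.flatten ++ h ++ (bT0 ++ bT1).flatten =
      bD1.reverse.flatten ++ (bD0.reverse.flatten ++ h ++ bT0.flatten) ++ bT1.flatten := by
  simp only [List.reverse_append, List.flatten_append, List.append_assoc]

section

variable {Fl C : Type} [Fintype Fl] [DecidableEq Fl] (M : Mach Fl C) (E : Enc (Lt Fl C))
  {R : List (Wd × Wd)} {Z0 : List Wd}

/-- Derivably zero zippers give derivably zero words. Proof: induction on `Zr`; a list of blocks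
which is mapped by `dec` to `T0.map some ++ T` is `T0.map enc` followed by a list of blocks. In the
case of the pattern the deep side is reversed, the word is
`enc (P ψ) ++ rep k (enc (P ∅)) ++ (enc (P φ) ++ enc (A pass S))`, a member of `Zk`. -/
theorem lz_of_zr (hR : ∀ q, q ∈ R ↔ q ∈ RelSet M E) (hZ : ∀ w, w ∈ Z0 ↔ w ∈ ZerSet M E)
    {k : ℕ} {T D : List (Option (Lt Fl C))} {h : Lt Fl C}
    (hz : Zr M k T h D) (bT bD : List Wd) (hT : E.IsBl bT) (hD : E.IsBl bD)
    (eT : bT.map E.dec = T) (eD : bD.map E.dec = D) :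
    LZ R (Zk Z0 [famq M E] (E.enc (.P ∅)) k) (bD.reverse.flatten ++ E.enc h ++ bT.flatten) := by
  induction hz generalizing bT bD with
  | @zero T0 D0 T D h hloc =>
    obtain ⟨bT0, bT1, rfl, e1, -⟩ := List.map_eq_append_iff.1 eT
    obtain ⟨bD0, bD1, rfl, e2, -⟩ := List.map_eq_append_iff.1 eD
    rw [(Enc.isBl_append E)] at hT hD
    rw [word_split]
    refine LZ.zero ?_
    refine List.mem_append_right _ ?_
    rw [hZ]
    exact ⟨T0, h, D0, hloc, bT0, bD0, hT.1, hD.1, e1, e2, rfl⟩
  | @pat T0 D0 T D h hloc =>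
    cases hloc with
    | pat =>
      obtain ⟨bD0, bD1, rfl, e2, -⟩ := List.map_eq_append_iff.1 eD
      have e3 : bD0 = (Lt.P M.φ0 :: (List.replicate k (Lt.P ∅) ++ [Lt.P M.ψ0])).map E.enc := by
        apply (Enc.map_dec_some E)
        rw [e2]
        simp only [List.map_cons, List.map_append, List.map_replicate, List.map_nil]
      have e4 : bD0.reverse.flatten ++ E.enc (.A M.pass M.S0) =
          (famq M E).1 ++ rep k (E.enc (.P ∅)) ++ (famq M E).2 := by
        rw [e3]
        simp only [List.map_cons, List.map_append, List.map_replicate, List.map_nil,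
          List.reverse_cons, List.reverse_append, List.reverse_nil, List.nil_append,
          List.flatten_append, List.flatten_cons, List.flatten_nil, List.append_nil,
          List.reverse_replicate, rep, List.append_assoc, famq]
      have e5 : (bD0 ++ bD1).reverse.flatten ++ E.enc (.A M.pass M.S0) ++ bT.flatten =
          bD1.reverse.flatten ++ (bD0.reverse.flatten ++ E.enc (.A M.pass M.S0)) ++
            bT.flatten := by
        simp only [List.reverse_append, List.flatten_append, List.append_assoc]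
      rw [e5, e4]
      refine LZ.zero ?_
      refine List.mem_append_left _ ?_
      exact List.mem_map.2 ⟨famq M E, List.mem_singleton.2 rfl, rfl⟩
  | @step T0 D0 T1 D1 T D h h' hloc hz ih =>
    obtain ⟨bT0, bT1, rfl, e1, e1'⟩ := List.map_eq_append_iff.1 eT
    obtain ⟨bD0, bD1, rfl, e2, e2'⟩ := List.map_eq_append_iff.1 eD
    have e3 := (Enc.map_dec_some E) e1
    have e4 := (Enc.map_dec_some E) e2
    subst e3 e4
    rw [(Enc.isBl_append E)] at hT hD
    rw [word_split, ← (Enc.flatten_rev E)]
    have h1 := ih (T1.map E.enc ++ bT1) (D1.map E.enc ++ bD1)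
      ((Enc.isBl_append E).2 ⟨(Enc.isBl_enc E) T1, hT.2⟩) ((Enc.isBl_append E).2 ⟨(Enc.isBl_enc E) D1, hD.2⟩)
      (by rw [List.map_append, (Enc.map_dec_enc E), e1']) (by rw [List.map_append, (Enc.map_dec_enc E), e2'])
    rw [word_split, ← (Enc.flatten_rev E)] at h1
    exact LZ.step ((hR _).2 ⟨T0, h, D0, T1, h', D1, hloc, rfl⟩) h1
  | @step' T0 D0 T1 D1 T D h h' hloc hz ih =>
    obtain ⟨bT0, bT1, rfl, e1, e1'⟩ := List.map_eq_append_iff.1 eT
    obtain ⟨bD0, bD1, rfl, e2, e2'⟩ := List.map_eq_append_iff.1 eD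
    have e3 := (Enc.map_dec_some E) e1
    have e4 := (Enc.map_dec_some E) e2
    subst e3 e4
    rw [(Enc.isBl_append E)] at hT hD
    rw [word_split, ← (Enc.flatten_rev E)]
    have h1 := ih (T0.map E.enc ++ bT1) (D0.map E.enc ++ bD1)
      ((Enc.isBl_append E).2 ⟨(Enc.isBl_enc E) T0, hT.2⟩) ((Enc.isBl_append E).2 ⟨(Enc.isBl_enc E) D0, hD.2⟩)
      (by rw [List.map_append, (Enc.map_dec_enc E), e1']) (by rw [List.map_append, (Enc.map_dec_enc E), e2'])
    rw [word_split, ← (Enc.flatten_rev E)] at h1
    exact LZ.step' ((hR _).2 ⟨T0, h, D0, T1, h', D1, hloc, rfl⟩) h1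

end

end Pool.Agent.W_59b51d_v18
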