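import Pool.Agent.W_59b51d_v18.TransC
import Pool.Agent.W_59b51d_v18.Bad1

/-!
# The codes of the legitimate zippers with one more letter in front
-/

namespace Pool.Agent.W_59b51d_v18

open Pool.Agent.W_59b51d_u18

theorem Enc.head_false {α : Type} (E : Enc α) (u : List α) (hu : u ≠ []) :
    ∃ x, u.flatMap E.enc = false :: x := by
  obtain ⟨l, u', rfl⟩ := List.exists_cons_of_ne_nil hu
  obtain ⟨x, hx⟩ := E.fst l
  exact ⟨x ++ u'.flatMap E.enc, by rw [List.flatMap_cons, hx, List.cons_append]⟩

theorem Enc.cons_true_ne {α : Type} (E : Enc α) (ls : List α) (bs cs : List Wd) (l : α)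
    (hbs : E.IsBl bs) (b : Wd) :
    true :: ls.flatMap E.enc ≠ (bs.flatten ++ E.enc l ++ cs.flatten) ++ b := by
  intro h
  cases bs with
  | nil =>
    obtain ⟨x, hx⟩ := E.fst l
    rw [List.flatten_nil, List.nil_append, hx, List.cons_append, List.cons_append,
      List.cons.injEq] at h
    exact absurd h.1 (by decide)
  | cons c bs =>
    have hc : c.length = E.B := hbs c List.mem_cons_self
    have h2 := E.two
    cases c with
    | nil =>
      rw [List.length_nil] at hc
      omega
    | cons s c =>
      rw [List.flatten_cons, List.cons_append, List.cons_append, List.cons_append,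
        List.cons_append, List.cons.injEq] at h
      have h3 := E.sync ls (c ++ bs.flatten) (cs.flatten ++ b) l (by
        rw [h.2]
        simp only [List.append_assoc])
      rw [List.length_append, E.flatten_length bs
        (fun d hd => hbs d (List.mem_cons_of_mem _ hd))] at h3
      have h4 : E.B ∣ c.length := (Nat.dvd_add_left (dvd_mul_right _ _)).1 h3
      rw [List.length_cons] at hc
      have h5 : E.B ∣ 1 := by
        have h6 : E.B ∣ c.length + 1 := by rw [hc]
        exact (Nat.dvd_add_right h4).1 h6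
      have h7 := Nat.dvd_one.1 h5
      omega

section

variable {Fl C : Type} [Fintype Fl] [DecidableEq Fl] (M : Mach Fl C) (E : Enc (Lt Fl C))
  {R : List (Wd × Wd)} {Z0 : List Wd}

/-- The codes of the legitimate zippers form a safe set in the sense of `Safe1`. -/
theorem safe1_words (hR : ∀ q, q ∈ R ↔ q ∈ RelSet M E) (hZ : ∀ w, w ∈ Z0 ↔ w ∈ ZerSet M E)
    {LD LU : C → (Fl → ℕ) → Prop} (hL : LegOK M LD LU)
    (hp : M.ty M.pass = true) {k : ℕ} (hk : ∀ c f, Valid M f → LD c f → ¬ Pat M k c f) :
    Safe1 R (Zk Z0 [famq M E] (E.enc (.P ∅)) k) (E.enc (.P ∅))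
      {w | ∃ T h D, Leg M LD LU T h D ∧ w = (D.reverse ++ h :: T).flatMap E.enc} := by
  refine ⟨safe_words M E hR hZ hL hp hk, ?_, ?_⟩
  · rintro q hq b w -
    obtain ⟨T0, h0, D0, T1, h1, D1, hloc, rfl⟩ := (hR _).1 hq
    obtain ⟨x, hx⟩ := Enc.head_false E (D0.reverse ++ h0 :: T0) (by simp)
    obtain ⟨y, hy⟩ := Enc.head_false E (D1.reverse ++ h1 :: T1) (by simp)
    constructor
    · intro h
      change true :: w = (D0.reverse ++ h0 :: T0).flatMap E.enc ++ b at h
      rw [hx, List.cons_append, List.cons.injEq] at h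
      exact absurd h.1 (by decide)
    · intro h
      change true :: w = (D1.reverse ++ h1 :: T1).flatMap E.enc ++ b at h
      rw [hy, List.cons_append, List.cons.injEq] at h
      exact absurd h.1 (by decide)
  · rintro z hz b w ⟨T, h, D, -, rfl⟩
    rcases List.mem_append.1 hz with hz | hz
    · obtain ⟨q, hq, rfl⟩ := List.mem_map.1 hz
      obtain rfl := List.mem_singleton.1 hq
      intro h1
      obtain ⟨x, hx⟩ := E.fst (.P M.ψ0)
      have h2 : (famq M E).1 = false :: x := hx
      rw [h2, List.cons_append, List.cons_append, List.cons_append, List.cons.injEq] at h1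
      exact absurd h1.1 (by decide)
    · obtain ⟨T0, h0, D0, hloc, bT, bD, hT, hD, e1, e2, rfl⟩ := (hZ _).1 hz
      exact E.cons_true_ne _ bD.reverse bT h0 (fun c hc => hD c (List.mem_reverse.1 hc)) b

end

end Pool.Agent.W_59b51d_v18
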