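import Pool.Agent.W_59b51d_v18.ZoneD

/-!
# The zipper of a zone
-/
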