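import Pool.Agent.W_59b51d_v18.ZoneA

/-!
# The zipper of a zone (ZoneB)
-/

namespace Pool.Agent.W_59b51d_v18

section

variable {Fl C : Type} [Fintype Fl] [DecidableEq Fl] (M : Mach Fl C) (k : ℕ)

theorem zoneB_loc {T0 D0 T1 D1 : List (Lt Fl C)} {h h' : Lt Fl C}
    (hl : Loc M T0 h D0 T1 h' D1) (T D : List (Option (Lt Fl C))) :
    Zr M k (T0.map some ++ T) h (D0.map some ++ D) ↔
      Zr M k (T1.map some ++ T) h' (D1.map some ++ D) :=
  ⟨fun h => Zr.step' hl h, fun h => Zr.step hl h⟩

theorem zoneB_tops {f f' : Fl → ℕ} {μ : Option (C × Finset Fl)} (n : ℕ)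
    (h : ∀ y < n, (cell f μ y : Lt Fl C) = cell f' μ y) :
    (tops f μ n : List (Lt Fl C)) = tops f' μ n := by
  induction n with
  | zero => rfl
  | succ n ih =>
    rw [tops, tops, h n (Nat.lt_succ_self n), ih fun y hy => h y (by omega)]

theorem zoneB_deeps {f f' : Fl → ℕ} {μ : Option (C × Finset Fl)} (x n : ℕ)
    (h : ∀ y, x ≤ y → (cell f μ y : Lt Fl C) = cell f' μ y) :
    (deeps f μ x n : List (Lt Fl C)) = deeps f' μ x n := by
  unfold deeps
  refine List.map_congr_left fun y hy => h y ?_
  exact (List.mem_range'_1.1 hy).1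

/-- A move of the machine does not change whether the zone is derivably zero.

Proof. For `Adj.inc` take the head to `x = f i` (`zz_move`); the cells `x` and `x + 1` are
`lev f x` and `lev f (x + 1)` before, `(lev f x).erase i` and `insert i (lev f (x + 1))` after the
move, all other cells and `sect f x` are the same; `Loc.inc`, `Loc.inc0`. For `Adj.tst` take the
head to `x`; `Loc.tst`, `Loc.tst0`. -/
theorem zz_adj {c c' : C} {f f' : Fl → ℕ} {μ : Option (C × Finset Fl)} {x : ℕ}
    {T D : List (Option (Lt Fl C))} (hv : Valid M f) (h : Adj M c f c' f') (hx : x ≤ f M.z) :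
    ZZ M k c f μ x T D ↔ ZZ M k c' f' μ x T D := by
  cases h with
  | @inc _ i _ hi hne hlt =>
    set f' := Function.update f i (f i + 1) with hf'
    have hi' : f' i = f i + 1 := Function.update_self _ _ _
    have ho : ∀ j, j ≠ i → f' j = f j := fun j hj => Function.update_of_ne hj _ _
    have hz' : f' M.z = f M.z := ho _ (Ne.symm hne)
    have hy : f i ≤ f M.z := hlt.le
    have hy' : f i ≤ f' M.z := by rw [hz']; exact hy
    rw [zz_move M k hx hy, zz_move M k (by rw [hz']; exact hx) hy']
    have hl0 : lev f' (f i) = (lev f (f i)).erase i := by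
      ext j
      rw [mem_lev, Finset.mem_erase, mem_lev]
      by_cases hj : j = i
      · subst hj
        rw [hi']
        simp
      · rw [ho j hj]
        exact ⟨fun h => ⟨hj, h⟩, fun h => h.2⟩
    have hl1 : lev f' (f i + 1) = insert i (lev f (f i + 1)) := by
      ext j
      rw [mem_lev, Finset.mem_insert, mem_lev]
      by_cases hj : j = i
      · subst hj
        rw [hi']
        simp
      · rw [ho j hj]
        exact ⟨Or.inr, fun h => h.resolve_left hj⟩
    have hlo : ∀ y, y ≠ f i → y ≠ f i + 1 → lev f' y = lev f y := by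
      intro y h1 h2
      ext j
      rw [mem_lev, mem_lev]
      by_cases hj : j = i
      · subst hj
        rw [hi']
        exact ⟨fun h => absurd h.symm h2, fun h => absurd h.symm h1⟩
      · rw [ho j hj]
    have hs : sect f' (f i) = sect f (f i) := by
      ext j
      rw [mem_sect, mem_sect]
      by_cases hj : j = i
      · subst hj
        rw [hi']
        omega
      · rw [ho j hj]
    have hco : ∀ y, y ≠ f i → y ≠ f i + 1 → (cell f μ y : Lt Fl C) = cell f' μ y := by
      intro y h1 h2
      unfold cell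
      split_ifs with h0
      · rw [h0] at h1 h2
        rw [hlo 0 h1 h2]
      · rw [hlo y h1 h2]
    have hzn : M.z ∉ lev f (f i) := by
      rw [mem_lev]
      omega
    have hin : i ∉ lev f (f i + 1) := by
      rw [mem_lev]
      omega
    have hit : i ∈ lev f (f i) := mem_lev.2 rfl
    unfold ZZ
    rw [hz', deeps_cons f μ hy, deeps_cons f' μ hy, deeps_cons f μ (Nat.succ_le_of_lt hlt),
      deeps_cons f' μ (Nat.succ_le_of_lt hlt),
      ← zoneB_tops (f i) (fun y hyy => hco y (by omega) (by omega)),
      ← zoneB_deeps (f i + 1 + 1) (f M.z) (fun y hyy => hco y (by omega) (by omega))]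
    have hc1 : ∀ g : Fl → ℕ, (cell g μ (f i + 1) : Lt Fl C) = .P (lev g (f i + 1)) := by
      intro g
      rw [cell, if_neg (by omega)]
    rw [hc1 f, hc1 f', hl1]
    by_cases h0 : f i = 0
    · have e1 : ∀ (c'' : C) (g : Fl → ℕ), (hd c'' g (f i) : Lt Fl C) = .H c'' := by
        intro c'' g
        rw [hd, if_pos h0]
      have e2 : (cell f μ (f i) : Lt Fl C) = .B μ (lev f (f i)) := by
        rw [cell, if_pos h0, h0]
      have e3 : (cell f' μ (f i) : Lt Fl C) = .B μ ((lev f (f i)).erase i) := by
        rw [cell, if_pos h0, ← hl0, h0]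
      rw [e1, e1, e2, e3]
      exact zoneB_loc M k (Loc.inc0 (μ := μ) hi hne hit hzn hin) _ _
    · have e1 : ∀ (c'' : C) (g : Fl → ℕ), (hd c'' g (f i) : Lt Fl C) = .A c'' (sect g (f i)) := by
        intro c'' g
        rw [hd, if_neg h0]
      have e2 : (cell f μ (f i) : Lt Fl C) = .P (lev f (f i)) := by
        rw [cell, if_neg h0]
      have e3 : (cell f' μ (f i) : Lt Fl C) = .P ((lev f (f i)).erase i) := by
        rw [cell, if_neg h0, ← hl0]
      rw [e1, e1, e2, e3, hs]
      exact zoneB_loc M k (Loc.inc hi hne hit hzn hin) _ _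
  | @tst _ _ y hy ht =>
    rw [zz_move M k hx hy, zz_move (c := c') M k hx hy]
    unfold ZZ
    rw [deeps_cons f μ hy]
    by_cases h0 : y = 0
    · subst h0
      rw [sect_zero, decide_eq_true rfl] at ht
      have e1 : ∀ c'' : C, (hd c'' f 0 : Lt Fl C) = .H c'' := fun c'' => by rw [hd, if_pos rfl]
      have e2 : (cell f μ 0 : Lt Fl C) = .B μ (lev f 0) := by rw [cell, if_pos rfl]
      rw [e1, e1, e2]
      exact zoneB_loc M k (Loc.tst0 (μ := μ) ht) _ _
    · rw [decide_eq_false h0] at ht
      have e1 : ∀ c'' : C, (hd c'' f y : Lt Fl C) = .A c'' (sect f y) :=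
        fun c'' => by rw [hd, if_neg h0]
      have e2 : (cell f μ y : Lt Fl C) = .P (lev f y) := by rw [cell, if_neg h0]
      rw [e1, e1, e2]
      exact zoneB_loc M k (Loc.tst ht) _ _

/-- `ZZ` is an invariant predicate. -/
theorem zz_inv (n : ℕ) (μ : Option (C × Finset Fl)) (T D : List (Option (Lt Fl C))) :
    Inv M n fun c f => ZZ M k c f μ 0 T D :=
  fun _ _ _ _ hv _ h => zz_adj M k hv h (Nat.zero_le _)

end

end Pool.Agent.W_59b51d_v18
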