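import Pool.Agent.W_59b51d_v18.ZoneC

/-!
# The zipper of a zone (ZoneD)
-/

namespace Pool.Agent.W_59b51d_v18

section

variable {Fl C : Type} [Fintype Fl] [DecidableEq Fl] (M : Mach Fl C) (k : ℕ)

/-- A local relation does not change whether the zipper is derivably zero. -/
theorem zr_loc {T0 D0 T1 D1 : List (Lt Fl C)} {T D : List (Option (Lt Fl C))} {h h' : Lt Fl C}
    (hl : Loc M T0 h D0 T1 h' D1) :
    Zr M k (T0.map some ++ T) h (D0.map some ++ D) ↔
      Zr M k (T1.map some ++ T) h' (D1.map some ++ D) :=
  ⟨fun H => Zr.step' hl H, fun H => Zr.step hl H⟩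

theorem tops_congr {f g : Fl → ℕ} {μ : Option (C × Finset Fl)} {n : ℕ}
    (h : ∀ y < n, lev f y = lev g y) : (tops f μ n : List (Lt Fl C)) = tops g μ n := by
  induction n with
  | zero => rfl
  | succ n ih =>
    have h0 : (cell f μ n : Lt Fl C) = cell g μ n := by
      unfold cell
      by_cases hn : n = 0
      · subst hn
        simp [h 0 (by omega)]
      · simp [hn, h n (by omega)]
    simp only [tops]
    rw [h0, ih (fun y hy => h y (by omega))]

/-- Moving the end of a zone over a blank. Proof: take the head to `f M.z`; `Loc.zm`, `Loc.zm0`;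
all flags except `z` are at positions `≤ f M.z`, so that the new last cell is `P {z}`. -/
theorem zz_z {c : C} (hc : c = M.d0 ∨ c = M.u0) {f : Fl → ℕ} {μ : Option (C × Finset Fl)} {x : ℕ}
    {T D : List (Option (Lt Fl C))} (hv : Valid M f) (hx : x ≤ f M.z) :
    ZZ M k c f μ x T (some (.P ∅) :: D) ↔
      ZZ M k c (Function.update f M.z (f M.z + 1)) μ x T D := by
  have hgz : Function.update f M.z (f M.z + 1) M.z = f M.z + 1 := by simp
  have hgi : ∀ i, i ≠ M.z → Function.update f M.z (f M.z + 1) i = f i := by
    intro i hi
    simp [hi]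
  rw [zz_move M k (x := x) (y := f M.z) hx le_rfl,
    zz_move M k (f := Function.update f M.z (f M.z + 1)) (x := x) (y := f M.z) (by omega)
      (by omega)]
  have hl : ∀ y < f M.z, lev f y = lev (Function.update f M.z (f M.z + 1)) y := by
    intro y hy
    ext i
    simp only [mem_lev]
    by_cases hi : i = M.z
    · subst hi
      rw [hgz]
      omega
    · rw [hgi i hi]
  have hs : sect f (f M.z) = sect (Function.update f M.z (f M.z + 1)) (f M.z) := by
    ext i
    simp only [mem_sect]
    by_cases hi : i = M.z
    · subst hi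
      rw [hgz]
      omega
    · rw [hgi i hi]
  have he : lev (Function.update f M.z (f M.z + 1)) (f M.z) = (lev f (f M.z)).erase M.z := by
    ext i
    simp only [mem_lev, Finset.mem_erase]
    by_cases hi : i = M.z
    · subst hi
      rw [hgz]
      simp
    · rw [hgi i hi]
      tauto
  have hz : lev (Function.update f M.z (f M.z + 1)) (f M.z + 1) = {M.z} := by
    ext i
    simp only [mem_lev, Finset.mem_singleton]
    by_cases hi : i = M.z
    · subst hi
      simp
    · rw [hgi i hi]
      have := hv i
      constructor
      · intro h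
        omega
      · intro h
        exact absurd h hi
  unfold ZZ
  rw [hgz, tops_congr hl, deeps_cons f μ le_rfl, deeps_nil,
    deeps_cons (Function.update f M.z (f M.z + 1)) μ (by omega : f M.z ≤ f M.z + 1),
    deeps_cons (Function.update f M.z (f M.z + 1)) μ (le_refl (f M.z + 1)), deeps_nil]
  have hmem : M.z ∈ lev f (f M.z) := by simp [mem_lev]
  generalize hn : f M.z = n at *
  by_cases h0 : n = 0
  · subst h0
    have := zr_loc M k (T := (tops (Function.update f M.z (0 + 1)) μ 0).map some ++ T) (D := D)
      (Loc.zm0 (M := M) (c := c) (μ := μ) (φ := lev f 0) hc hmem)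
    simpa [cell, hd, he, hz, hn] using this
  · have := zr_loc M k (T := (tops (Function.update f M.z (n + 1)) μ n).map some ++ T) (D := D)
      (Loc.zm (M := M) (c := c) (S := sect f n) (φ := lev f n) hc hmem)
    simpa [cell, hd, he, hz, h0, hs, hn] using this

/-- Creation and removal of a zone (`Loc.new`). -/
theorem zz_new {c : C} {S : Finset Fl} {T D : List (Option (Lt Fl C))} :
    Zr M k T (.A c S) (some (.P ∅) :: D) ↔
      ZZ M k M.d0 (zeroAt M 0) (some (c, S)) 0 T D := by
  have h0 : zeroAt M 0 M.z = 0 := by simp [zeroAt]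
  have hl : lev (zeroAt M 0) 0 = Finset.univ := by
    ext i
    simp [mem_lev, zeroAt]
  unfold ZZ
  rw [h0, deeps_cons _ _ le_rfl, deeps_nil]
  have := zr_loc M k (T := T) (D := D) (Loc.new (M := M) (c := c) (S := S))
  simpa [tops, hd, cell, hl] using this

/-- Creation of a zone of width `n`: induction on `n` with `zz_z`, `zz_new`. -/
theorem zz_newn {c : C} {S : Finset Fl} {T D : List (Option (Lt Fl C))} (n : ℕ) :
    Zr M k T (.A c S) (List.replicate (n + 1) (some (.P ∅)) ++ D) ↔
      ZZ M k M.d0 (zeroAt M n) (some (c, S)) 0 T D := by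
  induction n generalizing D with
  | zero => simpa using zz_new M k (c := c) (S := S) (T := T) (D := D)
  | succ n ih =>
    have e : List.replicate (n + 1 + 1) (some (Lt.P (∅ : Finset Fl)) : Option (Lt Fl C)) ++ D =
        List.replicate (n + 1) (some (.P ∅)) ++ (some (.P ∅) :: D) := by
      rw [List.replicate_succ' (n := n + 1)]
      simp
    have hv : Valid M (zeroAt M n) := by
      intro i
      simp only [zeroAt, if_true]
      split_ifs <;> omega
    have hu : Function.update (zeroAt M n) M.z (zeroAt M n M.z + 1) = zeroAt M (n + 1) := by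
      funext i
      by_cases hi : i = M.z
      · subst hi
        simp [zeroAt]
      · simp [zeroAt, hi]
    rw [e, ih, zz_z M k (Or.inl rfl) hv (Nat.zero_le _), hu]

end

end Pool.Agent.W_59b51d_v18
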